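import Pool.Agent.Lib_helper13.Robin.Basic

/-!
# Robin project, block NL: linear structure and invariances of the class NH
-/

namespace Pool.Agent.Lib_helper13.Robin.NLb

open MeasureTheory Set Metric Filter Topology
open scoped RealInnerProductSpace ContDiff
open Pool.Agent.Lib_helper13.Robin

noncomputable section

variable {d m : ℕ} (P : PD d m)

/-- **NL.** -/
theorem NH_mono {P : PD d m} {V V' : Set (E d)} {w : E d → ℝ} (h : NH P V w) (hV : V' ⊆ V) :
    NH P V' w :=
  ⟨h.sm.mono (inter_subset_inter_right _ hV), fun x hx => h.harm x ⟨hx.1, hV hx.2⟩,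
    fun K hK => h.l2 K (hK.trans hV), fun K hK => h.gl2 K (hK.trans hV),
    fun φ hφ => h.weak φ (hφ.mono hV)⟩

/-- **NL.** -/
theorem NH_add {P : PD d m} {V : Set (E d)} {w w' : E d → ℝ} (hV : IsOpen V) (h : NH P V w)
    (h' : NH P V w') : NH P V (fun x => w x + w' x) := by
  have hO := P.isOpen_Om.inter hV
  refine ⟨h.sm.add h'.sm, fun x hx => ?_, fun K hKV hK => ?_, fun K hKV hK => ?_, fun φ hφ => ?_⟩
  · rw [lap_add_fun ((h.sm x hx).contDiffAt (hO.mem_nhds hx))
      ((h'.sm x hx).contDiffAt (hO.mem_nhds hx)), h.harm x hx, h'.harm x hx, add_zero]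
  · have h1 : IntegrableOn (fun x => 2 * w x ^ 2 + 2 * w' x ^ 2) (P.Om ∩ K) :=
      ((h.l2 K hKV hK).const_mul 2).add ((h'.l2 K hKV hK).const_mul 2)
    refine Integrable.mono' h1 ?_ (Eventually.of_forall fun x => ?_)
    · exact (((h.sm.continuousOn.add h'.sm.continuousOn).pow 2).mono
        (inter_subset_inter_right _ hKV)).aestronglyMeasurable
        (P.measurableSet_Om.inter hK.measurableSet)
    · rw [Real.norm_eq_abs, abs_of_nonneg (sq_nonneg _)]
      nlinarith [sq_nonneg (w x - w' x)]
  · have h1 : IntegrableOn (fun x => 2 * ‖gradient w x‖ ^ 2 + 2 * ‖gradient w' x‖ ^ 2)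
        (P.Om ∩ K) := ((h.gl2 K hKV hK).const_mul 2).add ((h'.gl2 K hKV hK).const_mul 2)
    have hm := P.measurableSet_Om.inter hK.measurableSet
    have h2 : IntegrableOn (fun x => ‖gradient w x + gradient w' x‖ ^ 2) (P.Om ∩ K) := by
      refine Integrable.mono' h1 ?_ (Eventually.of_forall fun x => ?_)
      · exact ((((h.continuousOn_gradient hV).add (h'.continuousOn_gradient hV)).norm.pow 2).mono
          (inter_subset_inter_right _ hKV)).aestronglyMeasurable hm
      · rw [Real.norm_eq_abs, abs_of_nonneg (sq_nonneg _)]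
        have := norm_add_le (gradient w x) (gradient w' x)
        nlinarith [sq_nonneg (‖gradient w x‖ - ‖gradient w' x‖),
          norm_nonneg (gradient w x + gradient w' x), norm_nonneg (gradient w x),
          norm_nonneg (gradient w' x)]
    refine h2.congr_fun ?_ hm
    intro x hx
    have hx' : x ∈ P.Om ∩ V := ⟨hx.1, hKV hx.2⟩
    simp only [gradient_add_fun (h.differentiableAt hV hx') (h'.differentiableAt hV hx')]
  · obtain ⟨K, hKV, hK, h0⟩ := hφ.supp
    have i1 := hφ.integrable (h.continuousOn_gradient hV) h.gl2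
    have i2 := hφ.integrable (h'.continuousOn_gradient hV) h'.gl2
    have e : ∫ x in P.Om, ⟪gradient (fun x => w x + w' x) x, gradient φ x⟫ =
        ∫ x in P.Om, (⟪gradient w x, gradient φ x⟫ + ⟪gradient w' x, gradient φ x⟫) := by
      apply setIntegral_congr_fun P.measurableSet_Om
      intro x hx
      by_cases hxK : x ∈ K
      · have hx' : x ∈ P.Om ∩ V := ⟨hx, hKV hxK⟩
        simp only [gradient_add_fun (h.differentiableAt hV hx') (h'.differentiableAt hV hx'),
          inner_add_left]
      · simp only [adm_gradient_zero P hK.isClosed h0 hx hxK, inner_zero_right, add_zero]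
    rw [e, integral_add i1 i2, h.weak φ hφ, h'.weak φ hφ, add_zero]

/-- **NL.** -/
theorem NH_const_mul {P : PD d m} {V : Set (E d)} {w : E d → ℝ} (hV : IsOpen V) (h : NH P V w)
    (c : ℝ) : NH P V (fun x => c * w x) := by
  have hO := P.isOpen_Om.inter hV
  refine ⟨contDiffOn_const.mul h.sm, fun x hx => ?_, fun K hKV hK => ?_, fun K hKV hK => ?_,
    fun φ hφ => ?_⟩
  · rw [lap_const_mul_fun ((h.sm x hx).contDiffAt (hO.mem_nhds hx)), h.harm x hx, mul_zero]
  · have h1 : IntegrableOn (fun x => c ^ 2 * w x ^ 2) (P.Om ∩ K) := (h.l2 K hKV hK).const_mul _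
    refine h1.congr_fun ?_ (P.measurableSet_Om.inter hK.measurableSet)
    intro x _
    simp only [mul_pow]
  · have h1 : IntegrableOn (fun x => c ^ 2 * ‖gradient w x‖ ^ 2) (P.Om ∩ K) :=
      (h.gl2 K hKV hK).const_mul _
    refine h1.congr_fun ?_ (P.measurableSet_Om.inter hK.measurableSet)
    intro x hx
    have hx' : x ∈ P.Om ∩ V := ⟨hx.1, hKV hx.2⟩
    simp only [gradient_const_mul_fun (h.differentiableAt hV hx'), norm_smul, mul_pow,
      Real.norm_eq_abs, sq_abs]
  · obtain ⟨K, hKV, hK, h0⟩ := hφ.supp
    have e : ∫ x in P.Om, ⟪gradient (fun x => c * w x) x, gradient φ x⟫ =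
        ∫ x in P.Om, c * ⟪gradient w x, gradient φ x⟫ := by
      apply setIntegral_congr_fun P.measurableSet_Om
      intro x hx
      by_cases hxK : x ∈ K
      · have hx' : x ∈ P.Om ∩ V := ⟨hx, hKV hxK⟩
        simp only [gradient_const_mul_fun (h.differentiableAt hV hx'), inner_smul_left,
          conj_trivial]
      · simp only [adm_gradient_zero P hK.isClosed h0 hx hxK, inner_zero_right, mul_zero]
    rw [e, integral_const_mul, h.weak φ hφ, mul_zero]

/-! ### affine functions -/

/-- tangential derivatives of admissible functions have integral zero -/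
theorem integral_tangential {p : E d} {R : ℝ} (hC : P.Con p R) {a : E d} (ha : a ∈ (P.N p)ᗮ)
    {φ : E d → ℝ} (hφ : Adm P (ball p R) φ) : ∫ x in P.Om, ⟪a, gradient φ x⟫ = 0 := by
  classical
  obtain ⟨K, hKV, hK, h0⟩ := hφ.supp
  set f : E d → ℝ := P.Om.indicator φ with hf
  set f' : E d → ℝ := P.Om.indicator (fun x => ⟪a, gradient φ x⟫) with hf'
  have hline : ∀ x, HasLineDerivAt ℝ f (f' x) x a := by
    intro x
    unfold HasLineDerivAt
    have hc : Continuous fun t : ℝ => x + t • a := by fun_prop
    have hc0 : (fun t : ℝ => x + t • a) 0 = x := by simp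
    by_cases hxK : x ∈ K
    · have hxB := hKV hxK
      -- near t = 0 the point stays in the ball
      have hev : ∀ᶠ t : ℝ in 𝓝 0, x + t • a ∈ ball p R := by
        apply hc.continuousAt.eventually_mem
        change ball p R ∈ 𝓝 ((fun t : ℝ => x + t • a) 0)
        rw [hc0]; exact isOpen_ball.mem_nhds hxB
      by_cases hxO : x ∈ P.Om
      · have h1 : HasDerivAt (fun t : ℝ => φ (x + t • a)) (⟪a, gradient φ x⟫) 0 := by
          have h2 : DifferentiableAt ℝ φ x :=
            ((hφ.c1 x hxO).contDiffAt (P.isOpen_Om.mem_nhds hxO)).differentiableAt (by simp)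
          have h3 : HasLineDerivAt ℝ φ (fderiv ℝ φ x a) x a := h2.hasFDerivAt.hasLineDerivAt a
          have h4 : ⟪a, gradient φ x⟫ = fderiv ℝ φ x a := by
            rw [real_inner_comm]; simp [gradient, InnerProductSpace.toDual_symm_apply]
          rw [h4]; exact h3
        rw [hf', indicator_of_mem hxO]
        apply h1.congr_of_eventuallyEq
        filter_upwards [hev] with t ht
        rw [hf, indicator_of_mem]
        exact (hC.translate hxB (Submodule.smul_mem _ t ha) ht).2 hxO
      · rw [hf', indicator_of_notMem hxO]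
        apply (hasDerivAt_const (0 : ℝ) (0 : ℝ)).congr_of_eventuallyEq
        filter_upwards [hev] with t ht
        rw [hf, indicator_of_notMem]
        intro h
        exact hxO ((hC.translate hxB (Submodule.smul_mem _ t ha) ht).1 h)
    · have hev : ∀ᶠ t : ℝ in 𝓝 0, x + t • a ∉ K := by
        apply hc.continuousAt.eventually_mem (s := Kᶜ)
        change Kᶜ ∈ 𝓝 ((fun t : ℝ => x + t • a) 0)
        rw [hc0]; exact hK.isClosed.isOpen_compl.mem_nhds hxK
      have hz : f' x = 0 := by
        rw [hf']
        by_cases hxO : x ∈ P.Om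
        · rw [indicator_of_mem hxO, adm_gradient_zero P hK.isClosed h0 hxO hxK, inner_zero_right]
        · rw [indicator_of_notMem hxO]
      rw [hz]
      apply (hasDerivAt_const (0 : ℝ) (0 : ℝ)).congr_of_eventuallyEq
      filter_upwards [hev] with t ht
      rw [hf]
      by_cases hxO : x + t • a ∈ P.Om
      · rw [indicator_of_mem hxO]; exact h0 _ hxO ht
      · rw [indicator_of_notMem hxO]
  have hfi : Integrable f := by
    rw [hf, integrable_indicator_iff P.measurableSet_Om]
    obtain ⟨M, hM⟩ := hφ.bdd
    refine Integrable.mono' (integrableOn_const (C := M) (hs := P.volume_lt_top.ne))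
      (hφ.c1.continuousOn.aestronglyMeasurable P.measurableSet_Om) ?_
    filter_upwards [self_mem_ae_restrict P.measurableSet_Om] with x hx
    exact hM x hx
  have hf'i : Integrable f' := by
    rw [hf', integrable_indicator_iff P.measurableSet_Om]
    apply hφ.integrable (V := ball p R) (F := fun _ => a) continuousOn_const
    intro K' _ _
    exact integrableOn_const (C := ‖a‖ ^ 2)
      (hs := ((measure_mono inter_subset_left).trans_lt P.volume_lt_top).ne)
  have h1 : ∀ x : E d, HasLineDerivAt ℝ (fun _ : E d => (1 : ℝ)) 0 x a := fun x =>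
    hasDerivAt_const _ _
  have key := integral_bilinear_hasLineDerivAt_right_eq_neg_left_of_integrable
    (B := ContinuousLinearMap.mul ℝ ℝ) (μ := (volume : Measure (E d))) (f := f) (f' := f')
    (g := fun _ => 1) (g' := fun _ => 0) (v := a)
    (by simpa using hf'i) (by simp) (by simpa using hfi) (fun x _ => hline x) (fun x _ => h1 x)
  simp only [ContinuousLinearMap.mul_apply', mul_zero, integral_zero, mul_one] at key
  rw [← integral_indicator P.measurableSet_Om]
  change ∫ x, f' x = 0
  linarith

/-- **NL.** affine functions with tangential gradient -/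
theorem nh_affine {p : E d} {R : ℝ} (hC : P.Con p R) {a : E d} (ha : a ∈ (P.N p)ᗮ) (c : ℝ) :
    NH P (ball p R) (fun x => c + ⟪a, x - p⟫) := by
  have hfin : ∀ K : Set (E d), volume (P.Om ∩ K) ≠ ⊤ := fun K =>
    ((measure_mono inter_subset_left).trans_lt P.volume_lt_top).ne
  have hcont : Continuous fun x : E d => c + ⟪a, x - p⟫ := by fun_prop
  have hsm : ContDiff ℝ ∞ fun x : E d => c + ⟪a, x - p⟫ :=
    contDiff_const.add (contDiff_const.inner ℝ (contDiff_id.sub contDiff_const))
  refine ⟨hsm.contDiffOn, fun x _ => ?_, fun K hKV hK => ?_, fun K hKV hK => ?_, fun φ hφ => ?_⟩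
  · unfold lap
    apply Finset.sum_eq_zero
    intro j _
    have h1 : pd (bv j) (fun x => c + ⟪a, x - p⟫) = fun _ => ⟪a, bv j⟫ := by
      ext y
      unfold pd
      rw [(hasFDerivAt_affine a p y c).fderiv]
      rfl
    rw [h1]
    unfold pd
    simp
  · exact ((hcont.pow 2).continuousOn.integrableOn_compact hK).mono_set inter_subset_right
  · simp only [gradient_affine]
    exact integrableOn_const (hs := hfin K)
  · simp only [gradient_affine]
    exact integral_tangential P hC ha hφ

/-! ### translations -/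

theorem translate_mem {p s x : E d} {R : ℝ} (hx : x ∈ ball p (R - ‖s‖)) : x + s ∈ ball p R := by
  rw [mem_ball, dist_eq_norm] at hx ⊢
  calc ‖x + s - p‖ = ‖(x - p) + s‖ := by congr 1; abel
    _ ≤ ‖x - p‖ + ‖s‖ := norm_add_le _ _
    _ < R := by linarith

theorem preimage_translate {p s : E d} {R : ℝ} (hC : P.Con p R) (hs : s ∈ (P.N p)ᗮ)
    {K : Set (E d)} (hK : K ⊆ ball p (R - ‖s‖)) :
    (fun x => x + s) ⁻¹' (P.Om ∩ (fun x => x + s) '' K) = P.Om ∩ K := by
  ext x
  simp only [mem_preimage, mem_inter_iff, mem_image, add_left_inj, exists_eq_right]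
  constructor
  · rintro ⟨h1, h2⟩
    exact ⟨(hC.translate (ball_subset_ball (by linarith [norm_nonneg s]) (hK h2)) hs
      (translate_mem (hK h2))).1 h1, h2⟩
  · rintro ⟨h1, h2⟩
    exact ⟨(hC.translate (ball_subset_ball (by linarith [norm_nonneg s]) (hK h2)) hs
      (translate_mem (hK h2))).2 h1, h2⟩

theorem integrableOn_translate {p s : E d} {R : ℝ} (hC : P.Con p R) (hs : s ∈ (P.N p)ᗮ)
    {K : Set (E d)} (hK : K ⊆ ball p (R - ‖s‖)) (f : E d → ℝ) :
    IntegrableOn (fun x => f (x + s)) (P.Om ∩ K) ↔
      IntegrableOn f (P.Om ∩ (fun x => x + s) '' K) := by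
  have := (measurePreserving_add_right (volume : Measure (E d)) s).integrableOn_comp_preimage
    (measurableEmbedding_addRight s) (f := f) (s := P.Om ∩ (fun x => x + s) '' K)
  rw [preimage_translate P hC hs hK] at this
  exact this

theorem setIntegral_translate {p s : E d} {R : ℝ} (hC : P.Con p R) (hs : s ∈ (P.N p)ᗮ)
    {K : Set (E d)} (hK : K ⊆ ball p (R - ‖s‖)) (f : E d → ℝ) :
    ∫ x in P.Om ∩ K, f (x + s) = ∫ x in P.Om ∩ (fun x => x + s) '' K, f x := by
  have := (measurePreserving_add_right (volume : Measure (E d)) s).setIntegral_preimage_emb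
    (measurableEmbedding_addRight s) f (P.Om ∩ (fun x => x + s) '' K)
  rw [preimage_translate P hC hs hK] at this
  exact this

/-- **NL.** tangential translations -/
theorem nh_translate {p s : E d} {R : ℝ} (hC : P.Con p R) {w : E d → ℝ}
    (h : NH P (ball p R) w) (hs : s ∈ (P.N p)ᗮ) (_hsR : ‖s‖ < R) :
    NH P (ball p (R - ‖s‖)) (fun x => w (x + s)) := by
  classical
  have hsub : ball p (R - ‖s‖) ⊆ ball p R := ball_subset_ball (by linarith [norm_nonneg s])
  have hOO : ∀ x ∈ P.Om ∩ ball p (R - ‖s‖), x + s ∈ P.Om ∩ ball p R := fun x hx =>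
    ⟨(hC.translate (hsub hx.2) hs (translate_mem hx.2)).2 hx.1, translate_mem hx.2⟩
  have himg : ∀ K ⊆ ball p (R - ‖s‖), (fun x => x + s) '' K ⊆ ball p R := by
    rintro K hK _ ⟨x, hx, rfl⟩
    exact translate_mem (hK hx)
  have hicomp : ∀ K : Set (E d), IsCompact K → IsCompact ((fun x => x + s) '' K) := fun K hK =>
    hK.image (by fun_prop)
  refine ⟨?_, fun x hx => ?_, fun K hKV hK => ?_, fun K hKV hK => ?_, fun φ hφ => ?_⟩
  · exact h.sm.comp (by fun_prop) hOO
  · rw [lap_translate]; exact h.harm _ (hOO x hx)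
  · rw [integrableOn_translate P hC hs hKV (fun x => w x ^ 2)]
    exact h.l2 _ (himg K hKV) (hicomp K hK)
  · simp only [gradient_translate]
    rw [integrableOn_translate P hC hs hKV (fun x => ‖gradient w x‖ ^ 2)]
    exact h.gl2 _ (himg K hKV) (hicomp K hK)
  · obtain ⟨K, hKV, hK, h0⟩ := hφ.supp
    set φ' : E d → ℝ := fun y => if y - s ∈ K then φ (y - s) else 0 with hφ'
    have hKc := hK.isClosed
    -- local form of φ'
    have hloc1 : ∀ y ∈ P.Om, y - s ∈ K → φ' =ᶠ[𝓝 y] fun z => φ (z + -s) := by
      intro y hy hyK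
      have h1 : y - s ∈ ball p (R - ‖s‖) := hKV hyK
      have h2 : y - s ∈ P.Om :=
        (hC.translate (hsub h1) hs (translate_mem h1)).1 (by rw [sub_add_cancel]; exact hy)
      have hc : Continuous fun z : E d => z - s := by fun_prop
      filter_upwards [hc.continuousAt.eventually_mem (P.isOpen_Om.mem_nhds h2)] with z hz
      rw [hφ', ← sub_eq_add_neg]
      by_cases hzK : z - s ∈ K
      · simp only [hzK, if_true]
      · simp only [hzK, if_false]
        exact (h0 _ hz hzK).symm
    have hloc2 : ∀ y, y - s ∉ K → φ' =ᶠ[𝓝 y] fun _ => 0 := by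
      intro y hyK
      have hc : Continuous fun z : E d => z - s := by fun_prop
      filter_upwards [hc.continuousAt.eventually_mem (hKc.isOpen_compl.mem_nhds hyK)] with z hz
      rw [hφ']
      simp only [show z - s ∉ K from hz, if_false]
    have hO : ∀ y ∈ P.Om, y - s ∈ K → y - s ∈ P.Om := by
      intro y hy hyK
      have h1 : y - s ∈ ball p (R - ‖s‖) := hKV hyK
      exact (hC.translate (hsub h1) hs (translate_mem h1)).1 (by rw [sub_add_cancel]; exact hy)
    have hg1 : ∀ y ∈ P.Om, y - s ∈ K → gradient φ' y = gradient φ (y - s) := by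
      intro y hy hyK
      have h1 : fderiv ℝ φ' y = fderiv ℝ (fun z => φ (z + -s)) y :=
        Filter.EventuallyEq.fderiv_eq (hloc1 y hy hyK)
      have h2 : gradient φ' y = gradient (fun z => φ (z + -s)) y := by
        unfold gradient; rw [h1]
      rw [h2, gradient_translate, ← sub_eq_add_neg]
    have hg2 : ∀ y, y - s ∉ K → gradient φ' y = 0 := by
      intro y hyK
      unfold gradient; rw [(hloc2 y hyK).fderiv_eq]; simp
    have himem : ∀ y, y ∈ (fun x => x + s) '' K ↔ y - s ∈ K := by
      intro y
      constructor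
      · rintro ⟨x, hx, rfl⟩; simpa using hx
      · intro hy; exact ⟨y - s, hy, by simp⟩
    have hadm : Adm P (ball p R) φ' := by
      refine ⟨?_, ?_, ?_, (fun x => x + s) '' K, himg K hKV, hicomp K hK, ?_⟩
      · intro y hy
        by_cases hyK : y - s ∈ K
        · have h1 : ContDiffAt ℝ 1 φ (y - s) :=
            (hφ.c1 _ (hO y hy hyK)).contDiffAt (P.isOpen_Om.mem_nhds (hO y hy hyK))
          rw [sub_eq_add_neg] at h1
          have h3 : ContDiffAt ℝ 1 (fun z : E d => z + -s) y :=
            (contDiff_id.add contDiff_const).contDiffAt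
          have h2 : ContDiffAt ℝ 1 (fun z => φ (z + -s)) y := h1.comp y h3
          exact (h2.congr_of_eventuallyEq (hloc1 y hy hyK)).contDiffWithinAt
        · exact ((contDiffAt_const (c := (0 : ℝ))).congr_of_eventuallyEq
            (hloc2 y hyK)).contDiffWithinAt
      · obtain ⟨M, hM⟩ := hφ.bdd
        refine ⟨max M 0, fun y hy => ?_⟩
        by_cases hyK : y - s ∈ K
        · rw [hφ']; simp only [hyK, if_true]
          exact (hM _ (hO y hy hyK)).trans (le_max_left _ _)
        · rw [hφ']; simp only [hyK, if_false, abs_zero]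
          exact le_max_right _ _
      · apply integrableOn_of_zero_off P (hicomp K hK).measurableSet
        · intro y _ hyK
          rw [hg2 y (fun h => hyK ((himem y).2 h))]; simp
        · have h1 : IntegrableOn (fun y => ‖gradient φ (y - s)‖ ^ 2)
              (P.Om ∩ (fun x => x + s) '' K) := by
            have h2 := integrableOn_translate P hC hs hKV
              (fun y => ‖gradient φ (y - s)‖ ^ 2)
            simp only [add_sub_cancel_right] at h2
            exact h2.1 (hφ.l2.mono_set inter_subset_left)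
          refine h1.congr_fun ?_ (P.measurableSet_Om.inter (hicomp K hK).measurableSet)
          intro y hy
          simp only [hg1 y hy.1 ((himem y).1 hy.2)]
      · intro y _ hyK
        rw [hφ']
        simp only [show y - s ∉ K from fun h => hyK ((himem y).2 h), if_false]
    have hw := h.weak φ' hadm
    rw [setIntegral_eq_of_zero_off P (hicomp K hK).measurableSet (by
      intro y _ hyK
      rw [hg2 y (fun h => hyK ((himem y).2 h)), inner_zero_right])] at hw
    rw [setIntegral_eq_of_zero_off P hK.measurableSet (by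
      intro x hx hxK
      rw [adm_gradient_zero P hKc h0 hx hxK, inner_zero_right])]
    have e1 := setIntegral_translate P hC hs hKV
      (fun y => ⟪gradient w y, gradient φ (y - s)⟫)
    simp only [add_sub_cancel_right] at e1
    simp only [gradient_translate]
    rw [e1, ← hw]
    apply setIntegral_congr_fun (P.measurableSet_Om.inter (hicomp K hK).measurableSet)
    intro y hy
    simp only [hg1 y hy.1 ((himem y).1 hy.2)]

end

end Pool.Agent.Lib_helper13.Robin.NLb
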