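import Pool.Agent.Lib_helper13.Robin.Basic
import Pool.Agent.Lib_helper13.Robin.W.NL
import Pool.Agent.Lib_helper13.Robin.W.PL
import Pool.Agent.Lib_helper13.Robin.W.RE

/-!
# Robin project, block ET (cites `refl_ext`)
-/

namespace Pool.Agent.Lib_helper13.Robin.ET

open MeasureTheory Set Metric Filter Topology
open scoped RealInnerProductSpace ContDiff
open Pool.Agent.Lib_helper13.Robin

noncomputable section

variable {d m : ℕ} (P : PD d m)

theorem pd_pd {f : E d → ℝ} {y : E d} (h : ContDiffAt ℝ ∞ f y) (u v : E d) :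
    pd u (pd v f) y = (fderiv ℝ (fderiv ℝ f) y u) v := by
  have h1 : DifferentiableAt ℝ (fderiv ℝ f) y :=
    (h.fderiv_right (m := 1) (by norm_cast)).differentiableAt (by simp)
  unfold pd
  rw [fderiv_clm_apply h1 (differentiableAt_const v)]
  simp

theorem pd_comm {f : E d → ℝ} {y : E d} (h : ContDiffAt ℝ ∞ f y) (u v : E d) :
    pd u (pd v f) y = pd v (pd u f) y := by
  rw [pd_pd h, pd_pd h]
  exact (contDiffAt_infty.1 h 2).isSymmSndFDerivAt (by simp) u v

theorem pd_congr {f g : E d → ℝ} {y : E d} (h : f =ᶠ[𝓝 y] g) (u : E d) :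
    pd u f y = pd u g y := by
  unfold pd; rw [h.fderiv_eq]

theorem eventually_contDiffAt {U : Set (E d)} (hU : IsOpen U) {f : E d → ℝ}
    (hf : ContDiffOn ℝ ∞ f U) {y : E d} (hy : y ∈ U) : ∀ᶠ z in 𝓝 y, ContDiffAt ℝ ∞ f z := by
  filter_upwards [hU.mem_nhds hy] with z hz
  exact (hf z hz).contDiffAt (hU.mem_nhds hz)

/-- derivatives of harmonic functions are harmonic -/
theorem lap_pd {U : Set (E d)} (hU : IsOpen U) {f : E d → ℝ}
    (hf : ContDiffOn ℝ ∞ f U) (h0 : ∀ x ∈ U, lap f x = 0) {y : E d} (hy : y ∈ U) (e : E d) :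
    lap (pd e f) y = 0 := by
  have hy' : ContDiffAt ℝ ∞ f y := (hf y hy).contDiffAt (hU.mem_nhds hy)
  have h1 : ∀ j : Fin d, pd (bv j) (pd (bv j) (pd e f)) y = pd e (pd (bv j) (pd (bv j) f)) y := by
    intro j
    have e1 : pd (bv j) (pd e f) =ᶠ[𝓝 y] pd e (pd (bv j) f) := by
      filter_upwards [eventually_contDiffAt hU hf hy] with z hz
      exact pd_comm hz _ _
    rw [pd_congr e1]
    exact pd_comm (contDiffAt_pd hy') _ _
  unfold lap
  rw [Finset.sum_congr rfl fun j _ => h1 j]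
  have h2 : pd e (lap f) y = 0 := by
    have : lap f =ᶠ[𝓝 y] fun _ => 0 := by
      filter_upwards [hU.mem_nhds hy] with z hz
      exact h0 z hz
    rw [pd_congr this]
    unfold pd; simp
  rw [← h2]
  have h3 : lap f = fun z => ∑ j, pd (bv j) (pd (bv j) f) z := rfl
  rw [h3]
  have h4 : ∀ e : E d, pd e (fun z => ∑ j, pd (bv j) (pd (bv j) f) z) y =
      ∑ j, pd e (pd (bv j) (pd (bv j) f)) y := by
    intro e
    change fderiv ℝ (fun z => ∑ j, pd (bv j) (pd (bv j) f) z) y e = _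
    rw [fderiv_fun_sum]
    · rw [ContinuousLinearMap.sum_apply]; rfl
    · intro j _
      exact (contDiffAt_pd (contDiffAt_pd hy')).differentiableAt (by simp)
  rw [h4]

/-! ### the reflection -/

/-- linear part of the reflection -/
def S (i : Fin m) : E d →L[ℝ] E d :=
  ContinuousLinearMap.id ℝ (E d) - (2 : ℝ) • (innerSL ℝ (P.ν i)).smulRight (P.ν i)

theorem S_apply (i : Fin m) (x : E d) : S P i x = x - (2 * ⟪P.ν i, x⟫) • P.ν i := by
  simp [S, smul_smul]

theorem S_symm (i : Fin m) (x y : E d) : ⟪S P i x, y⟫ = ⟪x, S P i y⟫ := by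
  rw [S_apply, S_apply, inner_sub_left, inner_sub_right, inner_smul_left, inner_smul_right,
    real_inner_comm (P.ν i) x]
  simp only [conj_trivial]
  ring

theorem S_norm (i : Fin m) (x : E d) : ‖S P i x‖ = ‖x‖ := by
  have h : ‖S P i x‖ ^ 2 = ‖x‖ ^ 2 := by
    rw [← real_inner_self_eq_norm_sq, ← real_inner_self_eq_norm_sq, S_symm, S_apply, S_apply,
      inner_sub_right, inner_smul_right]
    have := P.inner_ν_self i
    simp only [inner_sub_right, inner_smul_right, this]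
    rw [real_inner_comm (P.ν i) x]
    ring
  exact (sq_eq_sq₀ (norm_nonneg _) (norm_nonneg _)).1 h

theorem refl_hasFDerivAt (i : Fin m) (x : E d) : HasFDerivAt (P.refl i) (S P i) x := by
  have h1 : P.refl i = fun x => S P i x + (2 * P.b i) • P.ν i := by
    ext1 x
    rw [S_apply]
    unfold PD.refl
    rw [mul_sub, sub_smul]
    abel
  rw [h1]
  exact (S P i).hasFDerivAt.add_const _

theorem refl_mem_ball {q : E d} {i : Fin m} {R : ℝ} (hq : ⟪P.ν i, q⟫ = P.b i) {x : E d}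
    (hx : x ∈ ball q R) : P.refl i x ∈ ball q R := by
  rw [mem_ball, dist_eq_norm] at hx ⊢
  have : P.refl i x - q = S P i (x - q) := by
    rw [S_apply]
    unfold PD.refl
    rw [inner_sub_right, hq]
    have : (2 * (P.b i - ⟪P.ν i, x⟫)) = -(2 * (⟪P.ν i, x⟫ - P.b i)) := by ring
    rw [this, neg_smul]
    abel
  rw [this, S_norm]
  exact hx

/-- sums of squares of a linear functional over the basis are invariant under `S` -/
theorem sum_sq_S (i : Fin m) (l : E d →L[ℝ] ℝ) :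
    ∑ j, l (S P i (bv j)) ^ 2 = ∑ j, l (bv j) ^ 2 := by
  obtain ⟨g, rfl⟩ := (InnerProductSpace.toDual ℝ (E d)).surjective l
  have h1 : ∀ z : E d, ‖z‖ ^ 2 = ∑ j, ⟪z, bv j⟫ ^ 2 := by
    intro z
    rw [EuclideanSpace.norm_sq_eq]
    apply Finset.sum_congr rfl
    intro j _
    rw [EuclideanSpace.inner_single_right]
    simp
  simp only [InnerProductSpace.toDual_apply_apply]
  rw [← h1 g, ← S_norm P i g, h1 (S P i g)]
  apply Finset.sum_congr rfl
  intro j _
  rw [S_symm]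

theorem pd_refl {q : E d} {i : Fin m} {R : ℝ} (hq : ⟪P.ν i, q⟫ = P.b i) {f : E d → ℝ}
    (hf : ∀ x ∈ ball q R, DifferentiableAt ℝ f x) {g : E d → ℝ}
    (hg : ∀ x ∈ ball q R, g x = f (P.refl i x)) {x : E d} (hx : x ∈ ball q R) (e : E d) :
    pd e g x = pd (S P i e) f (P.refl i x) := by
  have h1 : g =ᶠ[𝓝 x] fun y => f (P.refl i y) := by
    filter_upwards [isOpen_ball.mem_nhds hx] with y hy
    exact hg y hy
  rw [pd_congr h1]
  have h2 : HasFDerivAt (fun y => f (P.refl i y))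
      ((fderiv ℝ f (P.refl i x)).comp (S P i)) x :=
    (hf _ (refl_mem_ball P hq hx)).hasFDerivAt.comp x (refl_hasFDerivAt P i x)
  unfold pd
  rw [h2.fderiv]
  rfl

section
variable {V : Set (E d)} {w : E d → ℝ}

theorem local_ext (hV : IsOpen V) (h : NH P V w) {q : E d} (hqV : q ∈ V) {i : Fin m}
    (hqc : q ∈ P.cl) (hA : P.A q = {i}) : ∃ R > 0, ball q R ⊆ V ∧ ⟪P.ν i, q⟫ = P.b i ∧
      ∃ w' : E d → ℝ, ContDiffOn ℝ ∞ w' (ball q R) ∧ (∀ x ∈ P.Om ∩ ball q R, w' =ᶠ[𝓝 x] w) ∧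
      ∀ x ∈ ball q R, w' (P.refl i x) = w' x := by
  obtain ⟨R0, hR0⟩ := P.exists_con hqc
  obtain ⟨R1, hR1, hR1V⟩ := Metric.isOpen_iff.1 hV q hqV
  have hR : 0 < min R0 R1 := lt_min hR0.1 hR1
  have hsub : ball q (min R0 R1) ⊆ V := (ball_subset_ball (min_le_right _ _)).trans hR1V
  obtain ⟨w', h1, -, h3, h4⟩ := refl_ext P (hR0.mono hR (min_le_left _ _)) hA (h.mono hsub)
  refine ⟨_, hR, hsub, ?_, w', h1, ?_, h4⟩
  · have : i ∈ P.A q := by rw [hA]; rfl
    exact this
  · intro x hx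
    filter_upwards [(P.isOpen_Om.inter isOpen_ball).mem_nhds hx] with y hy
    exact h3 y hy

/-- **ET.** -/
theorem ef_T1 (hV : IsOpen V) (h : NH P V w) : EF P (T1 w) V := by
  have hO := P.isOpen_Om.inter hV
  refine ⟨fun j x hx => ?_, fun j x hx => ?_, fun q hqV i hqc hA => ?_⟩
  · exact (contDiffAt_pd ((h.sm x hx).contDiffAt (hO.mem_nhds hx))).contDiffWithinAt
  · exact lap_pd hO h.sm h.harm hx _
  · obtain ⟨R, hR, hRV, hqi, w', h1, h2, h3⟩ := local_ext P hV h hqV hqc hA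
    have hc : ∀ x ∈ ball q R, ContDiffAt ℝ ∞ w' x := fun x hx =>
      (h1 x hx).contDiffAt (isOpen_ball.mem_nhds hx)
    refine ⟨R, hR, T1 w', fun j x hx => (contDiffAt_pd (hc x hx)).contDiffWithinAt,
      fun j x hx => pd_congr (h2 x hx) _, fun x hx => ?_⟩
    have e1 : ∀ j, T1 w' j x = fderiv ℝ w' (P.refl i x) (S P i (bv j)) := fun j =>
      pd_refl P hqi (fun y hy => (hc y hy).differentiableAt (by simp))
        (fun y hy => (h3 y hy).symm) hx (bv j)
    unfold sq
    simp only [e1]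
    rw [sum_sq_S]
    rfl

/-- **ET.** -/
theorem ef_T2 (hV : IsOpen V) (h : NH P V w) : EF P (T2 w) V := by
  have hO := P.isOpen_Om.inter hV
  have hsm1 : ∀ j : Fin d, ContDiffOn ℝ ∞ (pd (bv j) w) (P.Om ∩ V) := fun j x hx =>
    (contDiffAt_pd ((h.sm x hx).contDiffAt (hO.mem_nhds hx))).contDiffWithinAt
  refine ⟨fun j x hx => ?_, fun j x hx => ?_, fun q hqV i hqc hA => ?_⟩
  · exact (contDiffAt_pd ((hsm1 _ x hx).contDiffAt (hO.mem_nhds hx))).contDiffWithinAt
  · exact lap_pd hO (hsm1 _) (fun y hy => lap_pd hO h.sm h.harm hy _) hx _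
  · obtain ⟨R, hR, hRV, hqi, w', h1, h2, h3⟩ := local_ext P hV h hqV hqc hA
    have hc : ∀ x ∈ ball q R, ContDiffAt ℝ ∞ w' x := fun x hx =>
      (h1 x hx).contDiffAt (isOpen_ball.mem_nhds hx)
    refine ⟨R, hR, T2 w', fun j x hx => (contDiffAt_pd (contDiffAt_pd (hc x hx))).contDiffWithinAt,
      fun j x hx => ?_, fun x hx => ?_⟩
    · apply pd_congr
      filter_upwards [(h2 x hx).eventually_nhds] with y hy
      exact pd_congr hy _
    have e0 : ∀ e : E d, ∀ y ∈ ball q R, pd e w' y = pd (S P i e) w' (P.refl i y) := fun e y hy =>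
      pd_refl P hqi (fun y hy => (hc y hy).differentiableAt (by simp))
        (fun y hy => (h3 y hy).symm) hy e
    have e1 : ∀ jk : Fin d × Fin d, T2 w' jk x =
        (fderiv ℝ (fderiv ℝ w') (P.refl i x) (S P i (bv jk.2))) (S P i (bv jk.1)) := by
      intro jk
      rw [← pd_pd (hc _ (refl_mem_ball P hqi hx))]
      exact pd_refl P hqi (fun y hy => (contDiffAt_pd (hc y hy)).differentiableAt (by simp))
        (fun y hy => e0 _ y hy) hx (bv jk.2)
    have e2 : ∀ jk : Fin d × Fin d, T2 w' jk (P.refl i x) =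
        (fderiv ℝ (fderiv ℝ w') (P.refl i x) (bv jk.2)) (bv jk.1) := by
      intro jk
      rw [← pd_pd (hc _ (refl_mem_ball P hqi hx))]
      rfl
    unfold sq
    simp only [e1, e2]
    rw [Fintype.sum_prod_type, Fintype.sum_prod_type]
    symm
    set D := fderiv ℝ (fderiv ℝ w') (P.refl i x)
    calc ∑ j, ∑ k, ((D (S P i (bv k))) (S P i (bv j))) ^ 2
        = ∑ j, ∑ k, ((D (bv k)) (S P i (bv j))) ^ 2 := by
          apply Finset.sum_congr rfl
          intro j _
          exact sum_sq_S P i ((ContinuousLinearMap.apply ℝ ℝ (S P i (bv j))).comp D)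
      _ = ∑ k, ∑ j, ((D (bv k)) (S P i (bv j))) ^ 2 := Finset.sum_comm
      _ = ∑ k, ∑ j, ((D (bv k)) (bv j)) ^ 2 := by
          apply Finset.sum_congr rfl
          intro k _
          exact sum_sq_S P i (D (bv k))
      _ = ∑ j, ∑ k, ((D (bv k)) (bv j)) ^ 2 := Finset.sum_comm

end

end

end Pool.Agent.Lib_helper13.Robin.ET
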