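import Pool.Agent.Lib_helper13.Robin.Basic

/-!
# Robin project, block LG: the property 𝒫 is local
-/

namespace Pool.Agent.Lib_helper13.Robin.LGb

open MeasureTheory Set Metric Filter Topology
open scoped RealInnerProductSpace ContDiff Manifold
open Pool.Agent.Lib_helper13.Robin

noncomputable section

variable {d m : ℕ} (P : PD d m) {ι : Type} [Fintype ι] {T : ι → E d → ℝ}

/-- splitting a test function by a partition of unity -/
theorem exists_split {V : Set (E d)} {B : E d → Set (E d)} (hB : ∀ q ∈ V, IsOpen (B q) ∧ q ∈ B q)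
    {ψ : E d → ℝ} (hψ : ContDiff ℝ 1 ψ) (hc : HasCompactSupport ψ) (hs : tsupport ψ ⊆ V) :
    ∃ (F : Finset V) (φ : V → E d → ℝ), (∀ q, ContDiff ℝ 1 (φ q)) ∧
      (∀ q, HasCompactSupport (φ q)) ∧ (∀ q : V, tsupport (φ q) ⊆ B q) ∧
      (∀ q : V, tsupport (φ q) ⊆ tsupport ψ) ∧ ψ = fun x => ∑ q ∈ F, φ q x := by
  obtain ⟨f, hf⟩ := SmoothPartitionOfUnity.exists_isSubordinate 𝓘(ℝ, E d)
    (isClosed_tsupport ψ) (fun q : V => B q) (fun q => (hB q q.2).1) (by
      intro x hx
      exact mem_iUnion.2 ⟨⟨x, hs hx⟩, (hB x (hs hx)).2⟩)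
  have hfin : {q : V | (Function.support (f q) ∩ tsupport ψ).Nonempty}.Finite :=
    f.locallyFinite.finite_nonempty_inter_compact hc
  refine ⟨hfin.toFinset, fun q x => f q x * ψ x, fun q => ?_, fun q => ?_, fun q => ?_,
    fun q => ?_, ?_⟩
  · have h1 : ContDiff ℝ ∞ (f q) := (f q).contMDiff.contDiff
    exact (h1.of_le (by exact_mod_cast le_top)).mul hψ
  · exact hc.mul_left
  · exact (tsupport_mul_subset_left).trans (hf q)
  · exact tsupport_mul_subset_right
  · ext x
    by_cases hx : x ∈ tsupport ψ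
    · rw [← Finset.sum_mul]
      have h1 := f.sum_eq_one hx
      rw [finsum_eq_sum_of_support_subset (s := hfin.toFinset)] at h1
      · rw [h1, one_mul]
      · intro q hq
        simp only [Finite.coe_toFinset, mem_setOf_eq]
        exact ⟨x, hq, hx⟩
    · have h0 : ψ x = 0 := eq_zero_of_notMem_tsupport hx
      simp only [h0, mul_zero, Finset.sum_const_zero]

theorem pp_of_disjoint {W : Set (E d)} (h : P.Om ∩ W = ∅) : PP P T W := by
  refine ⟨fun i => ?_, fun K hK _ => ?_, fun K hK _ => ?_, fun δ _ ψ h1 h2 h3 => ?_⟩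
  · rw [h]; exact contDiffOn_empty
  · have : P.Om ∩ K = ∅ := subset_eq_empty (inter_subset_inter_right _ hK) h
    rw [this]; exact integrableOn_empty
  · have : P.Om ∩ K = ∅ := subset_eq_empty (inter_subset_inter_right _ hK) h
    rw [this]; exact integrableOn_empty
  · have h4 : ∀ x ∈ P.Om, x ∉ tsupport ψ := by
      intro x hx hx2
      have : x ∈ P.Om ∩ W := ⟨hx, h3 hx2⟩
      rw [h] at this; exact this
    have e1 : ∫ x in P.Om, ⟪gG δ T x, gradient ψ x⟫ = 0 := by
      rw [← integral_zero (E d) ℝ (μ := volume.restrict P.Om)]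
      apply setIntegral_congr_fun P.measurableSet_Om
      intro x hx
      simp only [gradient_eq_zero_of_notMem_tsupport (h4 x hx), inner_zero_right]
    have e2 : ∫ x in P.Om, ψ x * eG δ T x = 0 := by
      rw [← integral_zero (E d) ℝ (μ := volume.restrict P.Om)]
      apply setIntegral_congr_fun P.measurableSet_Om
      intro x hx
      simp only [eq_zero_of_notMem_tsupport (h4 x hx), zero_mul]
    rw [e1, e2, neg_zero]

theorem pp_mono {V V' : Set (E d)} (h : PP P T V) (hV : V' ⊆ V) : PP P T V' :=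
  ⟨fun i => (h.sm i).mono (inter_subset_inter_right _ hV), fun K hK => h.int1 K (hK.trans hV),
    fun K hK => h.int2 K (hK.trans hV),
    fun δ hδ ψ h1 h2 h3 => h.eq δ hδ ψ h1 h2 (h3.trans hV)⟩

theorem gradient_finset_sum {κ : Type*} (F : Finset κ) (φ : κ → E d → ℝ)
    (h : ∀ q, ContDiff ℝ 1 (φ q)) (x : E d) :
    gradient (fun x => ∑ q ∈ F, φ q x) x = ∑ q ∈ F, gradient (φ q) x := by
  unfold gradient
  rw [← map_sum]
  congr 1
  exact fderiv_fun_sum fun q _ => ((h q).differentiable (by simp)).differentiableAt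

/-- **LG.** the property 𝒫 is local -/
theorem pp_of_local {V : Set (E d)} (hV : IsOpen V)
    (h : ∀ q ∈ V, q ∈ P.cl → ∃ r > 0, PP P T (ball q r)) : PP P T V := by
  -- all points
  have h' : ∀ q ∈ V, ∃ r > 0, ball q r ⊆ V ∧ PP P T (ball q r) := by
    intro q hq
    obtain ⟨R, hR, hRV⟩ := Metric.isOpen_iff.1 hV q hq
    by_cases hqc : q ∈ P.cl
    · obtain ⟨r, hr, hP⟩ := h q hq hqc
      exact ⟨min r R, lt_min hr hR, (ball_subset_ball (min_le_right _ _)).trans hRV,
        pp_mono P hP (ball_subset_ball (min_le_left _ _))⟩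
    · obtain ⟨r, hr, hP⟩ := Metric.isOpen_iff.1 P.isClosed_cl.isOpen_compl q hqc
      refine ⟨min r R, lt_min hr hR, (ball_subset_ball (min_le_right _ _)).trans hRV,
        pp_of_disjoint P ?_⟩
      rw [eq_empty_iff_forall_notMem]
      rintro x ⟨hx1, hx2⟩
      exact hP (ball_subset_ball (min_le_left _ _) hx2) (P.Om_sub_cl hx1)
  choose! r hr hrV hrP using h'
  have hsm : ∀ i, ContDiffOn ℝ ∞ (T i) (P.Om ∩ V) := by
    intro i x hx
    have h1 := (hrP x hx.2).sm i x ⟨hx.1, mem_ball_self (hr x hx.2)⟩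
    have h2 : P.Om ∩ ball x (r x) ∈ 𝓝 x :=
      (P.isOpen_Om.inter isOpen_ball).mem_nhds ⟨hx.1, mem_ball_self (hr x hx.2)⟩
    exact (h1.contDiffAt h2).contDiffWithinAt
  have hint : ∀ (f : E d → ℝ), (∀ q ∈ V, ∀ K ⊆ ball q (r q), IsCompact K →
      IntegrableOn f (P.Om ∩ K)) → ∀ K ⊆ V, IsCompact K → IntegrableOn f (P.Om ∩ K) := by
    intro f hf K hKV hK
    refine hK.induction_on (p := fun s => IntegrableOn f (P.Om ∩ s) volume) (by simp)
      (fun s t hst ht => ht.mono_set (inter_subset_inter_right _ hst))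
      (fun s t hs ht => by rw [inter_union_distrib_left]; exact hs.union ht) ?_
    intro x hx
    have hxr := hr x (hKV hx)
    refine ⟨closedBall x (r x / 2),
      mem_nhdsWithin_of_mem_nhds (closedBall_mem_nhds x (by linarith)), ?_⟩
    exact hf x (hKV hx) _ (closedBall_subset_ball (by linarith)) (isCompact_closedBall _ _)
  refine ⟨hsm, hint _ fun q hq => (hrP q hq).int1, hint _ fun q hq => (hrP q hq).int2, ?_⟩
  intro δ hδ ψ h1 h2 h3
  obtain ⟨F, φ, hφ1, hφ2, hφ3, hφ4, hφ5⟩ := exists_split (B := fun q => ball q (r q))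
    (fun q hq => ⟨isOpen_ball, mem_ball_self (hr q hq)⟩) h1 h2 h3
  have e1 : ∀ q : V, ∫ x in P.Om, ⟪gG δ T x, gradient (φ q) x⟫ =
      - ∫ x in P.Om, φ q x * eG δ T x := fun q =>
    (hrP q q.2).eq δ hδ (φ q) (hφ1 q) (hφ2 q) (hφ3 q)
  have e2 : ∫ x in P.Om, ⟪gG δ T x, gradient ψ x⟫ =
      ∑ q ∈ F, ∫ x in P.Om, ⟪gG δ T x, gradient (φ q) x⟫ := by
    rw [← integral_finset_sum]
    · congr 1
      ext x
      rw [hφ5, gradient_finset_sum F φ hφ1, inner_sum]
    · intro q _
      exact (hrP q q.2).integrable_lhs isOpen_ball hδ (hφ1 q) (hφ2 q) (hφ3 q)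
  have e3 : ∫ x in P.Om, ψ x * eG δ T x = ∑ q ∈ F, ∫ x in P.Om, φ q x * eG δ T x := by
    rw [← integral_finset_sum]
    · congr 1
      ext x
      rw [hφ5, Finset.sum_mul]
    · intro q _
      exact (hrP q q.2).integrable_rhs isOpen_ball hδ (hφ1 q).continuous (hφ2 q) (hφ3 q)
  rw [e2, e3, ← Finset.sum_neg_distrib]
  exact Finset.sum_congr rfl fun q _ => e1 q

end

end Pool.Agent.Lib_helper13.Robin.LGb
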