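import Pool.Agent.Lib_helper13.Robin.Geo

/-!
# Robin project: elementary facts on `sq, gsq, tg, G, gG, eG`
-/

namespace Pool.Agent.Lib_helper13.Robin

open MeasureTheory Set Metric Filter Topology
open scoped RealInnerProductSpace ContDiff

noncomputable section

variable {d m : ℕ} (P : PD d m) {ι : Type} [Fintype ι] {T : ι → E d → ℝ}

theorem sq_nonneg' (T : ι → E d → ℝ) (x : E d) : 0 ≤ sq T x :=
  Finset.sum_nonneg fun _ _ => by positivity

theorem gsq_nonneg (T : ι → E d → ℝ) (x : E d) : 0 ≤ gsq T x :=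
  Finset.sum_nonneg fun _ _ => by positivity

theorem G_sq (δ : ℝ) (T : ι → E d → ℝ) (x : E d) : G δ T x ^ 2 = δ ^ 2 + sq T x := by
  unfold G; exact Real.sq_sqrt (add_nonneg (sq_nonneg δ) (sq_nonneg' T x))

theorem le_G {δ : ℝ} (hδ : 0 < δ) (T : ι → E d → ℝ) (x : E d) : δ ≤ G δ T x := by
  unfold G
  exact Real.le_sqrt_of_sq_le (by linarith [sq_nonneg' T x])

theorem G_pos {δ : ℝ} (hδ : 0 < δ) (T : ι → E d → ℝ) (x : E d) : 0 < G δ T x :=
  hδ.trans_le (le_G hδ T x)

theorem norm_tg_sq_le (T : ι → E d → ℝ) (x : E d) : ‖tg T x‖ ^ 2 ≤ sq T x * gsq T x := by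
  have h1 : ‖tg T x‖ ≤ ∑ i, |T i x| * ‖gradient (T i) x‖ := by
    unfold tg
    refine (norm_sum_le _ _).trans (le_of_eq ?_)
    simp [norm_smul]
  have h2 := Finset.sum_mul_sq_le_sq_mul_sq Finset.univ (fun i => |T i x|)
    (fun i => ‖gradient (T i) x‖)
  simp only [sq_abs] at h2
  calc ‖tg T x‖ ^ 2 ≤ (∑ i, |T i x| * ‖gradient (T i) x‖) ^ 2 :=
        pow_le_pow_left₀ (norm_nonneg _) h1 2
    _ ≤ _ := h2

theorem norm_tg_le (T : ι → E d → ℝ) (x : E d) :
    ‖tg T x‖ ≤ Real.sqrt (sq T x) * Real.sqrt (gsq T x) := by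
  rw [← Real.sqrt_mul (sq_nonneg' T x)]
  exact Real.le_sqrt_of_sq_le (norm_tg_sq_le T x)

theorem norm_gG_sq_le {δ : ℝ} (hδ : 0 < δ) (T : ι → E d → ℝ) (x : E d) :
    ‖gG δ T x‖ ^ 2 ≤ gsq T x := by
  have hG := G_pos hδ T x
  have h1 : ‖gG δ T x‖ ^ 2 = ‖tg T x‖ ^ 2 / G δ T x ^ 2 := by
    unfold gG
    rw [norm_smul, Real.norm_eq_abs, abs_of_pos (inv_pos.2 hG), mul_pow, inv_pow]
    field_simp
  rw [h1, div_le_iff₀ (by positivity), G_sq]
  have h2 := norm_tg_sq_le T x
  have h3 := gsq_nonneg T x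
  nlinarith [mul_nonneg h3 (sq_nonneg δ)]

theorem norm_gG_le {δ : ℝ} (hδ : 0 < δ) (T : ι → E d → ℝ) (x : E d) :
    ‖gG δ T x‖ ≤ Real.sqrt (gsq T x) :=
  Real.le_sqrt_of_sq_le (norm_gG_sq_le hδ T x)

theorem eG_nonneg {δ : ℝ} (hδ : 0 < δ) (T : ι → E d → ℝ) (x : E d) : 0 ≤ eG δ T x :=
  div_nonneg (by linarith [norm_gG_sq_le hδ T x]) (G_pos hδ T x).le

theorem eG_le {δ : ℝ} (hδ : 0 < δ) (T : ι → E d → ℝ) (x : E d) : eG δ T x ≤ gsq T x / δ := by
  unfold eG
  have h1 := gsq_nonneg T x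
  calc (gsq T x - ‖gG δ T x‖ ^ 2) / G δ T x ≤ gsq T x / G δ T x := by
        have := (G_pos hδ T x).le
        gcongr
        linarith [sq_nonneg ‖gG δ T x‖]
    _ ≤ gsq T x / δ := by
        have := le_G hδ T x
        gcongr

/-! ### continuity -/

theorem continuousOn_gradient {f : E d → ℝ} {U : Set (E d)} (hU : IsOpen U)
    (hf : ContDiffOn ℝ 1 f U) : ContinuousOn (gradient f) U := by
  unfold gradient
  exact (LinearIsometryEquiv.continuous _).comp_continuousOn
    (hf.continuousOn_fderiv_of_isOpen hU (by simp))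

section cont
variable {U : Set (E d)} (hU : IsOpen U) (hT : ∀ i, ContDiffOn ℝ 1 (T i) U)
include hT

theorem continuousOn_sq : ContinuousOn (sq T) U :=
  continuousOn_finsetSum _ fun i _ => (hT i).continuousOn.pow 2

theorem continuousOn_G (δ : ℝ) : ContinuousOn (G δ T) U :=
  (continuousOn_const.add (continuousOn_sq hT)).sqrt

include hU

theorem continuousOn_gsq : ContinuousOn (gsq T) U :=
  continuousOn_finsetSum _ fun i _ => ((continuousOn_gradient hU (hT i)).norm).pow 2

theorem continuousOn_tg : ContinuousOn (tg T) U :=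
  continuousOn_finsetSum _ fun i _ => (hT i).continuousOn.smul (continuousOn_gradient hU (hT i))

theorem continuousOn_gG {δ : ℝ} (hδ : 0 < δ) : ContinuousOn (gG δ T) U :=
  ((continuousOn_G hT δ).inv₀ fun x _ => (G_pos hδ T x).ne').smul (continuousOn_tg hU hT)

theorem continuousOn_eG {δ : ℝ} (hδ : 0 < δ) : ContinuousOn (eG δ T) U :=
  ((continuousOn_gsq hU hT).sub ((continuousOn_gG hU hT hδ).norm.pow 2)).div
    (continuousOn_G hT δ) fun x _ => (G_pos hδ T x).ne'

end cont

theorem PP.sm1 {P : PD d m} {V : Set (E d)} (h : PP P T V) (i : ι) :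
    ContDiffOn ℝ 1 (T i) (P.Om ∩ V) := (h.sm i).of_le (by exact_mod_cast le_top)

/-! ### test functions -/

theorem gradient_eq_zero_of_notMem_tsupport {ψ : E d → ℝ} {x : E d} (hx : x ∉ tsupport ψ) :
    gradient ψ x = 0 := by
  unfold gradient
  have : fderiv ℝ ψ x = 0 := by
    by_contra h
    exact hx (support_fderiv_subset ℝ (Function.mem_support.2 h))
  rw [this, map_zero]

theorem eq_zero_of_notMem_tsupport {ψ : E d → ℝ} {x : E d} (hx : x ∉ tsupport ψ) : ψ x = 0 :=
  image_eq_zero_of_notMem_tsupport hx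

theorem continuous_gradient {ψ : E d → ℝ} (hψ : ContDiff ℝ 1 ψ) : Continuous (gradient ψ) := by
  unfold gradient
  exact (LinearIsometryEquiv.continuous _).comp (hψ.continuous_fderiv (by simp))

theorem exists_bound_gradient {ψ : E d → ℝ} (hψ : ContDiff ℝ 1 ψ) (hc : HasCompactSupport ψ) :
    ∃ C, 0 ≤ C ∧ ∀ x, ‖gradient ψ x‖ ≤ C := by
  have h1 : HasCompactSupport (gradient ψ) := by
    apply HasCompactSupport.intro hc
    intro x hx
    exact gradient_eq_zero_of_notMem_tsupport hx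
  obtain ⟨C, hC⟩ := h1.exists_bound_of_continuous (continuous_gradient hψ)
  exact ⟨max C 0, le_max_right _ _, fun x => (hC x).trans (le_max_left _ _)⟩

theorem exists_bound_test {ψ : E d → ℝ} (hψ : Continuous ψ) (hc : HasCompactSupport ψ) :
    ∃ C, 0 ≤ C ∧ ∀ x, |ψ x| ≤ C := by
  obtain ⟨C, hC⟩ := hc.exists_bound_of_continuous hψ
  exact ⟨max C 0, le_max_right _ _, fun x => (hC x).trans (le_max_left _ _)⟩

/-- a function that vanishes off `K` is integrable on `Om` if it is integrable on `Om ∩ K` -/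
theorem integrableOn_of_zero_off {F : Type*} [NormedAddCommGroup F] {f : E d → F} {K : Set (E d)}
    (hK : MeasurableSet K) (h0 : ∀ x ∈ P.Om, x ∉ K → f x = 0) (h : IntegrableOn f (P.Om ∩ K)) :
    IntegrableOn f P.Om := by
  have h1 : IntegrableOn f (P.Om \ K) := by
    apply (integrableOn_zero (μ := volume)).congr_fun _ (P.measurableSet_Om.diff hK)
    intro x hx
    exact (h0 x hx.1 hx.2).symm
  have := h.union h1
  rwa [inter_union_sdiff] at this

theorem setIntegral_eq_of_zero_off {F : Type*} [NormedAddCommGroup F] [NormedSpace ℝ F]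
    {f : E d → F} {K : Set (E d)}
    (hK : MeasurableSet K) (h0 : ∀ x ∈ P.Om, x ∉ K → f x = 0) :
    ∫ x in P.Om, f x = ∫ x in P.Om ∩ K, f x := by
  apply setIntegral_eq_of_subset_of_forall_diff_eq_zero P.measurableSet_Om inter_subset_left
  intro x hx
  exact h0 x hx.1 fun h => hx.2 ⟨hx.1, h⟩

section integ0
variable {P} {V : Set (E d)} (hV : IsOpen V) (hsm : ∀ i, ContDiffOn ℝ 1 (T i) (P.Om ∩ V))
  (hint : ∀ K ⊆ V, IsCompact K → IntegrableOn (gsq T) (P.Om ∩ K))
include hV hsm hint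

theorem integrableOn_gG_of {δ : ℝ} (hδ : 0 < δ) {K : Set (E d)} (hK : IsCompact K) (hKV : K ⊆ V) :
    IntegrableOn (fun x => gG δ T x) (P.Om ∩ K) := by
  have h1 : IntegrableOn (fun x => 1 + gsq T x) (P.Om ∩ K) :=
    (integrableOn_const (C := (1 : ℝ))
      (hs := ((measure_mono inter_subset_left).trans_lt P.volume_lt_top).ne)).add (hint K hKV hK)
  refine Integrable.mono' h1 ?_ (Eventually.of_forall fun x => ?_)
  · exact ((continuousOn_gG (P.isOpen_Om.inter hV) hsm hδ).mono
      (inter_subset_inter_right _ hKV)).aestronglyMeasurable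
      (P.measurableSet_Om.inter hK.measurableSet)
  · have h2 := norm_gG_sq_le hδ T x
    nlinarith [norm_nonneg (gG δ T x), sq_nonneg (‖gG δ T x‖ - 1)]

theorem integrableOn_eG_of {δ : ℝ} (hδ : 0 < δ) {K : Set (E d)} (hK : IsCompact K) (hKV : K ⊆ V) :
    IntegrableOn (eG δ T) (P.Om ∩ K) := by
  refine Integrable.mono' ((hint K hKV hK).div_const δ) ?_ (Eventually.of_forall fun x => ?_)
  · exact ((continuousOn_eG (P.isOpen_Om.inter hV) hsm hδ).mono
      (inter_subset_inter_right _ hKV)).aestronglyMeasurable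
      (P.measurableSet_Om.inter hK.measurableSet)
  · rw [Real.norm_eq_abs, abs_of_nonneg (eG_nonneg hδ T x)]
    exact eG_le hδ T x

theorem integrable_lhs_of {δ : ℝ} (hδ : 0 < δ) {ψ : E d → ℝ} (hψ : ContDiff ℝ 1 ψ)
    (hc : HasCompactSupport ψ) (hs : tsupport ψ ⊆ V) :
    IntegrableOn (fun x => ⟪gG δ T x, gradient ψ x⟫) P.Om := by
  apply integrableOn_of_zero_off P hc.measurableSet
  · intro x _ hx
    rw [gradient_eq_zero_of_notMem_tsupport hx, inner_zero_right]
  · obtain ⟨C, hC0, hC⟩ := exists_bound_gradient hψ hc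
    have h1 := integrableOn_gG_of hV hsm hint hδ hc hs
    refine Integrable.mono' (h1.norm.mul_const C) ?_ (Eventually.of_forall fun x => ?_)
    · exact h1.aestronglyMeasurable.inner (continuous_gradient hψ).aestronglyMeasurable
    · exact (abs_real_inner_le_norm _ _).trans (by gcongr; exact hC x)

theorem integrable_rhs_of {δ : ℝ} (hδ : 0 < δ) {ψ : E d → ℝ} (hψ : Continuous ψ)
    (hc : HasCompactSupport ψ) (hs : tsupport ψ ⊆ V) :
    IntegrableOn (fun x => ψ x * eG δ T x) P.Om := by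
  apply integrableOn_of_zero_off P hc.measurableSet
  · intro x _ hx
    rw [eq_zero_of_notMem_tsupport hx, zero_mul]
  · obtain ⟨C, hC0, hC⟩ := exists_bound_test hψ hc
    have h1 := integrableOn_eG_of hV hsm hint hδ hc hs
    refine Integrable.mono' (h1.norm.const_mul C) ?_ (Eventually.of_forall fun x => ?_)
    · exact hψ.aestronglyMeasurable.mul h1.aestronglyMeasurable
    · rw [norm_mul]
      gcongr
      exact hC x

end integ0

section integ
variable {P} {V : Set (E d)} (hV : IsOpen V) (h : PP P T V)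
include hV h

/-- integrability of a continuous field bounded by `√gsq`-type quantities on compact sets -/
theorem PP.integrableOn_gG {δ : ℝ} (hδ : 0 < δ) {K : Set (E d)} (hK : IsCompact K) (hKV : K ⊆ V) :
    IntegrableOn (fun x => gG δ T x) (P.Om ∩ K) := integrableOn_gG_of hV h.sm1 h.int2 hδ hK hKV

theorem PP.integrableOn_eG {δ : ℝ} (hδ : 0 < δ) {K : Set (E d)} (hK : IsCompact K) (hKV : K ⊆ V) :
    IntegrableOn (eG δ T) (P.Om ∩ K) := integrableOn_eG_of hV h.sm1 h.int2 hδ hK hKV

theorem PP.integrable_lhs {δ : ℝ} (hδ : 0 < δ) {ψ : E d → ℝ} (hψ : ContDiff ℝ 1 ψ)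
    (hc : HasCompactSupport ψ) (hs : tsupport ψ ⊆ V) :
    IntegrableOn (fun x => ⟪gG δ T x, gradient ψ x⟫) P.Om :=
  integrable_lhs_of hV h.sm1 h.int2 hδ hψ hc hs

theorem PP.integrable_rhs {δ : ℝ} (hδ : 0 < δ) {ψ : E d → ℝ} (hψ : Continuous ψ)
    (hc : HasCompactSupport ψ) (hs : tsupport ψ ⊆ V) :
    IntegrableOn (fun x => ψ x * eG δ T x) P.Om :=
  integrable_rhs_of hV h.sm1 h.int2 hδ hψ hc hs

end integ

/-! ### calculus of `gradient`, `pd`, `lap` -/

theorem gradient_add_fun {w w' : E d → ℝ} {x : E d} (h : DifferentiableAt ℝ w x)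
    (h' : DifferentiableAt ℝ w' x) :
    gradient (fun x => w x + w' x) x = gradient w x + gradient w' x := by
  unfold gradient
  rw [fderiv_fun_add h h', map_add]

theorem gradient_const_mul_fun {w : E d → ℝ} {x : E d} (h : DifferentiableAt ℝ w x) (c : ℝ) :
    gradient (fun x => c * w x) x = c • gradient w x := by
  unfold gradient
  rw [fderiv_const_mul h]
  simp

theorem contDiffAt_pd {w : E d → ℝ} {x e : E d} (h : ContDiffAt ℝ ∞ w x) :
    ContDiffAt ℝ ∞ (pd e w) x := by
  have h1 : ContDiffAt ℝ ∞ (fderiv ℝ w) x := h.fderiv_right (by simp)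
  exact h1.clm_apply contDiffAt_const

theorem eventually_differentiableAt {w : E d → ℝ} {x : E d} (h : ContDiffAt ℝ ∞ w x) :
    ∀ᶠ y in 𝓝 x, DifferentiableAt ℝ w y := by
  have h1 : ContDiffAt ℝ 1 w x := h.of_le (by exact_mod_cast le_top)
  filter_upwards [h1.eventually (by simp)] with y hy
  exact hy.differentiableAt (by simp)

theorem lap_add_fun {w w' : E d → ℝ} {x : E d} (h : ContDiffAt ℝ ∞ w x)
    (h' : ContDiffAt ℝ ∞ w' x) : lap (fun x => w x + w' x) x = lap w x + lap w' x := by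
  unfold lap
  rw [← Finset.sum_add_distrib]
  apply Finset.sum_congr rfl
  intro j _
  have h1 : pd (bv j) (fun x => w x + w' x) =ᶠ[𝓝 x] fun y => pd (bv j) w y + pd (bv j) w' y := by
    filter_upwards [eventually_differentiableAt h, eventually_differentiableAt h'] with y hy hy'
    unfold pd
    rw [fderiv_fun_add hy hy']
    rfl
  have h2 : DifferentiableAt ℝ (pd (bv j) w) x := (contDiffAt_pd h).differentiableAt (by simp)
  have h3 : DifferentiableAt ℝ (pd (bv j) w') x := (contDiffAt_pd h').differentiableAt (by simp)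
  calc pd (bv j) (pd (bv j) fun x => w x + w' x) x
      = fderiv ℝ (fun y => pd (bv j) w y + pd (bv j) w' y) x (bv j) := by
        unfold pd at h1 ⊢; rw [h1.fderiv_eq]
    _ = _ := by rw [fderiv_fun_add h2 h3]; rfl

theorem lap_const_mul_fun {w : E d → ℝ} {x : E d} (h : ContDiffAt ℝ ∞ w x) (c : ℝ) :
    lap (fun x => c * w x) x = c * lap w x := by
  unfold lap
  rw [Finset.mul_sum]
  apply Finset.sum_congr rfl
  intro j _
  have h1 : pd (bv j) (fun x => c * w x) =ᶠ[𝓝 x] fun y => c * pd (bv j) w y := by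
    filter_upwards [eventually_differentiableAt h] with y hy
    unfold pd
    rw [fderiv_const_mul hy]
    rfl
  have h2 : DifferentiableAt ℝ (pd (bv j) w) x := (contDiffAt_pd h).differentiableAt (by simp)
  calc pd (bv j) (pd (bv j) fun x => c * w x) x
      = fderiv ℝ (fun y => c * pd (bv j) w y) x (bv j) := by
        unfold pd at h1 ⊢; rw [h1.fderiv_eq]
    _ = _ := by rw [fderiv_const_mul h2]; rfl

theorem hasFDerivAt_affine (a p x : E d) (c : ℝ) :
    HasFDerivAt (fun x => c + ⟪a, x - p⟫) (innerSL ℝ a) x := by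
  have := ((innerSL ℝ a).hasFDerivAt (x := x - p)).comp x ((hasFDerivAt_id x).sub_const p)
  rw [ContinuousLinearMap.comp_id] at this
  exact HasFDerivAt.const_add c this

theorem gradient_affine (a p x : E d) (c : ℝ) : gradient (fun x => c + ⟪a, x - p⟫) x = a := by
  unfold gradient
  rw [(hasFDerivAt_affine a p x c).fderiv]
  exact (InnerProductSpace.toDual ℝ (E d)).symm_apply_apply a

theorem pd_translate (w : E d → ℝ) (s e : E d) :
    pd e (fun x => w (x + s)) = fun x => pd e w (x + s) := by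
  ext x
  unfold pd
  rw [fderiv_comp_add_right]

theorem gradient_translate (w : E d → ℝ) (s x : E d) :
    gradient (fun x => w (x + s)) x = gradient w (x + s) := by
  unfold gradient
  rw [fderiv_comp_add_right]

theorem lap_translate (w : E d → ℝ) (s x : E d) :
    lap (fun x => w (x + s)) x = lap w (x + s) := by
  unfold lap
  apply Finset.sum_congr rfl
  intro j _
  rw [pd_translate w s (bv j), pd_translate (pd (bv j) w) s (bv j)]

/-! ### admissible test functions -/

theorem adm_gradient_zero {φ : E d → ℝ} {K : Set (E d)} (hK : IsClosed K)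
    (h : ∀ x ∈ P.Om, x ∉ K → φ x = 0) {x : E d} (hx : x ∈ P.Om) (hxK : x ∉ K) :
    gradient φ x = 0 := by
  have h1 : φ =ᶠ[𝓝 x] fun _ => 0 := by
    filter_upwards [P.isOpen_Om.mem_nhds hx, hK.isOpen_compl.mem_nhds hxK] with y hy hyK
    exact h y hy hyK
  unfold gradient
  rw [h1.fderiv_eq]
  simp

theorem Adm.mono {P : PD d m} {V V' : Set (E d)} {φ : E d → ℝ} (h : Adm P V' φ) (hV : V' ⊆ V) :
    Adm P V φ := by
  obtain ⟨K, hK, h1, h2⟩ := h.supp
  exact ⟨h.c1, h.bdd, h.l2, K, hK.trans hV, h1, h2⟩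

/-- `⟪F, ∇φ⟫` is integrable -/
theorem Adm.integrable {P : PD d m} {V : Set (E d)} {φ : E d → ℝ}
    (h : Adm P V φ) {F : E d → E d} (hF : ContinuousOn F (P.Om ∩ V))
    (hF2 : ∀ K ⊆ V, IsCompact K → IntegrableOn (fun x => ‖F x‖ ^ 2) (P.Om ∩ K)) :
    IntegrableOn (fun x => ⟪F x, gradient φ x⟫) P.Om := by
  obtain ⟨K, hK, h1, h2⟩ := h.supp
  apply integrableOn_of_zero_off P h1.measurableSet
  · intro x hx hxK
    rw [adm_gradient_zero P h1.isClosed h2 hx hxK, inner_zero_right]
  · have h3 : IntegrableOn (fun x => ‖F x‖ ^ 2 + ‖gradient φ x‖ ^ 2) (P.Om ∩ K) :=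
      (hF2 K hK h1).add (h.l2.mono_set inter_subset_left)
    refine Integrable.mono' h3 ?_ (Eventually.of_forall fun x => ?_)
    · have hm := P.measurableSet_Om.inter h1.measurableSet
      exact ((hF.mono (inter_subset_inter_right _ hK)).aestronglyMeasurable hm).inner
        (((continuousOn_gradient P.isOpen_Om h.c1).mono inter_subset_left).aestronglyMeasurable hm)
    · refine (abs_real_inner_le_norm _ _).trans ?_
      nlinarith [sq_nonneg (‖F x‖ - ‖gradient φ x‖), sq_nonneg (‖F x‖), sq_nonneg ‖gradient φ x‖]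

theorem NH.continuousOn_gradient {P : PD d m} {V : Set (E d)} {w : E d → ℝ} (hV : IsOpen V)
    (h : NH P V w) : ContinuousOn (gradient w) (P.Om ∩ V) :=
  Robin.continuousOn_gradient (P.isOpen_Om.inter hV) (h.sm.of_le (by exact_mod_cast le_top))

theorem NH.differentiableAt {P : PD d m} {V : Set (E d)} {w : E d → ℝ} (hV : IsOpen V)
    (h : NH P V w) {x : E d} (hx : x ∈ P.Om ∩ V) : DifferentiableAt ℝ w x :=
  ((h.sm x hx).contDiffAt ((P.isOpen_Om.inter hV).mem_nhds hx)).differentiableAt (by simp)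

/-! ### gradient and coordinates -/

theorem inner_gradient {f : E d → ℝ} {x e : E d} : ⟪gradient f x, e⟫ = pd e f x := by
  simp [pd, gradient, InnerProductSpace.toDual_symm_apply]

theorem norm_sq_gradient (f : E d → ℝ) (x : E d) :
    ‖gradient f x‖ ^ 2 = ∑ j, pd (bv j) f x ^ 2 := by
  rw [EuclideanSpace.norm_sq_eq]
  congr 1; ext j
  have : (gradient f x) j = ⟪gradient f x, bv j⟫ := by
    rw [EuclideanSpace.inner_single_right]; simp
  rw [this, inner_gradient, Real.norm_eq_abs, sq_abs]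

theorem gsq_unit (w : E d → ℝ) : gsq (fun _ : Unit => w) = sq (T1 w) := by
  ext x
  simp only [gsq, sq, T1, Finset.univ_unique, Finset.sum_const, Finset.card_singleton, one_smul]
  exact norm_sq_gradient w x

theorem gsq_T1 (w : E d → ℝ) : gsq (T1 w) = sq (T2 w) := by
  ext x
  simp only [gsq, sq, T1, T2, norm_sq_gradient]
  rw [Fintype.sum_prod_type]

end

end Pool.Agent.Lib_helper13.Robin
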