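import Pool.Agent.Lib_helper13.Robin.W.SU
import Pool.Agent.Lib_helper13.Robin.W.NP
import Pool.Agent.Lib_helper13.Robin.W.CA
import Pool.Agent.Lib_helper13.Robin.W.WL
import Pool.Agent.Lib_helper13.Robin.W.NL
import Pool.Agent.Lib_helper13.Robin.ET

/-!
# Robin project, block XD (cites `sup_bound`, `nh_pp`, `caccioppoli`, `weak_lim`, `NH.*`,
`nh_translate`)
-/

namespace Pool.Agent.Lib_helper13.Robin.XDb

open MeasureTheory Set Metric Filter Topology
open scoped RealInnerProductSpace ContDiff
open Pool.Agent.Lib_helper13.Robin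
open Pool.Agent.Lib_helper13.Robin.ET (pd_comm pd_congr lap_pd)

noncomputable section

variable {d m : ℕ} (P : PD d m)

theorem sq_integral_le {g : ℝ → ℝ} {h : ℝ} (hh : 0 < h) (hg : ContinuousOn g (Icc 0 h)) :
    (h⁻¹ * ∫ τ in (0 : ℝ)..h, g τ) ^ 2 ≤ h⁻¹ * ∫ τ in (0 : ℝ)..h, g τ ^ 2 := by
  have hi1 : IntervalIntegrable g volume 0 h :=
    (by rw [uIcc_of_le hh.le]; exact hg : ContinuousOn g (uIcc 0 h)).intervalIntegrable
  have hi2 : IntervalIntegrable (fun τ => g τ ^ 2) volume 0 h :=
    (by rw [uIcc_of_le hh.le]; exact hg.pow 2 :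
      ContinuousOn (fun τ => g τ ^ 2) (uIcc 0 h)).intervalIntegrable
  set c := h⁻¹ * ∫ τ in (0 : ℝ)..h, g τ with hc
  have h1 : 0 ≤ ∫ τ in (0 : ℝ)..h, (g τ ^ 2 - 2 * c * g τ + c ^ 2) := by
    apply intervalIntegral.integral_nonneg hh.le
    intro τ _
    nlinarith [sq_nonneg (g τ - c)]
  rw [intervalIntegral.integral_add (hi2.sub (hi1.const_mul _)) (by simp),
    intervalIntegral.integral_sub hi2 (hi1.const_mul _),
    intervalIntegral.integral_const_mul, intervalIntegral.integral_const] at h1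
  have h2 : ∫ τ in (0 : ℝ)..h, g τ = h * c := by
    rw [hc, ← mul_assoc, mul_inv_cancel₀ hh.ne', one_mul]
  rw [h2, smul_eq_mul, sub_zero] at h1
  have h3 : h * c ^ 2 ≤ ∫ τ in (0 : ℝ)..h, g τ ^ 2 := by nlinarith
  calc c ^ 2 = h⁻¹ * (h * c ^ 2) := by rw [← mul_assoc, inv_mul_cancel₀ hh.ne', one_mul]
    _ ≤ _ := by gcongr

/-- points of the tangential segment stay in the domain -/
theorem seg_mem {p : E d} {R : ℝ} (hC : P.Con p R) {e : E d} (he : e ∈ (P.N p)ᗮ) {h : ℝ}
    (hh : 0 ≤ h) (hhe : h * ‖e‖ ≤ R / 8) {x : E d} (hx : x ∈ P.Om ∩ ball p (5 * R / 8)) {τ : ℝ}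
    (h0 : 0 ≤ τ) (hτ : τ ≤ h) : x + τ • e ∈ P.Om ∩ ball p (3 * R / 4) := by
  have hR := hC.1
  have h1 : ‖τ • e‖ ≤ R / 8 := by
    rw [norm_smul, Real.norm_eq_abs, abs_of_nonneg h0]
    calc τ * ‖e‖ ≤ h * ‖e‖ := by gcongr
      _ ≤ R / 8 := hhe
  have h2 : x + τ • e ∈ ball p (3 * R / 4) := by
    have h3 := hx.2
    rw [mem_ball, dist_eq_norm] at h3 ⊢
    calc ‖x + τ • e - p‖ = ‖(x - p) + τ • e‖ := by congr 1; abel
      _ ≤ ‖x - p‖ + ‖τ • e‖ := norm_add_le _ _
      _ < 3 * R / 4 := by linarith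
  refine ⟨?_, h2⟩
  exact (hC.translate (ball_subset_ball (by linarith) hx.2) (Submodule.smul_mem _ τ he)
    (ball_subset_ball (by linarith) h2)).2 hx.1

theorem diff_bound {p : E d} {R : ℝ} {w : E d → ℝ} (hC : P.Con p R) (hN : NH P (ball p R) w)
    {e : E d} (he : e ∈ (P.N p)ᗮ) {h : ℝ} (hh : 0 < h) (hhe : h * ‖e‖ ≤ R / 8) :
    ∫ x in P.Om ∩ ball p (5 * R / 8), (h⁻¹ * (w (x + h • e) - w x)) ^ 2 ≤
      ∫ x in P.Om ∩ ball p (3 * R / 4), pd e w x ^ 2 := by
  have hR := hC.1
  have hB1 : MeasurableSet (P.Om ∩ ball p (5 * R / 8)) :=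
    P.measurableSet_Om.inter measurableSet_ball
  have hB2 : MeasurableSet (P.Om ∩ ball p (3 * R / 4)) :=
    P.measurableSet_Om.inter measurableSet_ball
  have hOB : IsOpen (P.Om ∩ ball p R) := P.isOpen_Om.inter isOpen_ball
  have hsub : P.Om ∩ ball p (3 * R / 4) ⊆ P.Om ∩ ball p R :=
    inter_subset_inter_right _ (ball_subset_ball (by linarith))
  have hc1 : ContDiffOn ℝ 1 w (P.Om ∩ ball p R) := hN.sm.of_le (by exact_mod_cast le_top)
  have hpc : ContinuousOn (pd e w) (P.Om ∩ ball p R) := by
    have := continuousOn_gradient hOB hc1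
    have h2 : pd e w = fun x => ⟪gradient w x, e⟫ := by ext x; rw [inner_gradient]
    rw [h2]
    exact this.inner continuousOn_const
  set F : E d → ENNReal := (P.Om ∩ ball p (3 * R / 4)).indicator
    (fun x => ENNReal.ofReal (pd e w x ^ 2)) with hF
  have hFm : Measurable F := by
    have h1 : Measurable ((P.Om ∩ ball p (3 * R / 4)).indicator (fun x => pd e w x ^ 2)) := by
      classical
      have h0 : ContinuousOn (fun x => pd e w x ^ 2) (P.Om ∩ ball p (3 * R / 4)) :=
        (hpc.pow 2).mono hsub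
      have h1 := h0.measurable_piecewise (continuousOn_const (c := (0 : ℝ))) hB2
      have h2 : (P.Om ∩ ball p (3 * R / 4)).indicator (fun x => pd e w x ^ 2) =
          (P.Om ∩ ball p (3 * R / 4)).piecewise (fun x => pd e w x ^ 2) fun _ => 0 := by
        ext x
        by_cases hx : x ∈ P.Om ∩ ball p (3 * R / 4)
        · rw [indicator_of_mem hx, piecewise_eq_of_mem _ _ _ hx]
        · rw [indicator_of_notMem hx, piecewise_eq_of_notMem _ _ _ hx]
      rw [h2]
      exact h1
    have h2 : F = fun x => ENNReal.ofReal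
        ((P.Om ∩ ball p (3 * R / 4)).indicator (fun x => pd e w x ^ 2) x) := by
      ext x
      rw [hF]
      by_cases hx : x ∈ P.Om ∩ ball p (3 * R / 4)
      · rw [indicator_of_mem hx, indicator_of_mem hx]
      · rw [indicator_of_notMem hx, indicator_of_notMem hx, ENNReal.ofReal_zero]
    rw [h2]
    exact h1.ennreal_ofReal
  -- pointwise bound
  have hpt : ∀ x ∈ P.Om ∩ ball p (5 * R / 8),
      ENNReal.ofReal ((h⁻¹ * (w (x + h • e) - w x)) ^ 2) ≤
        ENNReal.ofReal h⁻¹ * ∫⁻ τ in Ioc 0 h, F (x + τ • e) := by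
    intro x hx
    have hmem : ∀ τ ∈ Icc 0 h, x + τ • e ∈ P.Om ∩ ball p (3 * R / 4) := fun τ hτ =>
      seg_mem P hC he hh.le hhe hx hτ.1 hτ.2
    have hline : Continuous fun τ : ℝ => x + τ • e := by fun_prop
    have hgc : ContinuousOn (fun τ => pd e w (x + τ • e)) (Icc 0 h) :=
      hpc.comp hline.continuousOn fun τ hτ => hsub (hmem τ hτ)
    have hftc : ∫ τ in (0 : ℝ)..h, pd e w (x + τ • e) = w (x + h • e) - w x := by
      have h1 : ∀ τ ∈ uIcc 0 h, HasDerivAt (fun τ : ℝ => w (x + τ • e)) (pd e w (x + τ • e)) τ := by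
        intro τ hτ
        rw [uIcc_of_le hh.le] at hτ
        have h2 : DifferentiableAt ℝ w (x + τ • e) :=
          ((hN.sm _ (hsub (hmem τ hτ))).contDiffAt
            (hOB.mem_nhds (hsub (hmem τ hτ)))).differentiableAt (by simp)
        have h3 : HasDerivAt (fun τ : ℝ => x + τ • e) e τ := by
          have := ((hasDerivAt_id τ).smul_const e).const_add x
          simpa using this
        exact h2.hasFDerivAt.comp_hasDerivAt τ h3
      have h4 := intervalIntegral.integral_eq_sub_of_hasDerivAt h1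
        (by rw [← uIcc_of_le hh.le] at hgc; exact hgc.intervalIntegrable)
      simpa using h4
    have h5 := sq_integral_le hh hgc
    rw [hftc] at h5
    have h6 : ∫⁻ τ in Ioc 0 h, F (x + τ • e) =
        ENNReal.ofReal (∫ τ in (0 : ℝ)..h, pd e w (x + τ • e) ^ 2) := by
      rw [intervalIntegral.integral_of_le hh.le, ofReal_integral_eq_lintegral_ofReal]
      · apply setLIntegral_congr_fun measurableSet_Ioc
        intro τ hτ
        simp only [hF]
        rw [indicator_of_mem (hmem τ ⟨hτ.1.le, hτ.2⟩)]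
      · exact ((hgc.pow 2).integrableOn_compact isCompact_Icc).mono_set Ioc_subset_Icc_self
      · exact Eventually.of_forall fun τ => sq_nonneg _
    rw [h6, ← ENNReal.ofReal_mul (inv_nonneg.2 hh.le)]
    exact ENNReal.ofReal_le_ofReal h5
  -- integrate
  have hlin : ∫⁻ x in P.Om ∩ ball p (5 * R / 8),
      ENNReal.ofReal ((h⁻¹ * (w (x + h • e) - w x)) ^ 2) ≤ ∫⁻ x, F x := by
    calc ∫⁻ x in P.Om ∩ ball p (5 * R / 8), ENNReal.ofReal ((h⁻¹ * (w (x + h • e) - w x)) ^ 2)
        ≤ ∫⁻ x in P.Om ∩ ball p (5 * R / 8),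
            ENNReal.ofReal h⁻¹ * ∫⁻ τ in Ioc 0 h, F (x + τ • e) :=
          setLIntegral_mono' hB1 hpt
      _ ≤ ∫⁻ x, ENNReal.ofReal h⁻¹ * ∫⁻ τ in Ioc 0 h, F (x + τ • e) := setLIntegral_le_lintegral _ _
      _ = ENNReal.ofReal h⁻¹ * ∫⁻ x, ∫⁻ τ in Ioc 0 h, F (x + τ • e) := by
          rw [lintegral_const_mul' _ _ ENNReal.ofReal_ne_top]
      _ = ENNReal.ofReal h⁻¹ * ∫⁻ τ in Ioc 0 h, ∫⁻ x, F (x + τ • e) := by
          rw [lintegral_lintegral_swap]
          apply Measurable.aemeasurable
          exact hFm.comp (by fun_prop)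
      _ = ENNReal.ofReal h⁻¹ * ∫⁻ τ in Ioc 0 h, ∫⁻ x, F x := by
          congr 1
          apply lintegral_congr
          intro τ
          exact lintegral_add_right_eq_self F (τ • e)
      _ = ∫⁻ x, F x := by
          rw [setLIntegral_const, Real.volume_Ioc, sub_zero, mul_comm (∫⁻ x, F x), ← mul_assoc,
            ← ENNReal.ofReal_mul (inv_nonneg.2 hh.le), inv_mul_cancel₀ hh.ne',
            ENNReal.ofReal_one, one_mul]
  have hint : IntegrableOn (fun x => pd e w x ^ 2) (P.Om ∩ ball p (3 * R / 4)) := by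
    have h1 := hN.gl2 (closedBall p (3 * R / 4)) (closedBall_subset_ball (by linarith))
      (isCompact_closedBall _ _)
    have h2 := (h1.mono_set (inter_subset_inter_right P.Om
      (ball_subset_closedBall (x := p) (ε := 3 * R / 4)))).const_mul (‖e‖ ^ 2)
    refine Integrable.mono' h2 (((hpc.pow 2).mono hsub).aestronglyMeasurable hB2)
      (Eventually.of_forall fun x => ?_)
    rw [Real.norm_eq_abs, abs_of_nonneg (sq_nonneg _), ← inner_gradient]
    have := abs_real_inner_le_norm (gradient w x) e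
    rw [← sq_abs, ← mul_pow, mul_comm ‖e‖]
    exact pow_le_pow_left₀ (abs_nonneg _) this 2
  rw [integral_eq_lintegral_of_nonneg_ae (Eventually.of_forall fun x => sq_nonneg _),
    integral_eq_lintegral_of_nonneg_ae (Eventually.of_forall fun x => sq_nonneg _)]
  · apply ENNReal.toReal_mono
    · exact (hint.lintegral_lt_top).ne
    · refine hlin.trans (le_of_eq ?_)
      rw [hF, lintegral_indicator hB2]
  · exact hint.aestronglyMeasurable
  · have hc2 : ContinuousOn (fun x => (h⁻¹ * (w (x + h • e) - w x)) ^ 2)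
        (P.Om ∩ ball p (5 * R / 8)) := by
      apply ContinuousOn.pow
      apply continuousOn_const.mul
      apply ContinuousOn.sub
      · exact hN.sm.continuousOn.comp (by fun_prop) fun x hx =>
          hsub (seg_mem P hC he hh.le hhe hx hh.le le_rfl)
      · exact hN.sm.continuousOn.mono
          (inter_subset_inter_right _ (ball_subset_ball (by linarith)))
    exact hc2.aestronglyMeasurable hB1

/-- the derivative of the gradient in direction `e` is the gradient of `pd e w` -/
theorem tendsto_gradient_diff {w : E d → ℝ} {x e : E d} (h : ContDiffAt ℝ ∞ w x)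
    {t : ℕ → ℝ} (ht : Tendsto t atTop (𝓝[≠] 0)) :
    Tendsto (fun n => (t n)⁻¹ • (gradient w (x + t n • e) - gradient w x)) atTop
      (𝓝 (gradient (pd e w) x)) := by
  have hg : ∀ (f : E d → ℝ) (y : E d), gradient f y = ∑ j, pd (bv j) f y • bv j := by
    intro f y
    have := (EuclideanSpace.basisFun (Fin d) ℝ).sum_repr' (gradient f y)
    rw [← this]
    apply Finset.sum_congr rfl
    intro j _
    rw [EuclideanSpace.basisFun_apply, real_inner_comm, inner_gradient]
  have h1 : ∀ n, (t n)⁻¹ • (gradient w (x + t n • e) - gradient w x) =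
      ∑ j, ((t n)⁻¹ • (pd (bv j) w (x + t n • e) - pd (bv j) w x)) • (bv j : E d) := by
    intro n
    rw [hg, hg, ← Finset.sum_sub_distrib, Finset.smul_sum]
    apply Finset.sum_congr rfl
    intro j _
    rw [← sub_smul, smul_smul, smul_eq_mul]
  simp only [h1]
  rw [hg]
  apply tendsto_finset_sum
  intro j _
  apply Tendsto.smul_const
  have h2 : DifferentiableAt ℝ (pd (bv j) w) x := (contDiffAt_pd h).differentiableAt (by simp)
  have h3 := (hasDerivAt_iff_tendsto_slope_zero.1 (h2.hasFDerivAt.hasLineDerivAt e)).comp ht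
  have h4 : (fderiv ℝ (pd (bv j) w) x) e = pd (bv j) (pd e w) x := by
    change pd e (pd (bv j) w) x = _
    exact pd_comm h _ _
  rw [h4] at h3
  simpa [Function.comp_def] using h3

/-- **XD.** boundedness and tangential derivatives -/
theorem nh_deriv {p : E d} {R : ℝ} {w : E d → ℝ} (hC : P.Con p R) (hr : P.rk p ≤ 2)
    (h : NH P (ball p R) w) :
    ∃ r > 0, r ≤ R ∧ (∃ C, ∀ x ∈ P.Om ∩ ball p r, |w x| ≤ C) ∧
      ∀ e ∈ (P.N p)ᗮ, NH P (ball p r) (pd e w) := by
  have hR := hC.1
  have hOB : IsOpen (P.Om ∩ ball p R) := P.isOpen_Om.inter isOpen_ball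
  obtain ⟨C0, hC0, hsup⟩ := sup_bound P hC hr
  refine ⟨R / 32, by linarith, by linarith, ?_, ?_⟩
  · refine ⟨Real.sqrt (C0 * ∫ y in P.Om ∩ ball p (R / 2), w y ^ 2), fun x hx => ?_⟩
    exact Real.abs_le_sqrt (hsup w (nh_pp P isOpen_ball h) x hx)
  intro e he
  have hca : ∀ x ∈ P.Om ∩ ball p R, ContDiffAt ℝ ∞ w x := fun x hx =>
    (h.sm x hx).contDiffAt (hOB.mem_nhds hx)
  -- steps
  set t : ℕ → ℝ := fun n => R / (8 * (‖e‖ + 1) * (n + 1)) with ht
  have htpos : ∀ n, 0 < t n := fun n => by
    rw [ht]; positivity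
  have hte : ∀ n, t n * ‖e‖ ≤ R / 8 := by
    intro n
    have h1 : t n ≤ R / (8 * (‖e‖ + 1)) := by
      rw [ht]
      apply div_le_div_of_nonneg_left hR.le (by positivity)
      have : (0 : ℝ) ≤ n := Nat.cast_nonneg n
      nlinarith [norm_nonneg e]
    calc t n * ‖e‖ ≤ R / (8 * (‖e‖ + 1)) * ‖e‖ := by gcongr
      _ = R / 8 * (‖e‖ / (‖e‖ + 1)) := by field_simp
      _ ≤ R / 8 * 1 := by
          gcongr
          rw [div_le_one (by positivity)]
          linarith
      _ = R / 8 := mul_one _
  have htlim : Tendsto t atTop (𝓝[≠] 0) := by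
    rw [tendsto_nhdsWithin_iff]
    refine ⟨?_, Eventually.of_forall fun n => (htpos n).ne'⟩
    have h1 : Tendsto (fun n : ℕ => R / (8 * (‖e‖ + 1)) * (1 / ((n : ℝ) + 1))) atTop (𝓝 0) := by
      have := (tendsto_one_div_add_atTop_nhds_zero_nat (𝕜 := ℝ)).const_mul (R / (8 * (‖e‖ + 1)))
      simpa using this
    refine h1.congr fun n => ?_
    rw [ht]
    have : (0 : ℝ) < (n : ℝ) + 1 := by positivity
    field_simp
  set D : ℕ → E d → ℝ := fun n x => (t n)⁻¹ * (w (x + t n • e) + (-1) * w x) with hD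
  have hDN : ∀ n, NH P (ball p (3 * R / 4)) (D n) := by
    intro n
    have hs : t n • e ∈ (P.N p)ᗮ := Submodule.smul_mem _ _ he
    have hns : ‖t n • e‖ ≤ R / 8 := by
      rw [norm_smul, Real.norm_eq_abs, abs_of_pos (htpos n)]; exact hte n
    have h1 := nh_translate P hC h hs (by linarith)
    have h2 : NH P (ball p (3 * R / 4)) (fun x => w (x + t n • e)) :=
      h1.mono (ball_subset_ball (by linarith))
    have h3 : NH P (ball p (3 * R / 4)) (fun x => (-1) * w x) :=
      (h.mono (ball_subset_ball (by linarith))).const_mul isOpen_ball (-1)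
    exact (h2.add isOpen_ball h3).const_mul isOpen_ball _
  -- gradients
  have hsh : ∀ n, ∀ x ∈ P.Om ∩ ball p (5 * R / 8), x + t n • e ∈ P.Om ∩ ball p R := fun n x hx =>
    ⟨(seg_mem P hC he (htpos n).le (hte n) hx (htpos n).le le_rfl).1,
      ball_subset_ball (by linarith) (seg_mem P hC he (htpos n).le (hte n) hx (htpos n).le le_rfl).2⟩
  have hgD : ∀ n, ∀ x ∈ P.Om ∩ ball p (5 * R / 8), gradient (D n) x =
      (t n)⁻¹ • (gradient w (x + t n • e) - gradient w x) := by
    intro n x hx
    have hx' : x ∈ P.Om ∩ ball p R := ⟨hx.1, ball_subset_ball (by linarith) hx.2⟩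
    have d1 : DifferentiableAt ℝ w x := (hca x hx').differentiableAt (by simp)
    have d2 : DifferentiableAt ℝ (fun x => w (x + t n • e)) x := by
      have := (hca _ (hsh n x hx)).differentiableAt (by simp : (∞ : WithTop ℕ∞) ≠ 0)
      exact (differentiableAt_comp_add_right (t n • e)).2 this
    rw [hD]
    simp only
    have d3 : DifferentiableAt ℝ (fun x => (-1) * w x) x := d1.const_mul (-1)
    have d4 : DifferentiableAt ℝ (fun x => w (x + t n • e) + (-1) * w x) x := d2.add d3
    rw [gradient_const_mul_fun d4, gradient_add_fun d2 d3, gradient_const_mul_fun d1,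
      gradient_translate]
    congr 1
    rw [neg_smul, one_smul, ← sub_eq_add_neg]
  -- the cutoff
  let ψ : ContDiffBump p := ⟨R / 2, 9 * R / 16, by linarith, by linarith⟩
  have hψs : tsupport ψ ⊆ ball p (5 * R / 8) := by
    rw [ψ.tsupport_eq]
    exact closedBall_subset_ball (by change 9 * R / 16 < 5 * R / 8; linarith)
  have hψ1 : ContDiff ℝ 1 (ψ : E d → ℝ) := ψ.contDiff
  obtain ⟨Cψ, hCψ0, hCψ⟩ := exists_bound_gradient hψ1 ψ.hasCompactSupport
  set M := ∫ x in P.Om ∩ ball p (3 * R / 4), pd e w x ^ 2 with hM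
  have hB0 : MeasurableSet (P.Om ∩ closedBall p (R / 2)) :=
    P.measurableSet_Om.inter measurableSet_closedBall
  have hDi : ∀ n, IntegrableOn (fun x => ‖gradient (D n) x‖ ^ 2) (P.Om ∩ closedBall p (R / 2)) :=
    fun n => (hDN n).gl2 _ (closedBall_subset_ball (by linarith)) (isCompact_closedBall _ _)
  have hcac : ∀ n, ∫ x in P.Om ∩ closedBall p (R / 2), ‖gradient (D n) x‖ ^ 2 ≤
      4 * (Cψ ^ 2 * M) := by
    intro n
    have hPP := nh_pp P isOpen_ball (hDN n)
    have h1 := caccioppoli P isOpen_ball hPP hψ1 ψ.hasCompactSupport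
      (hψs.trans (ball_subset_ball (by linarith)))
    simp only [gsq, sq, Finset.univ_unique, Finset.sum_const, Finset.card_singleton, one_smul]
      at h1
    have hi1 : IntegrableOn (fun x => ψ x ^ 2 * ‖gradient (D n) x‖ ^ 2) P.Om := by
      apply integrableOn_of_zero_off P (K := closedBall p (9 * R / 16)) measurableSet_closedBall
      · intro x _ hx
        have : x ∉ tsupport ψ := by rw [ψ.tsupport_eq]; exact hx
        rw [eq_zero_of_notMem_tsupport this]; simp
      · have h2 := (hDN n).gl2 (closedBall p (9 * R / 16)) (closedBall_subset_ball (by linarith))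
          (isCompact_closedBall _ _)
        refine Integrable.mono' h2 ?_ (Eventually.of_forall fun x => ?_)
        · exact (ψ.continuous.pow 2).aestronglyMeasurable.mul h2.aestronglyMeasurable
        · rw [norm_mul, Real.norm_eq_abs, Real.norm_eq_abs, abs_of_nonneg (sq_nonneg (ψ x)),
            abs_of_nonneg (sq_nonneg ‖gradient (D n) x‖)]
          have : ψ x ^ 2 ≤ 1 := pow_le_one₀ ψ.nonneg ψ.le_one
          nlinarith [sq_nonneg ‖gradient (D n) x‖]
    calc ∫ x in P.Om ∩ closedBall p (R / 2), ‖gradient (D n) x‖ ^ 2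
        = ∫ x in P.Om ∩ closedBall p (R / 2), ψ x ^ 2 * ‖gradient (D n) x‖ ^ 2 := by
          apply setIntegral_congr_fun hB0
          intro x hx
          have : ψ x = 1 := ψ.one_of_mem_closedBall hx.2
          simp only [this, one_pow, one_mul]
      _ ≤ ∫ x in P.Om, ψ x ^ 2 * ‖gradient (D n) x‖ ^ 2 :=
          setIntegral_mono_set hi1 (Eventually.of_forall fun x => by positivity)
            (Eventually.of_forall fun x hx => hx.1)
      _ ≤ 4 * ∫ x in P.Om, ‖gradient ψ x‖ ^ 2 * D n x ^ 2 := h1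
      _ ≤ 4 * (Cψ ^ 2 * M) := by
          gcongr
          have hi3 : IntegrableOn (fun x => D n x ^ 2) (P.Om ∩ ball p (5 * R / 8)) :=
            ((hDN n).l2 (closedBall p (5 * R / 8)) (closedBall_subset_ball (by linarith))
              (isCompact_closedBall _ _)).mono_set
              (inter_subset_inter_right _ ball_subset_closedBall)
          calc ∫ x in P.Om, ‖gradient ψ x‖ ^ 2 * D n x ^ 2
              = ∫ x in P.Om ∩ ball p (5 * R / 8), ‖gradient ψ x‖ ^ 2 * D n x ^ 2 := by
                apply setIntegral_eq_of_zero_off P measurableSet_ball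
                intro x _ hx
                have : x ∉ tsupport ψ := fun h => hx (hψs h)
                rw [gradient_eq_zero_of_notMem_tsupport this]; simp
            _ ≤ ∫ x in P.Om ∩ ball p (5 * R / 8), Cψ ^ 2 * D n x ^ 2 := by
                apply integral_mono_of_nonneg (Eventually.of_forall fun x => by positivity)
                  (hi3.const_mul _) (Eventually.of_forall fun x => ?_)
                have := hCψ x
                simp only
                gcongr
            _ = Cψ ^ 2 * ∫ x in P.Om ∩ ball p (5 * R / 8), D n x ^ 2 := integral_const_mul _ _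
            _ ≤ Cψ ^ 2 * M := by
                gcongr
                have h4 := diff_bound P hC h he (htpos n) (hte n)
                refine le_trans (le_of_eq ?_) h4
                apply integral_congr_ae
                refine Eventually.of_forall fun x => ?_
                simp only [hD]
                ring
  -- weak limits
  haveI : IsFiniteMeasure (volume.restrict (P.Om ∩ closedBall p (R / 2))) :=
    ⟨by rw [Measure.restrict_apply_univ]
        exact (measure_mono inter_subset_left).trans_lt P.volume_lt_top⟩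
  have hmeasD : ∀ n, AEStronglyMeasurable (gradient (D n))
      (volume.restrict (P.Om ∩ closedBall p (R / 2))) := by
    intro n
    have h1 : ContDiffOn ℝ 1 (D n) (P.Om ∩ ball p (3 * R / 4)) :=
      (hDN n).sm.of_le (by exact_mod_cast le_top)
    exact ((continuousOn_gradient (P.isOpen_Om.inter isOpen_ball) h1).mono
      (inter_subset_inter_right _ (closedBall_subset_ball (by linarith)))).aestronglyMeasurable hB0
  have hlim : ∀ᵐ x ∂(volume.restrict (P.Om ∩ closedBall p (R / 2))),
      Tendsto (fun n => gradient (D n) x) atTop (𝓝 (gradient (pd e w) x)) := by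
    filter_upwards [self_mem_ae_restrict hB0] with x hx
    have hx1 : x ∈ P.Om ∩ ball p (5 * R / 8) :=
      ⟨hx.1, closedBall_subset_ball (by linarith) hx.2⟩
    have hx2 : x ∈ P.Om ∩ ball p R := ⟨hx.1, closedBall_subset_ball (by linarith) hx.2⟩
    refine (tendsto_gradient_diff (e := e) (hca x hx2) htlim).congr fun n => ?_
    rw [hgD n x hx1]
  have hwl : ∀ g : E d → E d,
      AEStronglyMeasurable g (volume.restrict (P.Om ∩ closedBall p (R / 2))) →
      IntegrableOn (fun x => ‖g x‖ ^ 2) (P.Om ∩ closedBall p (R / 2)) →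
      IntegrableOn (fun x => ‖gradient (pd e w) x‖ ^ 2) (P.Om ∩ closedBall p (R / 2)) ∧
      Tendsto (fun n => ∫ x in P.Om ∩ closedBall p (R / 2), ⟪gradient (D n) x, g x⟫) atTop
        (𝓝 (∫ x in P.Om ∩ closedBall p (R / 2), ⟪gradient (pd e w) x, g x⟫)) := fun g hg hg2 =>
    weak_lim (fun n => gradient (D n)) (gradient (pd e w)) g (4 * (Cψ ^ 2 * M)) hmeasD hDi hcac
      hg hg2 hlim
  have hsubr : ball p (R / 32) ⊆ closedBall p (R / 2) :=
    (ball_subset_ball (by linarith)).trans ball_subset_closedBall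
  have hsubR : P.Om ∩ ball p (R / 32) ⊆ P.Om ∩ ball p R :=
    inter_subset_inter_right _ (ball_subset_ball (by linarith))
  refine ⟨fun x hx => (contDiffAt_pd (hca x (hsubR hx))).contDiffWithinAt, fun x hx => ?_,
    fun K hK hKc => ?_, fun K hK hKc => ?_, fun φ hφ => ?_⟩
  · exact lap_pd hOB h.sm h.harm (hsubR hx) e
  · have h1 := (h.gl2 K (hK.trans (ball_subset_ball (by linarith))) hKc).const_mul (‖e‖ ^ 2)
    have hm : AEStronglyMeasurable (fun x => pd e w x ^ 2) (volume.restrict (P.Om ∩ K)) := by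
      have h2 : ContinuousOn (pd e w) (P.Om ∩ ball p R) := fun x hx =>
        (contDiffAt_pd (hca x hx)).continuousAt.continuousWithinAt
      exact ((h2.pow 2).mono (inter_subset_inter_right _
        (hK.trans (ball_subset_ball (by linarith))))).aestronglyMeasurable
        (P.measurableSet_Om.inter hKc.measurableSet)
    refine Integrable.mono' h1 hm (Eventually.of_forall fun x => ?_)
    rw [Real.norm_eq_abs, abs_of_nonneg (sq_nonneg _), ← inner_gradient]
    have := abs_real_inner_le_norm (gradient w x) e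
    rw [← sq_abs, ← mul_pow, mul_comm ‖e‖]
    exact pow_le_pow_left₀ (abs_nonneg _) this 2
  · have h1 := (hwl (fun _ => 0) aestronglyMeasurable_const (by simp)).1
    exact h1.mono_set (inter_subset_inter_right _ (hK.trans hsubr))
  · obtain ⟨K, hKV, hKc, h0⟩ := hφ.supp
    have hz : ∀ x ∈ P.Om, x ∉ closedBall p (R / 2) → gradient φ x = 0 := fun x hx hxB =>
      adm_gradient_zero P hKc.isClosed h0 hx fun hxK => hxB (hsubr (hKV hxK))
    have h1 := (hwl (gradient φ) (((continuousOn_gradient P.isOpen_Om hφ.c1).mono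
      inter_subset_left).aestronglyMeasurable hB0) (hφ.l2.mono_set inter_subset_left)).2
    have h2 : ∀ n, ∫ x in P.Om ∩ closedBall p (R / 2), ⟪gradient (D n) x, gradient φ x⟫ = 0 := by
      intro n
      rw [← (hDN n).weak φ (hφ.mono (ball_subset_ball (by linarith)))]
      symm
      apply setIntegral_eq_of_zero_off P measurableSet_closedBall
      intro x hx hxB
      rw [hz x hx hxB, inner_zero_right]
    simp only [h2] at h1
    have h3 := tendsto_nhds_unique tendsto_const_nhds h1
    rw [setIntegral_eq_of_zero_off P (K := closedBall p (R / 2)) measurableSet_closedBall]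
    · exact h3.symm
    · intro x hx hxB
      rw [hz x hx hxB, inner_zero_right]

end

end Pool.Agent.Lib_helper13.Robin.XDb
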