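import Pool.Agent.Lib_helper13.Robin.W.BA
import Pool.Agent.Lib_helper13.Robin.W.CA
import Pool.Agent.Lib_helper13.Robin.W.CO
import Pool.Agent.Lib_helper13.Robin.W.CU
import Pool.Agent.Lib_helper13.Robin.W.DI
import Pool.Agent.Lib_helper13.Robin.W.ED
import Pool.Agent.Lib_helper13.Robin.W.EN
import Pool.Agent.Lib_helper13.Robin.W.ET
import Pool.Agent.Lib_helper13.Robin.W.FL
import Pool.Agent.Lib_helper13.Robin.W.IE
import Pool.Agent.Lib_helper13.Robin.W.LA
import Pool.Agent.Lib_helper13.Robin.W.LB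
import Pool.Agent.Lib_helper13.Robin.W.LG
import Pool.Agent.Lib_helper13.Robin.W.LI
import Pool.Agent.Lib_helper13.Robin.W.MF
import Pool.Agent.Lib_helper13.Robin.W.MK
import Pool.Agent.Lib_helper13.Robin.W.MS
import Pool.Agent.Lib_helper13.Robin.W.MV
import Pool.Agent.Lib_helper13.Robin.W.NL
import Pool.Agent.Lib_helper13.Robin.W.NP
import Pool.Agent.Lib_helper13.Robin.W.NV
import Pool.Agent.Lib_helper13.Robin.W.PL
import Pool.Agent.Lib_helper13.Robin.W.PO
import Pool.Agent.Lib_helper13.Robin.W.Q1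
import Pool.Agent.Lib_helper13.Robin.W.Q2
import Pool.Agent.Lib_helper13.Robin.W.Q3
import Pool.Agent.Lib_helper13.Robin.W.QL
import Pool.Agent.Lib_helper13.Robin.W.RE
import Pool.Agent.Lib_helper13.Robin.W.S0
import Pool.Agent.Lib_helper13.Robin.W.S1
import Pool.Agent.Lib_helper13.Robin.W.S2
import Pool.Agent.Lib_helper13.Robin.W.SL
import Pool.Agent.Lib_helper13.Robin.W.SU
import Pool.Agent.Lib_helper13.Robin.W.TE
import Pool.Agent.Lib_helper13.Robin.W.TR
import Pool.Agent.Lib_helper13.Robin.W.TU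
import Pool.Agent.Lib_helper13.Robin.W.WE
import Pool.Agent.Lib_helper13.Robin.W.WL
import Pool.Agent.Lib_helper13.Robin.W.WT
import Pool.Agent.Lib_helper13.Robin.W.XB
import Pool.Agent.Lib_helper13.Robin.W.XD
import Pool.Agent.Lib_helper13.Robin.W.XE
import Pool.Agent.Lib_helper13.Robin.W.XF
import Pool.Agent.Lib_helper13.Robin.W.XH
import Pool.Agent.Lib_helper13.Robin.W.XM
import Pool.Agent.Lib_helper13.Robin.W.XO
import Pool.Agent.Lib_helper13.Robin.W.XQ
import Pool.Agent.Lib_helper13.Robin.W.XS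
import Pool.Agent.Lib_helper13.Robin.W.Z1
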