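import Pool.Agent.Lib_helper13.Robin.Basic
import Pool.Agent.Lib_helper13.Robin.W.S1
import Pool.Agent.Lib_helper13.Robin.W.S2

/-!
# Robin project, block BA (cites `gg`, `Sig_lt_top`)
-/

namespace Pool.Agent.Lib_helper13.Robin.BAb

open MeasureTheory Set Metric Filter Topology
open scoped RealInnerProductSpace ContDiff
open Pool.Agent.Lib_helper13.Robin

noncomputable section

variable {d m : ℕ} (P : PD d m) {ι : Type} [Fintype ι] {T : ι → E d → ℝ}

theorem pd_congr {f g : E d → ℝ} {y : E d} (h : f =ᶠ[𝓝 y] g) (u : E d) :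
    pd u f y = pd u g y := by
  unfold pd; rw [h.fderiv_eq]

theorem pd_mul {f g : E d → ℝ} {y : E d} (hf : DifferentiableAt ℝ f y)
    (hg : DifferentiableAt ℝ g y) (u : E d) :
    pd u (fun x => f x * g x) y = pd u f y * g y + f y * pd u g y := by
  unfold pd
  rw [fderiv_fun_mul hf hg]
  simp only [ContinuousLinearMap.add_apply, ContinuousLinearMap.smul_apply, smul_eq_mul]
  ring

theorem pd_sum {κ : Type*} (s : Finset κ) {f : κ → E d → ℝ} {y : E d}
    (hf : ∀ k, DifferentiableAt ℝ (f k) y) (u : E d) :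
    pd u (fun x => ∑ k ∈ s, f k x) y = ∑ k ∈ s, pd u (f k) y := by
  unfold pd
  rw [fderiv_fun_sum fun k _ => hf k, ContinuousLinearMap.sum_apply]

section G
variable {x : E d} (hT : ∀ i, ContDiffAt ℝ ∞ (T i) x)
include hT

theorem contDiffAt_sq : ContDiffAt ℝ ∞ (sq T) x :=
  ContDiffAt.sum fun i _ => (hT i).pow 2

theorem contDiffAt_G {δ : ℝ} (hδ : 0 < δ) : ContDiffAt ℝ ∞ (G δ T) x := by
  have h1 : δ ^ 2 + sq T x ≠ 0 := by
    have := sq_nonneg' T x; positivity
  exact (contDiffAt_const.add (contDiffAt_sq hT)).sqrt h1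

theorem G_mul_pd_G {δ : ℝ} (hδ : 0 < δ) (e : E d) :
    G δ T x * pd e (G δ T) x = ∑ i, T i x * pd e (T i) x := by
  have hd : ∀ i, DifferentiableAt ℝ (T i) x := fun i => (hT i).differentiableAt (by simp)
  have hG : DifferentiableAt ℝ (G δ T) x := (contDiffAt_G hT hδ).differentiableAt (by simp)
  have e1 : pd e (fun y => G δ T y * G δ T y) x = pd e (fun y => δ ^ 2 + sq T y) x := by
    congr 1
    ext y
    rw [← pow_two, G_sq]
  have e2 : pd e (fun y => δ ^ 2 + sq T y) x = ∑ i, 2 * (T i x * pd e (T i) x) := by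
    have h1 : pd e (fun y => δ ^ 2 + sq T y) x = pd e (sq T) x := by
      unfold pd; rw [fderiv_const_add]
    have h2 : sq T = fun y => ∑ i, T i y * T i y := by
      ext y; unfold sq; simp only [pow_two]
    rw [h1, h2, pd_sum Finset.univ (f := fun i y => T i y * T i y) fun i => (hd i).mul (hd i)]
    apply Finset.sum_congr rfl
    intro i _
    rw [pd_mul (hd i) (hd i)]
    ring
  rw [pd_mul hG hG, e2, ← Finset.mul_sum] at e1
  linarith

theorem pd_G {δ : ℝ} (hδ : 0 < δ) (e : E d) :
    pd e (G δ T) x = (G δ T x)⁻¹ * ∑ i, T i x * pd e (T i) x := by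
  rw [← G_mul_pd_G hT hδ, inv_mul_cancel_left₀ (G_pos hδ T x).ne']

theorem gradient_G {δ : ℝ} (hδ : 0 < δ) : gradient (G δ T) x = gG δ T x := by
  apply ext_inner_right ℝ
  intro e
  rw [inner_gradient, pd_G hT hδ]
  unfold gG tg
  rw [inner_smul_left, sum_inner]
  simp only [conj_trivial, inner_smul_left, inner_gradient]

end G

theorem lap_G {U : Set (E d)} (hU : IsOpen U) (hT : ∀ i, ContDiffOn ℝ ∞ (T i) U)
    (hh : ∀ i, ∀ x ∈ U, lap (T i) x = 0) {δ : ℝ} (hδ : 0 < δ) {x : E d} (hx : x ∈ U) :
    lap (G δ T) x = eG δ T x := by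
  have hc : ∀ y ∈ U, ∀ i, ContDiffAt ℝ ∞ (T i) y := fun y hy i =>
    (hT i y hy).contDiffAt (hU.mem_nhds hy)
  have hd : ∀ i, DifferentiableAt ℝ (T i) x := fun i => (hc x hx i).differentiableAt (by simp)
  have hG : ContDiffAt ℝ ∞ (G δ T) x := contDiffAt_G (hc x hx) hδ
  have key : ∀ j : Fin d, pd (bv j) (G δ T) x ^ 2 + G δ T x * pd (bv j) (pd (bv j) (G δ T)) x =
      ∑ i, (pd (bv j) (T i) x ^ 2 + T i x * pd (bv j) (pd (bv j) (T i)) x) := by
    intro j
    have e1 : (fun y => G δ T y * pd (bv j) (G δ T) y) =ᶠ[𝓝 x]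
        fun y => ∑ i, T i y * pd (bv j) (T i) y := by
      filter_upwards [hU.mem_nhds hx] with y hy
      exact G_mul_pd_G (hc y hy) hδ _
    have e2 := pd_congr e1 (bv j)
    rw [pd_mul (hG.differentiableAt (by simp)) ((contDiffAt_pd hG).differentiableAt (by simp)),
      pd_sum Finset.univ (f := fun i y => T i y * pd (bv j) (T i) y) fun i =>
        (hd i).mul ((contDiffAt_pd (hc x hx i)).differentiableAt (by simp))] at e2
    rw [pow_two, e2]
    apply Finset.sum_congr rfl
    intro i _
    rw [pd_mul (hd i) ((contDiffAt_pd (hc x hx i)).differentiableAt (by simp))]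
    ring
  have e3 : ‖gG δ T x‖ ^ 2 + G δ T x * lap (G δ T) x = gsq T x := by
    rw [← gradient_G (hc x hx) hδ, norm_sq_gradient]
    unfold lap
    rw [Finset.mul_sum, ← Finset.sum_add_distrib, Finset.sum_congr rfl fun j _ => key j,
      Finset.sum_comm]
    unfold gsq
    apply Finset.sum_congr rfl
    intro i _
    rw [Finset.sum_add_distrib, ← Finset.mul_sum, norm_sq_gradient]
    have := hh i x hx
    unfold lap at this
    rw [this, mul_zero, add_zero]
  unfold eG
  rw [eq_div_iff (G_pos hδ T x).ne']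
  linarith

theorem gradient_congr {f g : E d → ℝ} {y : E d} (h : f =ᶠ[𝓝 y] g) :
    gradient f y = gradient g y := by
  unfold gradient; rw [h.fderiv_eq]

/-- local data -/
theorem local_data {V : Set (E d)} (hV : IsOpen V) (h : EF P T V) {q : E d} (hq : q ∈ V)
    (hqc : q ∈ P.cl) (hr : P.rk q ≤ 1) : ∃ R > 0, ball q R ⊆ V ∧ ∃ T' : ι → E d → ℝ,
      (∀ j, ContDiffOn ℝ ∞ (T' j) (ball q R)) ∧
      (∀ j, ∀ x ∈ P.Om ∩ ball q R, T' j x = T j x) ∧
      ∀ i, ∀ x ∈ P.Sig i, x ∈ ball q R → ∀ δ > 0, ⟪P.ν i, gradient (G δ T') x⟫ = 0 := by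
  rcases Nat.lt_or_ge 0 (P.rk q) with h1 | h1
  · obtain ⟨i, hi⟩ := P.rk_eq_one hqc (by omega)
    obtain ⟨r, hr0, T', hT1, hT2, hT3⟩ := h.ext q hq i hqc hi
    obtain ⟨R0, hR0⟩ := P.exists_con hqc
    obtain ⟨R1, hR1, hR1V⟩ := Metric.isOpen_iff.1 hV q hq
    have hR : 0 < min (min R0 R1) r := lt_min (lt_min hR0.1 hR1) hr0
    have s0 : ball q (min (min R0 R1) r) ⊆ ball q R0 :=
      ball_subset_ball ((min_le_left _ _).trans (min_le_left _ _))
    have s1 : ball q (min (min R0 R1) r) ⊆ ball q R1 :=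
      ball_subset_ball ((min_le_left _ _).trans (min_le_right _ _))
    have s2 : ball q (min (min R0 R1) r) ⊆ ball q r := ball_subset_ball (min_le_right _ _)
    refine ⟨_, hR, s1.trans hR1V, T', fun j => (hT1 j).mono s2,
      fun j x hx => hT2 j x ⟨hx.1, s2 hx.2⟩, ?_⟩
    intro i' x hxS hxB δ hδ
    have hi' : i' ∈ P.A q := hR0.A_sub (s0 hxB) hxS.2
    rw [hi, mem_singleton_iff] at hi'
    subst hi'
    have hx2 := s2 hxB
    have hc : ∀ j, ContDiffAt ℝ ∞ (T' j) x := fun j =>
      (hT1 j x hx2).contDiffAt (isOpen_ball.mem_nhds hx2)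
    have hG : DifferentiableAt ℝ (G δ T') x := (contDiffAt_G hc hδ).differentiableAt (by simp)
    -- evenness along the normal line
    have hn : HasDerivAt (fun t : ℝ => G δ T' (x + t • P.ν i'))
        (pd (P.ν i') (G δ T') x) 0 := hG.hasFDerivAt.hasLineDerivAt (P.ν i')
    have heven : ∀ᶠ t : ℝ in 𝓝 0, G δ T' (x + t • P.ν i') = G δ T' (x + (-t) • P.ν i') := by
      have hcont : Continuous fun t : ℝ => x + t • P.ν i' := by fun_prop
      have hev : ∀ᶠ t : ℝ in 𝓝 0, x + t • P.ν i' ∈ ball q r := by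
        apply hcont.continuousAt.eventually_mem
        change ball q r ∈ 𝓝 ((fun t : ℝ => x + t • P.ν i') 0)
        simp only [zero_smul, add_zero]
        exact isOpen_ball.mem_nhds hx2
      filter_upwards [hev] with t ht
      have e1 : P.refl i' (x + t • P.ν i') = x + (-t) • P.ν i' := by
        unfold PD.refl
        rw [inner_add_right, inner_smul_right, P.inner_ν_self, hxS.2, add_assoc, ← add_smul]
        congr 2
        ring
      have e2 := hT3 _ ht
      rw [e1] at e2
      unfold G
      rw [e2]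
    have hn2 : HasDerivAt (fun t : ℝ => G δ T' (x + (-t) • P.ν i'))
        (-(pd (P.ν i') (G δ T') x)) 0 := by
      have h0 : HasDerivAt (fun t : ℝ => G δ T' (x + t • P.ν i'))
        (pd (P.ν i') (G δ T') x) (-(0 : ℝ)) := by rw [neg_zero]; exact hn
      have h00 := h0.scomp (0 : ℝ) (hasDerivAt_neg (0 : ℝ))
      have h01 : ((fun t : ℝ => G δ T' (x + t • P.ν i')) ∘ Neg.neg) =
          fun t : ℝ => G δ T' (x + (-t) • P.ν i') := rfl
      rw [h01] at h00
      simpa only [neg_smul, one_smul] using h00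
    have h3 := hn2.congr_of_eventuallyEq heven
    have h4 := hn.unique h3
    rw [real_inner_comm, inner_gradient]
    linarith
  · have hO : q ∈ P.Om := (P.rk_eq_zero hqc).1 (by omega)
    obtain ⟨R, hR, hRV⟩ := Metric.isOpen_iff.1 (P.isOpen_Om.inter hV) q ⟨hO, hq⟩
    refine ⟨R, hR, fun x hx => (hRV hx).2, T, fun j => (h.sm j).mono hRV, fun _ _ _ => rfl, ?_⟩
    intro i x hxS hxB
    have h1 := (hRV hxB).1 i
    rw [hxS.2] at h1
    exact absurd h1 (lt_irrefl _)

/-- **BA.** interior points and facets -/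
theorem pp_base {V : Set (E d)} (hV : IsOpen V) (h : EF P T V) {q : E d} (hq : q ∈ V)
    (hqc : q ∈ P.cl) (hr : P.rk q ≤ 1) : ∃ r > 0, PP P T (ball q r) := by
  obtain ⟨R, hR, hRV, T', hT1, hT2, hT3⟩ := local_data P hV h hq hqc hr
  have hcl : closedBall q (R / 2) ⊆ ball q R := closedBall_subset_ball (by linarith)
  have hsub : ball q (R / 2) ⊆ ball q R := ball_subset_ball (by linarith)
  have hev : ∀ j, ∀ x ∈ P.Om ∩ ball q R, T' j =ᶠ[𝓝 x] T j := by
    intro j x hx
    filter_upwards [(P.isOpen_Om.inter isOpen_ball).mem_nhds hx] with y hy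
    exact hT2 j y hy
  have hT1' : ∀ j, ContDiffOn ℝ 1 (T' j) (ball q R) := fun j =>
    (hT1 j).of_le (by exact_mod_cast le_top)
  have hsq : ∀ x ∈ P.Om ∩ ball q R, sq T' x = sq T x := fun x hx =>
    Finset.sum_congr rfl fun j _ => by rw [hT2 j x hx]
  have hgsq : ∀ x ∈ P.Om ∩ ball q R, gsq T' x = gsq T x := fun x hx =>
    Finset.sum_congr rfl fun j _ => by rw [gradient_congr (hev j x hx)]
  have hcc : ∀ x ∈ ball q R, ∀ j, ContDiffAt ℝ ∞ (T' j) x := fun x hx j =>
    (hT1 j x hx).contDiffAt (isOpen_ball.mem_nhds hx)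
  have hsmT : ∀ i, ContDiffOn ℝ ∞ (T i) (P.Om ∩ ball q (R / 2)) :=
    fun i => (h.sm i).mono (inter_subset_inter_right _ (hsub.trans hRV))
  have hint2 : ∀ K ⊆ ball q (R / 2), IsCompact K → IntegrableOn (gsq T) (P.Om ∩ K) := by
    intro K hK hKc
    have h1 : IntegrableOn (gsq T') (closedBall q (R / 2)) :=
      ((continuousOn_gsq isOpen_ball hT1').mono hcl).integrableOn_compact
        (isCompact_closedBall _ _)
    have h2 : IntegrableOn (gsq T') (P.Om ∩ K) :=
      h1.mono_set (inter_subset_right.trans (hK.trans ball_subset_closedBall))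
    refine h2.congr_fun ?_ (P.measurableSet_Om.inter hKc.measurableSet)
    exact fun x hx => hgsq x ⟨hx.1, hsub (hK hx.2)⟩
  refine ⟨R / 2, by linarith, hsmT, ?_, hint2, ?_⟩
  · intro K hK hKc
    have h1 : IntegrableOn (sq T') (closedBall q (R / 2)) :=
      ((continuousOn_sq hT1').mono hcl).integrableOn_compact (isCompact_closedBall _ _)
    have h2 : IntegrableOn (sq T') (P.Om ∩ K) :=
      h1.mono_set (inter_subset_right.trans (hK.trans ball_subset_closedBall))
    refine h2.congr_fun ?_ (P.measurableSet_Om.inter hKc.measurableSet)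
    exact fun x hx => hsq x ⟨hx.1, hsub (hK hx.2)⟩
  · intro δ hδ ψ hψ hψc hψs
    have hs : tsupport ψ ⊆ ball q R := hψs.trans hsub
    set f : Fin d → E d → ℝ := fun j x => ψ x * pd (bv j) (G δ T') x with hf
    have hz : ∀ x, x ∉ tsupport ψ → ∀ j, f j =ᶠ[𝓝 x] fun _ => 0 := by
      intro x hx j
      filter_upwards [(isClosed_tsupport ψ).isOpen_compl.mem_nhds hx] with y hy
      simp only [hf, eq_zero_of_notMem_tsupport hy, zero_mul]
    have hfc : ∀ j, ContDiff ℝ 1 (f j) := by
      intro j
      rw [contDiff_iff_contDiffAt]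
      intro x
      by_cases hx : x ∈ tsupport ψ
      · have h1 : ContDiffAt ℝ ∞ (pd (bv j) (G δ T')) x :=
          contDiffAt_pd (contDiffAt_G (hcc x (hs hx)) hδ)
        exact hψ.contDiffAt.mul (h1.of_le (by exact_mod_cast le_top))
      · exact contDiffAt_const.congr_of_eventuallyEq (hz x hx j)
    have hfs : ∀ j, HasCompactSupport (f j) := fun j => hψc.mul_right
    have hgs : ∀ j, HasCompactSupport (gradient (f j)) := fun j =>
      HasCompactSupport.intro (hfs j) fun x hx => gradient_eq_zero_of_notMem_tsupport hx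
    have hpdi : ∀ j, IntegrableOn (fun x => pd (bv j) (f j) x) P.Om := by
      intro j
      have h1 : Integrable (fun x => ⟪gradient (f j) x, bv j⟫) :=
        ((continuous_gradient (hfc j)).inner continuous_const).integrable_of_hasCompactSupport
          (HasCompactSupport.intro (hgs j) fun x hx => by
            rw [image_eq_zero_of_notMem_tsupport hx, inner_zero_left])
      simp only [inner_gradient] at h1
      exact h1.integrableOn
    have hgg : ∀ j, ∫ x in P.Om, pd (bv j) (f j) x = ∑ i, ⟪P.ν i, bv j⟫ * P.fi i (f j) := by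
      intro j
      apply gg P (f j) (hfc j).continuous.continuousOn (hfc j).contDiffOn
      exact ((continuous_gradient (hfc j)).norm.integrable_of_hasCompactSupport
        (hgs j).norm).integrableOn
    -- boundary terms vanish
    have hbd : ∑ j, ∑ i, ⟪P.ν i, bv j⟫ * P.fi i (f j) = 0 := by
      rw [Finset.sum_comm]
      apply Finset.sum_eq_zero
      intro i _
      have e1 : ∑ j, ⟪P.ν i, bv j⟫ * P.fi i (f j) =
          ∫ x in P.Sig i, ∑ j, ⟪P.ν i, bv j⟫ * f j x ∂(μHE[d - 1]) := by
        rw [integral_finset_sum]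
        · apply Finset.sum_congr rfl
          intro j _
          rw [integral_const_mul]
          rfl
        · intro j _
          apply Integrable.const_mul
          obtain ⟨C, hC0, hC⟩ := exists_bound_test (hfc j).continuous (hfs j)
          haveI : IsFiniteMeasure ((μHE[d - 1] : Measure (E d)).restrict (P.Sig i)) :=
            ⟨by simpa using Sig_lt_top P i⟩
          exact Integrable.of_bound (hfc j).continuous.aestronglyMeasurable C
            (Eventually.of_forall hC)
      rw [e1]
      have hmS : MeasurableSet (P.Sig i) := by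
        apply IsClosed.measurableSet
        exact P.isClosed_cl.inter (isClosed_eq (by fun_prop) continuous_const)
      rw [← integral_zero (E d) ℝ (μ := (μHE[d - 1] : Measure (E d)).restrict (P.Sig i))]
      apply setIntegral_congr_fun hmS
      intro x hx
      simp only [hf]
      by_cases hxs : x ∈ tsupport ψ
      · have h1 := hT3 i x hx (hs hxs) δ hδ
        have h2 : ⟪P.ν i, gradient (G δ T') x⟫ = ∑ j, ⟪P.ν i, bv j⟫ * pd (bv j) (G δ T') x := by
          rw [← (EuclideanSpace.basisFun (Fin d) ℝ).sum_inner_mul_inner]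
          apply Finset.sum_congr rfl
          intro j _
          rw [← inner_gradient, real_inner_comm (gradient (G δ T') x)]
          simp [EuclideanSpace.basisFun_apply]
        rw [h2] at h1
        calc ∑ j, ⟪P.ν i, bv j⟫ * (ψ x * pd (bv j) (G δ T') x)
            = ψ x * ∑ j, ⟪P.ν i, bv j⟫ * pd (bv j) (G δ T') x := by
              rw [Finset.mul_sum]
              apply Finset.sum_congr rfl
              intro j _
              ring
          _ = 0 := by rw [h1, mul_zero]
      · simp only [eq_zero_of_notMem_tsupport hxs, zero_mul, mul_zero, Finset.sum_const_zero]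
    -- interior
    have hpt : ∀ x ∈ P.Om, ∑ j, pd (bv j) (f j) x =
        ⟪gG δ T x, gradient ψ x⟫ + ψ x * eG δ T x := by
      intro x hx
      by_cases hxs : x ∈ tsupport ψ
      · have hxB := hs hxs
        have hO : x ∈ P.Om ∩ ball q R := ⟨hx, hxB⟩
        have hGc : ContDiffAt ℝ ∞ (G δ T') x := contDiffAt_G (hcc x hxB) hδ
        have e1 : ∀ j, pd (bv j) (f j) x =
            pd (bv j) ψ x * pd (bv j) (G δ T') x + ψ x * pd (bv j) (pd (bv j) (G δ T')) x :=
          fun j => pd_mul ((hψ.differentiable (by simp)).differentiableAt)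
            ((contDiffAt_pd hGc).differentiableAt (by simp)) _
        have eG1 : G δ T' =ᶠ[𝓝 x] G δ T := by
          filter_upwards [(P.isOpen_Om.inter isOpen_ball).mem_nhds hO] with y hy
          unfold G
          rw [hsq y hy]
        have hcT : ∀ i, ContDiffAt ℝ ∞ (T i) x := fun i =>
          (h.sm i x ⟨hx, hRV hxB⟩).contDiffAt ((P.isOpen_Om.inter hV).mem_nhds ⟨hx, hRV hxB⟩)
        have e2 : gradient (G δ T') x = gG δ T x := by
          rw [gradient_congr eG1, gradient_G hcT hδ]
        have e3 : lap (G δ T') x = eG δ T x := by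
          rw [← lap_G (P.isOpen_Om.inter hV) h.sm h.harm hδ ⟨hx, hRV hxB⟩]
          unfold lap
          apply Finset.sum_congr rfl
          intro j _
          apply pd_congr
          filter_upwards [eG1.eventually_nhds] with y hy
          exact pd_congr hy _
        simp only [e1, Finset.sum_add_distrib]
        rw [← Finset.mul_sum]
        have e4 : ∑ j, pd (bv j) (pd (bv j) (G δ T')) x = eG δ T x := e3
        rw [e4]
        congr 1
        rw [← e2, ← (EuclideanSpace.basisFun (Fin d) ℝ).sum_inner_mul_inner]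
        apply Finset.sum_congr rfl
        intro j _
        rw [real_inner_comm (gradient ψ x)]
        simp only [EuclideanSpace.basisFun_apply, inner_gradient]
        ring
      · have e1 : ∀ j, pd (bv j) (f j) x = 0 := by
          intro j
          rw [pd_congr (hz x hxs j)]
          unfold pd; simp
        simp only [e1, Finset.sum_const_zero, gradient_eq_zero_of_notMem_tsupport hxs,
          inner_zero_right, eq_zero_of_notMem_tsupport hxs, zero_mul, add_zero]
    have hsum : ∫ x in P.Om, ∑ j, pd (bv j) (f j) x = 0 := by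
      rw [integral_finset_sum _ fun j _ => hpdi j, Finset.sum_congr rfl fun j _ => hgg j, hbd]
    rw [setIntegral_congr_fun P.measurableSet_Om hpt] at hsum
    have hsm1 : ∀ i, ContDiffOn ℝ 1 (T i) (P.Om ∩ ball q (R / 2)) := fun i =>
      (hsmT i).of_le (by exact_mod_cast le_top)
    have i2 : IntegrableOn (fun x => ψ x * eG δ T x) P.Om :=
      integrable_rhs_of isOpen_ball hsm1 hint2 hδ hψ.continuous hψc hψs
    have i1 : IntegrableOn (fun x => ⟪gG δ T x, gradient ψ x⟫) P.Om :=
      integrable_lhs_of isOpen_ball hsm1 hint2 hδ hψ hψc hψs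
    rw [integral_add i1 i2] at hsum
    linarith

end

end Pool.Agent.Lib_helper13.Robin.BAb
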