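import Mathlib

/-!
# Robin ground states on convex polyhedra (MP_88fc3a_an): common definitions

`E d` is Euclidean space.  `PD d m` is an irredundant presentation of a bounded convex
polyhedral domain all of whose boundary points have consistent normals.
-/

namespace Pool.Agent.Lib_helper13.Robin

open MeasureTheory Set Metric
open scoped RealInnerProductSpace ContDiff

noncomputable section

/-- Euclidean space of dimension `d`. -/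
abbrev E (d : ℕ) := EuclideanSpace ℝ (Fin d)

/-- `j`-th standard basis vector. -/
abbrev bv {d : ℕ} (j : Fin d) : E d := EuclideanSpace.single j (1 : ℝ)

/-- Directional derivative of `f` in direction `e`. -/
def pd {d : ℕ} (e : E d) (f : E d → ℝ) (x : E d) : ℝ := fderiv ℝ f x e

/-- Laplacian. -/
def lap {d : ℕ} (f : E d → ℝ) (x : E d) : ℝ := ∑ j, pd (bv j) (pd (bv j) f) x

/-- Weak (and positive) Robin eigenfunction of the open set `Ω`: this is the ground state. -/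
structure RGS {d : ℕ} (Ω : Set (E d)) (α lam : ℝ) (u : E d → ℝ) : Prop where
  cont : ContinuousOn u (closure Ω)
  smooth : ContDiffOn ℝ 1 u Ω
  pos : ∀ x ∈ Ω, 0 < u x
  energy : IntegrableOn (fun x => ‖gradient u x‖ ^ 2) Ω
  weak : ∀ φ : E d → ℝ, ContinuousOn φ (closure Ω) → ContDiffOn ℝ 1 φ Ω →
    IntegrableOn (fun x => ‖gradient φ x‖ ^ 2) Ω →
    (∫ x in Ω, ⟪gradient u x, gradient φ x⟫)
        + α * (∫ x in frontier Ω, u x * φ x ∂(μHE[d - 1])) = lam * ∫ x in Ω, u x * φ x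

/-- `S ⊆ F` is a circumsolid in the subspace `F`. -/
def IsCircumsolid {d : ℕ} (F : Submodule ℝ (E d)) (S : Set (E d)) : Prop :=
  ∃ c ∈ F, ∃ R : ℝ, 0 < R ∧ ∃ N : Finset (E d), (∀ n ∈ N, n ∈ F ∧ ‖n‖ = 1) ∧
    S = {y | y ∈ F ∧ ∀ n ∈ N, ⟪n, y - c⟫ < R}

/-- `Ω` is a product of circumsolids. -/
def IsProdCirc {d : ℕ} (Ω : Set (E d)) : Prop :=
  ∃ (k : ℕ) (F : Fin k → Submodule ℝ (E d)) (S : Fin k → Set (E d)),
    (∀ i j, i ≠ j → F i ⟂ F j) ∧ (⨆ i, F i = ⊤) ∧ (∀ i, IsCircumsolid (F i) (S i)) ∧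
    Ω = {x | ∀ i, (F i).starProjection x ∈ S i}

/-- Irredundant polyhedral data with consistent normals at all boundary points. -/
structure PD (d m : ℕ) where
  dim : 3 ≤ d
  ν : Fin m → E d
  b : Fin m → ℝ
  unit : ∀ i, ‖ν i‖ = 1
  bdd : Bornology.IsBounded {x : E d | ∀ i, ⟪ν i, x⟫ < b i}
  ne : {x : E d | ∀ i, ⟪ν i, x⟫ < b i}.Nonempty
  irr : ∀ i, ∃ x : E d, ⟪ν i, x⟫ = b i ∧ ∀ j, j ≠ i → ⟪ν j, x⟫ < b j
  cons : ∀ x : E d, (∀ i, ⟪ν i, x⟫ ≤ b i) →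
    ∃ γ : E d, ∀ i, ⟪ν i, x⟫ = b i → ⟪ν i, γ⟫ = -1

variable {d m : ℕ}

namespace PD

variable (P : PD d m)

/-- the open polyhedral domain -/
def Om : Set (E d) := {x | ∀ i, ⟪P.ν i, x⟫ < P.b i}

/-- its closure -/
def cl : Set (E d) := {x | ∀ i, ⟪P.ν i, x⟫ ≤ P.b i}

/-- active set `I(x)` -/
def A (x : E d) : Set (Fin m) := {i | ⟪P.ν i, x⟫ = P.b i}

/-- facet `Σ_i` -/
def Sig (i : Fin m) : Set (E d) := {x | x ∈ P.cl ∧ ⟪P.ν i, x⟫ = P.b i}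

/-- span of the active normals at `x` -/
def N (x : E d) : Submodule ℝ (E d) := Submodule.span ℝ (P.ν '' P.A x)

/-- codimension of the stratum of `x` -/
def rk (x : E d) : ℕ := Module.finrank ℝ (P.N x)

/-- `Ω` is conical about `q` in the ball of radius `r`. -/
def Con (q : E d) (r : ℝ) : Prop :=
  0 < r ∧ q ∈ P.cl ∧ ∀ i, ⟪P.ν i, q⟫ = P.b i ∨ ⟪P.ν i, q⟫ + r ≤ P.b i

/-- distance of `x` to the stratum (affine space `q + (N q)ᗮ`) of `q` -/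
def rho (q x : E d) : ℝ := ‖(P.N q).starProjection (x - q)‖

/-- reflection in the hyperplane of the facet `i` -/
def refl (i : Fin m) (x : E d) : E d := x + (2 * (P.b i - ⟪P.ν i, x⟫)) • P.ν i

/-- integral over the facet `i` -/
def fi (i : Fin m) (f : E d → ℝ) : ℝ := ∫ x in P.Sig i, f x ∂(μHE[d - 1])

/-- integral over the boundary -/
def bdI (f : E d → ℝ) : ℝ := ∫ x in frontier P.Om, f x ∂(μHE[d - 1])

/-- volume of the domain -/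
def vol : ℝ := (volume P.Om).toReal

/-- `|∂Ω| / |Ω|` -/
def mu : ℝ := P.bdI (fun _ => 1) / P.vol

end PD

/-! ## Vector fields given by finitely many scalar components -/

section fields
variable {ι : Type} [Fintype ι]

/-- `|T|^2` -/
def sq (T : ι → E d → ℝ) (x : E d) : ℝ := ∑ i, T i x ^ 2

/-- `|∇T|^2` -/
def gsq (T : ι → E d → ℝ) (x : E d) : ℝ := ∑ i, ‖gradient (T i) x‖ ^ 2

/-- `T·∇T` -/
def tg (T : ι → E d → ℝ) (x : E d) : E d := ∑ i, T i x • gradient (T i) x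

/-- `G_δ = √(δ² + |T|²)` -/
def G (δ : ℝ) (T : ι → E d → ℝ) (x : E d) : ℝ := Real.sqrt (δ ^ 2 + sq T x)

/-- `∇G_δ = (T·∇T)/G_δ` -/
def gG (δ : ℝ) (T : ι → E d → ℝ) (x : E d) : E d := (G δ T x)⁻¹ • tg T x

/-- `e_δ = (|∇T|² - |∇G_δ|²)/G_δ` (equal to `ΔG_δ` for harmonic `T`) -/
def eG (δ : ℝ) (T : ι → E d → ℝ) (x : E d) : ℝ := (gsq T x - ‖gG δ T x‖ ^ 2) / G δ T x

/-- The property `𝒫(V)`: weak identity `∫∇G_δ·∇ψ = -∫ψ e_δ` up to the boundary, for all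
test functions `ψ ∈ C¹_c(V)`. -/
structure PP (P : PD d m) (T : ι → E d → ℝ) (V : Set (E d)) : Prop where
  sm : ∀ i, ContDiffOn ℝ ∞ (T i) (P.Om ∩ V)
  int1 : ∀ K ⊆ V, IsCompact K → IntegrableOn (sq T) (P.Om ∩ K)
  int2 : ∀ K ⊆ V, IsCompact K → IntegrableOn (gsq T) (P.Om ∩ K)
  eq : ∀ δ > 0, ∀ ψ : E d → ℝ, ContDiff ℝ 1 ψ → HasCompactSupport ψ → tsupport ψ ⊆ V →
    ∫ x in P.Om, ⟪gG δ T x, gradient ψ x⟫ = - ∫ x in P.Om, ψ x * eG δ T x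

/-- Harmonic fields that are smooth up to the open facets, with `|T|²` even there. -/
structure EF (P : PD d m) (T : ι → E d → ℝ) (V : Set (E d)) : Prop where
  sm : ∀ i, ContDiffOn ℝ ∞ (T i) (P.Om ∩ V)
  harm : ∀ i, ∀ x ∈ P.Om ∩ V, lap (T i) x = 0
  ext : ∀ q ∈ V, ∀ i, q ∈ P.cl → P.A q = {i} → ∃ r > 0, ∃ T' : ι → E d → ℝ,
    (∀ j, ContDiffOn ℝ ∞ (T' j) (ball q r)) ∧
    (∀ j, ∀ x ∈ P.Om ∩ ball q r, T' j x = T j x) ∧
    (∀ x ∈ ball q r, sq T' (P.refl i x) = sq T' x)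

end fields

/-! ## Neumann-harmonic functions -/

/-- Admissible test functions. -/
structure Adm (P : PD d m) (V : Set (E d)) (φ : E d → ℝ) : Prop where
  c1 : ContDiffOn ℝ 1 φ P.Om
  bdd : ∃ M, ∀ x ∈ P.Om, |φ x| ≤ M
  l2 : IntegrableOn (fun x => ‖gradient φ x‖ ^ 2) P.Om
  supp : ∃ K ⊆ V, IsCompact K ∧ ∀ x ∈ P.Om, x ∉ K → φ x = 0

/-- `w` is harmonic in `Ω ∩ V` with homogeneous Neumann condition on `∂Ω ∩ V` (weak sense). -/
structure NH (P : PD d m) (V : Set (E d)) (w : E d → ℝ) : Prop where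
  sm : ContDiffOn ℝ ∞ w (P.Om ∩ V)
  harm : ∀ x ∈ P.Om ∩ V, lap w x = 0
  l2 : ∀ K ⊆ V, IsCompact K → IntegrableOn (fun x => w x ^ 2) (P.Om ∩ K)
  gl2 : ∀ K ⊆ V, IsCompact K → IntegrableOn (fun x => ‖gradient w x‖ ^ 2) (P.Om ∩ K)
  weak : ∀ φ, Adm P V φ → ∫ x in P.Om, ⟪gradient w x, gradient φ x⟫ = 0

/-- The limit function: `-Δv = μ`, `∂_ν v = -1` (weak sense). -/
structure LV (P : PD d m) (v : E d → ℝ) : Prop where
  sm : ContDiffOn ℝ ∞ v P.Om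
  lapv : ∀ x ∈ P.Om, lap v x = - P.mu
  l2 : IntegrableOn (fun x => v x ^ 2) P.Om
  gl2 : IntegrableOn (fun x => ‖gradient v x‖ ^ 2) P.Om
  weak : ∀ φ : E d → ℝ, ContinuousOn φ (closure P.Om) → ContDiffOn ℝ 1 φ P.Om →
    IntegrableOn (fun x => ‖gradient φ x‖ ^ 2) P.Om →
    ∫ x in P.Om, ⟪gradient v x, gradient φ x⟫ = P.mu * (∫ x in P.Om, φ x) - P.bdI φ

/-- quasi-concavity on `Ω` -/
def QC (P : PD d m) (v : E d → ℝ) : Prop :=
  ∀ x ∈ P.Om, ∀ y ∈ P.Om, ∀ t ∈ Icc (0 : ℝ) 1, min (v x) (v y) ≤ v ((1 - t) • x + t • y)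

/-- `w_p = v - γ·(x-p) + (μ/2d)|x-p|²` -/
def wp (P : PD d m) (v : E d → ℝ) (p γ x : E d) : ℝ :=
  v x - ⟪γ, x - p⟫ + P.mu / (2 * d) * ‖x - p‖ ^ 2

/-- components of the gradient -/
def T1 (w : E d → ℝ) (j : Fin d) : E d → ℝ := pd (bv j) w

/-- components of the Hessian -/
def T2 (w : E d → ℝ) (jk : Fin d × Fin d) : E d → ℝ := pd (bv jk.2) (pd (bv jk.1) w)

/-! ## Mean value kernels -/

/-- `θ(z) = (1-|z|²)₊` -/
def th (z : E d) : ℝ := max (1 - ‖z‖ ^ 2) 0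

/-- `Θ(z) = (1-|z|²)₊²/4`, so that `∇Θ(z) = -θ(z) z` -/
def Th (z : E d) : ℝ := max (1 - ‖z‖ ^ 2) 0 ^ 2 / 4

/-- `m(t) = t^{-d} ∫_Ω Q(x) θ((x-p)/t) dx` -/
def mm (P : PD d m) (Q : E d → ℝ) (p : E d) (t : ℝ) : ℝ :=
  (t ^ d)⁻¹ * ∫ x in P.Om, Q x * th (t⁻¹ • (x - p))

/-! ## Sector frames at codimension-2 points -/

/-- At `p` exactly the facets `i, j` are active, and the cross-section of `Ω` at `p` is the sector
`{ρ(cos θ e1 + sin θ e2) : 0 < θ < om}`. -/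
structure Frame (P : PD d m) (p : E d) (i j : Fin m) (e1 e2 : E d) (om : ℝ) : Prop where
  mem : p ∈ P.cl
  hA : P.A p = {i, j}
  ne : i ≠ j
  n1 : ‖e1‖ = 1
  n2 : ‖e2‖ = 1
  orth : ⟪e1, e2⟫ = 0
  om0 : 0 < om
  omπ : om < Real.pi
  νi : P.ν i = -e2
  νj : P.ν j = (-Real.sin om) • e1 + Real.cos om • e2

/-- planar polar coordinates -/
def yy (e1 e2 : E d) (ρ θ : ℝ) : E d := ρ • (Real.cos θ • e1 + Real.sin θ • e2)

end

end Pool.Agent.Lib_helper13.Robin
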