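import Pool.Agent.Lib_helper13.Robin.Main

namespace Pool.Agent.Lib_helper13.Robin

open MeasureTheory Set Metric Filter Topology
open scoped RealInnerProductSpace ContDiff

/-- Full remaining case of Q1. -/
theorem robin_final {d m : ℕ} (hd : 3 ≤ d) (ν : Fin m → E d) (b : Fin m → ℝ)
    (hν : ∀ i, ‖ν i‖ = 1)
    (hb : Bornology.IsBounded {x : E d | ∀ i, ⟪ν i, x⟫ < b i})
    (hne : {x : E d | ∀ i, ⟪ν i, x⟫ < b i}.Nonempty)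
    (hc : ∀ x : E d, (∀ i, ⟪ν i, x⟫ ≤ b i) →
      ∃ γ : E d, ∀ i, ⟪ν i, x⟫ = b i → ⟪ν i, γ⟫ = -1)
    (hnp : ¬ IsProdCirc {x : E d | ∀ i, ⟪ν i, x⟫ < b i}) :
    ∃ α0 > 0, ∀ α ∈ Ioo 0 α0, ∀ (lam : ℝ) (u : E d → ℝ),
      RGS {x : E d | ∀ i, ⟪ν i, x⟫ < b i} α lam u →
      ∃ t : ℝ, ¬ Convex ℝ {x | (∀ i, ⟪ν i, x⟫ < b i) ∧ t ≤ u x} := by
  obtain ⟨m', P, hP⟩ := exists_pd hd ν b hν hb hne hc
  rw [← hP] at hnp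
  obtain ⟨α0, h0, h⟩ := main_pd P hnp
  refine ⟨α0, h0, fun α hα lam u hu => ?_⟩
  rw [← hP] at hu
  obtain ⟨t, ht⟩ := h α hα lam u hu
  refine ⟨t, ?_⟩
  rw [hP] at ht
  exact ht

end Pool.Agent.Lib_helper13.Robin
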