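import Pool.Agent.Lib_helper13.Robin.Defs

/-!
# Robin project: elementary geometry of polyhedral data
-/

namespace Pool.Agent.Lib_helper13.Robin

open MeasureTheory Set Metric
open scoped RealInnerProductSpace ContDiff

noncomputable section

variable {d m : ℕ} (P : PD d m)

namespace PD

theorem isOpen_Om : IsOpen P.Om := by
  have : P.Om = ⋂ i, {x | ⟪P.ν i, x⟫ < P.b i} := by ext x; simp [Om]
  rw [this]
  exact isOpen_iInter_of_finite fun i => isOpen_lt (by fun_prop) continuous_const

theorem isClosed_cl : IsClosed P.cl := by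
  have : P.cl = ⋂ i, {x | ⟪P.ν i, x⟫ ≤ P.b i} := by ext x; simp [cl]
  rw [this]
  exact isClosed_iInter fun i => isClosed_le (by fun_prop) continuous_const

theorem Om_sub_cl : P.Om ⊆ P.cl := fun _ hx i => (hx i).le

theorem nonempty_Om : P.Om.Nonempty := P.ne

theorem convex_Om : Convex ℝ P.Om := by
  intro x hx y hy a b ha hb hab i
  have h1 := hx i; have h2 := hy i
  rw [inner_add_right, inner_smul_right, inner_smul_right]
  rcases ha.eq_or_lt with rfl | ha'
  · have : b = 1 := by linarith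
    subst this; simpa using h2
  · have e1 : a * ⟪P.ν i, x⟫ < a * P.b i := mul_lt_mul_of_pos_left h1 ha'
    have e2 : b * ⟪P.ν i, y⟫ ≤ b * P.b i := mul_le_mul_of_nonneg_left h2.le hb
    have : a * P.b i + b * P.b i = P.b i := by rw [← add_mul, hab, one_mul]
    linarith

theorem convex_cl : Convex ℝ P.cl := by
  intro x hx y hy a b ha hb hab i
  have h1 := hx i; have h2 := hy i
  rw [inner_add_right, inner_smul_right, inner_smul_right]
  have e1 : a * ⟪P.ν i, x⟫ ≤ a * P.b i := mul_le_mul_of_nonneg_left h1 ha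
  have e2 : b * ⟪P.ν i, y⟫ ≤ b * P.b i := mul_le_mul_of_nonneg_left h2 hb
  have : a * P.b i + b * P.b i = P.b i := by rw [← add_mul, hab, one_mul]
  linarith

/-- points of the half-open segment from `cl` to `Om` are in `Om` -/
theorem seg_mem_Om {x z : E d} (hx : x ∈ P.cl) (hz : z ∈ P.Om) {t : ℝ} (h0 : 0 < t) (h1 : t ≤ 1) :
    (1 - t) • x + t • z ∈ P.Om := by
  intro i
  have e1 := hx i; have e2 := hz i
  rw [inner_add_right, inner_smul_right, inner_smul_right]
  have e3 : (1 - t) * ⟪P.ν i, x⟫ ≤ (1 - t) * P.b i :=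
    mul_le_mul_of_nonneg_left e1 (by linarith)
  have e4 : t * ⟪P.ν i, z⟫ < t * P.b i := mul_lt_mul_of_pos_left e2 h0
  linarith

theorem closure_Om : closure P.Om = P.cl := by
  apply Subset.antisymm
  · exact closure_minimal P.Om_sub_cl P.isClosed_cl
  · intro x hx
    obtain ⟨z, hz⟩ := P.nonempty_Om
    have hc : ContinuousWithinAt (fun t : ℝ => (1 - t) • x + t • z) (Ioc 0 1) 0 := by
      apply Continuous.continuousWithinAt; fun_prop
    have h0 : (0 : ℝ) ∈ closure (Ioc (0 : ℝ) 1) := by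
      rw [closure_Ioc (by norm_num)]; simp
    have := hc.mem_closure_image h0
    simp only [sub_zero, one_smul, zero_smul, add_zero] at this
    refine closure_mono ?_ this
    rintro _ ⟨t, ht, rfl⟩
    exact P.seg_mem_Om hx hz ht.1 ht.2

theorem isBounded_Om : Bornology.IsBounded P.Om := P.bdd

theorem isCompact_cl : IsCompact P.cl := by
  rw [← P.closure_Om]; exact P.isBounded_Om.isCompact_closure

theorem frontier_Om : frontier P.Om = {x | x ∈ P.cl ∧ (P.A x).Nonempty} := by
  rw [frontier, P.closure_Om, P.isOpen_Om.interior_eq]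
  ext x
  simp only [mem_diff, mem_setOf_eq]
  constructor
  · rintro ⟨h1, h2⟩
    refine ⟨h1, ?_⟩
    by_contra h
    apply h2
    intro i
    refine lt_of_le_of_ne (h1 i) fun h3 => h ⟨i, h3⟩
  · rintro ⟨h1, i, h2⟩
    exact ⟨h1, fun h3 => absurd (h3 i) (by rw [show ⟪P.ν i, x⟫ = P.b i from h2]; exact lt_irrefl _)⟩

theorem measurableSet_Om : MeasurableSet P.Om := P.isOpen_Om.measurableSet

theorem volume_lt_top : volume P.Om < ⊤ := P.isBounded_Om.measure_lt_top

theorem vol_pos : 0 < P.vol := by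
  unfold vol
  exact ENNReal.toReal_pos (P.isOpen_Om.measure_pos _ P.nonempty_Om).ne' P.volume_lt_top.ne

instance : IsFiniteMeasure (volume.restrict P.Om) := ⟨by simpa using P.volume_lt_top⟩

theorem A_eq_empty_iff {x : E d} (hx : x ∈ P.cl) : P.A x = ∅ ↔ x ∈ P.Om := by
  constructor
  · intro h i
    refine lt_of_le_of_ne (hx i) fun h3 => ?_
    have : i ∈ P.A x := h3
    rw [h] at this; exact this
  · intro h
    ext i
    simp only [A, mem_setOf_eq, mem_empty_iff_false, iff_false]
    exact (h i).ne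

theorem exists_gamma {q : E d} (hq : q ∈ P.cl) : ∃ γ : E d, ∀ i ∈ P.A q, ⟪P.ν i, γ⟫ = -1 :=
  P.cons q hq

theorem exists_con {q : E d} (hq : q ∈ P.cl) : ∃ r, P.Con q r := by
  classical
  have h : ∀ S : Finset (Fin m), (∀ i ∈ S, ⟪P.ν i, q⟫ < P.b i) →
      ∃ r > 0, ∀ i ∈ S, ⟪P.ν i, q⟫ + r ≤ P.b i := by
    intro S
    induction S using Finset.induction_on with
    | empty => exact fun _ => ⟨1, one_pos, by simp⟩
    | insert a S ha ih =>
      intro hS
      obtain ⟨r, h0, h1⟩ := ih fun i hi => hS i (Finset.mem_insert_of_mem hi)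
      have h2 := hS a (Finset.mem_insert_self a S)
      refine ⟨min r (P.b a - ⟪P.ν a, q⟫), lt_min h0 (by linarith), fun i hi => ?_⟩
      rcases Finset.mem_insert.1 hi with rfl | hi
      · have := min_le_right r (P.b i - ⟪P.ν i, q⟫); linarith
      · have := min_le_left r (P.b a - ⟪P.ν a, q⟫); linarith [h1 i hi]
  obtain ⟨r, h0, h1⟩ := h (Finset.univ.filter fun i => i ∉ P.A q) (by
    intro i hi
    simp only [Finset.mem_filter, Finset.mem_univ, true_and] at hi
    exact lt_of_le_of_ne (hq i) hi)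
  refine ⟨r, h0, hq, fun i => ?_⟩
  by_cases hi : i ∈ P.A q
  · exact Or.inl hi
  · exact Or.inr (h1 i (by simp [hi]))

variable {P}

theorem Con.pos {q : E d} {r : ℝ} (h : P.Con q r) : 0 < r := h.1

theorem Con.mem {q : E d} {r : ℝ} (h : P.Con q r) : q ∈ P.cl := h.2.1

theorem Con.mono {q : E d} {r s : ℝ} (h : P.Con q r) (hs : 0 < s) (hsr : s ≤ r) : P.Con q s :=
  ⟨hs, h.2.1, fun i => (h.2.2 i).imp id fun h => by linarith⟩

/-- inactive constraints hold strictly in the conical ball -/
theorem Con.lt {q x : E d} {r : ℝ} (h : P.Con q r) (hx : x ∈ ball q r) {i : Fin m}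
    (hi : i ∉ P.A q) : ⟪P.ν i, x⟫ < P.b i := by
  have h1 := (h.2.2 i).resolve_left hi
  have h2 : ⟪P.ν i, x - q⟫ ≤ ‖x - q‖ := by
    calc ⟪P.ν i, x - q⟫ ≤ ‖P.ν i‖ * ‖x - q‖ := real_inner_le_norm _ _
      _ = ‖x - q‖ := by rw [P.unit, one_mul]
  rw [mem_ball, dist_eq_norm] at hx
  rw [inner_sub_right] at h2
  linarith

theorem Con.mem_Om_iff {q x : E d} {r : ℝ} (h : P.Con q r) (hx : x ∈ ball q r) :
    x ∈ P.Om ↔ ∀ i ∈ P.A q, ⟪P.ν i, x - q⟫ < 0 := by
  constructor
  · intro hO i hi
    have h1 := hO i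
    rw [inner_sub_right, show ⟪P.ν i, q⟫ = P.b i from hi]; linarith
  · intro hA i
    by_cases hi : i ∈ P.A q
    · have := hA i hi
      rw [inner_sub_right, show ⟪P.ν i, q⟫ = P.b i from hi] at this; linarith
    · exact h.lt hx hi

theorem Con.mem_cl_iff {q x : E d} {r : ℝ} (h : P.Con q r) (hx : x ∈ ball q r) :
    x ∈ P.cl ↔ ∀ i ∈ P.A q, ⟪P.ν i, x - q⟫ ≤ 0 := by
  constructor
  · intro hO i hi
    have h1 := hO i
    rw [inner_sub_right, show ⟪P.ν i, q⟫ = P.b i from hi]; linarith
  · intro hA i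
    by_cases hi : i ∈ P.A q
    · have := hA i hi
      rw [inner_sub_right, show ⟪P.ν i, q⟫ = P.b i from hi] at this; linarith
    · exact (h.lt hx hi).le

theorem Con.A_sub {q x : E d} {r : ℝ} (h : P.Con q r) (hx : x ∈ ball q r) : P.A x ⊆ P.A q := by
  intro i hi
  by_contra hn
  exact absurd (h.lt hx hn) (by rw [show ⟪P.ν i, x⟫ = P.b i from hi]; exact lt_irrefl _)

variable (P)

theorem mem_N_orth {q s : E d} : s ∈ (P.N q)ᗮ ↔ ∀ i ∈ P.A q, ⟪P.ν i, s⟫ = 0 := by
  rw [N, Submodule.mem_orthogonal]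
  constructor
  · intro h i hi
    exact h _ (Submodule.subset_span ⟨i, hi, rfl⟩)
  · intro h u hu
    induction hu using Submodule.span_induction with
    | mem x hx => obtain ⟨i, hi, rfl⟩ := hx; exact h i hi
    | zero => simp
    | add x y _ _ hx hy => rw [inner_add_left, hx, hy, add_zero]
    | smul a x _ hx => rw [inner_smul_left, hx, mul_zero]

variable {P}

theorem Con.A_shift {q s : E d} {r : ℝ} (h : P.Con q r) (hs : s ∈ (P.N q)ᗮ) (hr : ‖s‖ < r) :
    P.A (q + s) = P.A q := by
  apply Subset.antisymm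
  · exact h.A_sub (by simpa [mem_ball, dist_eq_norm] using hr)
  · intro i hi
    have := P.mem_N_orth.1 hs i hi
    change ⟪P.ν i, q + s⟫ = P.b i
    rw [inner_add_right, this, add_zero]; exact hi

theorem Con.shift {q s : E d} {r : ℝ} (h : P.Con q r) (hs : s ∈ (P.N q)ᗮ) (hr : ‖s‖ < r) :
    P.Con (q + s) (r - ‖s‖) := by
  have hmem : q + s ∈ ball q r := by simpa [mem_ball, dist_eq_norm] using hr
  refine ⟨by linarith, ?_, fun i => ?_⟩
  · rw [h.mem_cl_iff hmem]
    intro i hi
    rw [add_sub_cancel_left, P.mem_N_orth.1 hs i hi]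
  · by_cases hi : i ∈ P.A q
    · left
      have : i ∈ P.A (q + s) := by rw [h.A_shift hs hr]; exact hi
      exact this
    · right
      have h1 := (h.2.2 i).resolve_left hi
      have h2 : ⟪P.ν i, s⟫ ≤ ‖s‖ := by
        calc ⟪P.ν i, s⟫ ≤ ‖P.ν i‖ * ‖s‖ := real_inner_le_norm _ _
          _ = ‖s‖ := by rw [P.unit, one_mul]
      rw [inner_add_right]; linarith

theorem Con.N_shift {q s : E d} {r : ℝ} (h : P.Con q r) (hs : s ∈ (P.N q)ᗮ) (hr : ‖s‖ < r) :
    P.N (q + s) = P.N q := by
  unfold N; rw [h.A_shift hs hr]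

theorem Con.rk_shift {q s : E d} {r : ℝ} (h : P.Con q r) (hs : s ∈ (P.N q)ᗮ) (hr : ‖s‖ < r) :
    P.rk (q + s) = P.rk q := by
  unfold rk; rw [h.N_shift hs hr]

theorem Con.rho_shift {q s : E d} {r : ℝ} (h : P.Con q r) (hs : s ∈ (P.N q)ᗮ) (hr : ‖s‖ < r)
    (x : E d) : P.rho (q + s) x = P.rho q x := by
  unfold rho
  have h1 : (P.N q).starProjection s = 0 := by
    rw [Submodule.starProjection_apply_eq_zero_iff]; exact hs
  have h2 : ∀ (U V : Submodule ℝ (E d)), U = V → ∀ z, U.starProjection z = V.starProjection z := by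
    intro U V h z; subst h; rfl
  rw [h2 _ _ (h.N_shift hs hr), show x - (q + s) = (x - q) - s by abel, map_sub, h1, sub_zero]

/-- a conical ball is also conical, with the same cone, under homotheties about `q` -/
theorem Con.dilate {q x : E d} {r t : ℝ} (h : P.Con q r) (hx : x ∈ ball q r) (ht : 0 < t)
    (hx' : q + t • (x - q) ∈ ball q r) : q + t • (x - q) ∈ P.Om ↔ x ∈ P.Om := by
  rw [h.mem_Om_iff hx, h.mem_Om_iff hx']
  apply forall₂_congr
  intro i hi
  rw [add_sub_cancel_left, inner_smul_right]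
  constructor
  · intro h; by_contra hn; push Not at hn; exact absurd h (not_lt.2 (mul_nonneg ht.le hn))
  · intro h; exact mul_neg_of_pos_of_neg ht h

/-- tangential translations preserve `Om` inside the conical ball -/
theorem Con.translate {q x s : E d} {r : ℝ} (h : P.Con q r) (hx : x ∈ ball q r)
    (hs : s ∈ (P.N q)ᗮ) (hx' : x + s ∈ ball q r) : x + s ∈ P.Om ↔ x ∈ P.Om := by
  rw [h.mem_Om_iff hx, h.mem_Om_iff hx']
  apply forall₂_congr
  intro i hi
  rw [show x + s - q = (x - q) + s by abel, inner_add_right, P.mem_N_orth.1 hs i hi, add_zero]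

/-- the codimension drops away from the stratum -/
theorem Con.rk_lt {q x : E d} {r : ℝ} (h : P.Con q r) (hx : x ∈ ball q r)
    (hρ : P.rho q x ≠ 0) : P.rk x < P.rk q := by
  have hA := h.A_sub hx
  have hle : P.N x ≤ P.N q := Submodule.span_mono (image_mono hA)
  apply Submodule.finrank_lt_finrank_of_lt
  refine lt_of_le_of_ne hle fun heq => hρ ?_
  have h1 : x - q ∈ (P.N x)ᗮ := by
    rw [mem_N_orth]
    intro i hi
    rw [inner_sub_right, show ⟪P.ν i, x⟫ = P.b i from hi, show ⟪P.ν i, q⟫ = P.b i from hA hi,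
      sub_self]
  rw [heq] at h1
  unfold rho
  rw [(P.N q).starProjection_apply_eq_zero_iff.2 h1, norm_zero]

variable (P)

theorem ν_ne_zero (i : Fin m) : P.ν i ≠ 0 := by
  intro h
  have := P.unit i
  rw [h, norm_zero] at this
  exact zero_ne_one this

theorem inner_ν_self (i : Fin m) : ⟪P.ν i, P.ν i⟫ = (1 : ℝ) := by
  rw [real_inner_self_eq_norm_sq, P.unit, one_pow]

theorem active_inj {q : E d} {i j : Fin m} (hi : i ∈ P.A q) (hj : j ∈ P.A q)
    (h : P.ν i = P.ν j) : i = j := by
  by_contra hne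
  obtain ⟨x, hx1, hx2⟩ := P.irr i
  have h1 := hx2 j (Ne.symm hne)
  have h2 : ⟪P.ν i, q⟫ = P.b i := hi
  have h3 : ⟪P.ν j, q⟫ = P.b j := hj
  rw [← h] at h1 h3
  linarith

theorem rk_eq_zero {q : E d} (hq : q ∈ P.cl) : P.rk q = 0 ↔ q ∈ P.Om := by
  rw [← P.A_eq_empty_iff hq]
  unfold rk
  rw [Submodule.finrank_eq_zero, N, Submodule.span_eq_bot]
  constructor
  · intro h
    ext i
    simp only [mem_empty_iff_false, iff_false]
    intro hi
    exact P.ν_ne_zero i (h _ ⟨i, hi, rfl⟩)
  · rintro h _ ⟨i, hi, rfl⟩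
    rw [h] at hi
    exact absurd hi (by simp)

theorem A_nonempty_of_rk {q : E d} (hq : q ∈ P.cl) (h : P.rk q ≠ 0) : (P.A q).Nonempty := by
  rw [nonempty_iff_ne_empty]
  intro h'
  exact h ((P.rk_eq_zero hq).2 ((P.A_eq_empty_iff hq).1 h'))

theorem ν_mem_N {q : E d} {i : Fin m} (hi : i ∈ P.A q) : P.ν i ∈ P.N q :=
  Submodule.subset_span ⟨i, hi, rfl⟩

theorem rk_eq_one {q : E d} (hq : q ∈ P.cl) (h : P.rk q = 1) : ∃ i, P.A q = {i} := by
  obtain ⟨i, hi⟩ := P.A_nonempty_of_rk hq (by omega)
  refine ⟨i, ?_⟩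
  ext j
  simp only [mem_singleton_iff]
  refine ⟨fun hj => ?_, fun hj => hj ▸ hi⟩
  have h1 : Submodule.span ℝ {P.ν i} = P.N q := by
    apply Submodule.eq_of_le_of_finrank_eq
    · rw [Submodule.span_le, singleton_subset_iff]
      exact P.ν_mem_N hi
    · rw [finrank_span_singleton (P.ν_ne_zero i)]; exact h.symm
  have h2 := P.ν_mem_N hj
  rw [← h1, Submodule.mem_span_singleton] at h2
  obtain ⟨c, hc⟩ := h2
  obtain ⟨γ, hγ⟩ := P.exists_gamma hq
  have h3 := hγ i hi
  have h4 := hγ j hj
  rw [← hc, inner_smul_left, h3] at h4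
  simp only [conj_trivial] at h4
  have h5 : c = 1 := by linarith
  rw [h5, one_smul] at hc
  exact (P.active_inj hi hj hc).symm

theorem rk_eq_two {q : E d} (hq : q ∈ P.cl) (h : P.rk q = 2) :
    ∃ i j e1 e2 om, Frame P q i j e1 e2 om := by
  obtain ⟨i, hi⟩ := P.A_nonempty_of_rk hq (by omega)
  -- a second independent normal
  obtain ⟨j, hj, hjn⟩ : ∃ j ∈ P.A q, P.ν j ∉ Submodule.span ℝ {P.ν i} := by
    by_contra hcon
    push Not at hcon
    have h1 : P.N q ≤ Submodule.span ℝ {P.ν i} := by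
      rw [N, Submodule.span_le]
      rintro _ ⟨k, hk, rfl⟩
      exact hcon k hk
    have h2 := Submodule.finrank_mono h1
    rw [finrank_span_singleton (P.ν_ne_zero i)] at h2
    unfold rk at h
    omega
  set c : ℝ := ⟪P.ν i, P.ν j⟫ with hc
  have hji : ⟪P.ν j, P.ν i⟫ = c := real_inner_comm _ _
  have hii := P.inner_ν_self i
  have hjj := P.inner_ν_self j
  have hne : P.ν j - c • P.ν i ≠ 0 := by
    intro h0
    apply hjn
    rw [Submodule.mem_span_singleton]
    exact ⟨c, (sub_eq_zero.1 h0).symm⟩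
  have hnsq : ‖P.ν j - c • P.ν i‖ ^ 2 = 1 - c ^ 2 := by
    rw [← real_inner_self_eq_norm_sq, inner_sub_left, inner_sub_right, inner_sub_right,
      inner_smul_left, inner_smul_right, inner_smul_left, inner_smul_right, hjj, hji, hii, ← hc]
    simp only [conj_trivial]
    ring
  have hpos : 0 < 1 - c ^ 2 := by
    rw [← hnsq]; exact pow_pos (norm_pos_iff.2 hne) 2
  have hc1 : -1 < -c := by nlinarith
  have hc2 : -c < 1 := by nlinarith
  set om := Real.arccos (-c) with hom
  have hcos : Real.cos om = -c := Real.cos_arccos hc1.le hc2.le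
  have hsin : Real.sin om = Real.sqrt (1 - c ^ 2) := by
    rw [hom, Real.sin_arccos]; congr 1; ring
  have hspos : 0 < Real.sin om := by rw [hsin]; exact Real.sqrt_pos.2 hpos
  have hssq : Real.sin om ^ 2 = 1 - c ^ 2 := by rw [hsin, Real.sq_sqrt hpos.le]
  set e1 : E d := (-(Real.sin om)⁻¹) • (P.ν j - c • P.ν i) with he1
  set e2 : E d := -P.ν i with he2
  have n1 : ‖e1‖ = 1 := by
    rw [he1, norm_smul, norm_neg, Real.norm_eq_abs, abs_of_pos (inv_pos.2 hspos)]
    have : ‖P.ν j - c • P.ν i‖ = Real.sin om := by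
      rw [← abs_of_pos hspos, ← abs_of_nonneg (norm_nonneg (P.ν j - c • P.ν i))]
      exact (sq_eq_sq_iff_abs_eq_abs _ _).1 (by rw [hnsq, hssq])
    rw [this, inv_mul_cancel₀ hspos.ne']
  have n2 : ‖e2‖ = 1 := by rw [he2, norm_neg, P.unit]
  have orth : ⟪e1, e2⟫ = (0 : ℝ) := by
    rw [he1, he2, inner_neg_right, inner_smul_left, inner_sub_left, inner_smul_left, hji, hii]
    simp
  have i11 : ⟪e1, e1⟫ = (1 : ℝ) := by rw [real_inner_self_eq_norm_sq, n1, one_pow]
  have i22 : ⟪e2, e2⟫ = (1 : ℝ) := by rw [real_inner_self_eq_norm_sq, n2, one_pow]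
  have i21 : ⟪e2, e1⟫ = (0 : ℝ) := by rw [real_inner_comm]; exact orth
  have hνj : P.ν j = (-Real.sin om) • e1 + Real.cos om • e2 := by
    rw [he1, he2, hcos, smul_smul, neg_mul_neg, mul_inv_cancel₀ hspos.ne', one_smul, smul_neg,
      neg_smul, neg_neg, sub_add_cancel]
  have hom0 : 0 < om := by
    rcases (Real.arccos_nonneg (-c)).eq_or_lt with h0 | h0
    · rw [hom, ← h0, Real.sin_zero] at hspos; exact absurd hspos (lt_irrefl _)
    · exact h0
  have homπ : om < Real.pi := by
    rcases (Real.arccos_le_pi (-c)).eq_or_lt with h0 | h0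
    · rw [hom, h0, Real.sin_pi] at hspos; exact absurd hspos (lt_irrefl _)
    · exact h0
  have hij : i ≠ j := by
    rintro rfl
    exact hjn (Submodule.mem_span_singleton_self _)
  clear_value e1 e2
  -- the span
  have hspan : P.N q = Submodule.span ℝ {e1, e2} := by
    symm
    apply Submodule.eq_of_le_of_finrank_eq
    · rw [Submodule.span_le]
      have m1 : e1 ∈ P.N q := by
        rw [he1]
        exact Submodule.smul_mem _ _ (Submodule.sub_mem _ (P.ν_mem_N hj)
          (Submodule.smul_mem _ _ (P.ν_mem_N hi)))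
      have m2 : e2 ∈ P.N q := by
        rw [he2]
        exact Submodule.neg_mem _ (P.ν_mem_N hi)
      intro x hx
      rcases hx with hx | hx
      · rw [hx]; exact m1
      · rw [mem_singleton_iff] at hx; rw [hx]; exact m2
    · have hli : LinearIndependent ℝ ![e1, e2] := by
        rw [LinearIndependent.pair_iff]
        intro a b hab
        have h1 : ⟪a • e1 + b • e2, e1⟫ = (0 : ℝ) := by rw [hab, inner_zero_left]
        have h2 : ⟪a • e1 + b • e2, e2⟫ = (0 : ℝ) := by rw [hab, inner_zero_left]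
        rw [inner_add_left, inner_smul_left, inner_smul_left, i11, i21] at h1
        rw [inner_add_left, inner_smul_left, inner_smul_left, i22, orth] at h2
        simp only [conj_trivial, mul_one, mul_zero, add_zero, zero_add] at h1 h2
        exact ⟨h1, h2⟩
      have h10 := finrank_span_eq_card hli
      have h11 : range ![e1, e2] = {e1, e2} := by
        simp only [Matrix.range_cons, Matrix.range_empty, union_empty, singleton_union]
      rw [h11, Fintype.card_fin] at h10
      rw [h10]; exact h.symm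
  refine ⟨i, j, e1, e2, om, hq, ?_, hij, n1, n2, orth, hom0, homπ, ?_, hνj⟩
  swap
  · rw [he2, neg_neg]
  ext k
  simp only [mem_insert_iff, mem_singleton_iff]
  refine ⟨fun hk => ?_, fun hk => by rcases hk with rfl | rfl <;> assumption⟩
  obtain ⟨γ, hγ⟩ := P.exists_gamma hq
  have hk' := P.ν_mem_N hk
  rw [hspan, Submodule.mem_span_pair] at hk'
  obtain ⟨a, b, hab⟩ := hk'
  set g1 : ℝ := ⟪e1, γ⟫
  set g2 : ℝ := ⟪e2, γ⟫ with hg2
  have hg2' : g2 = 1 := by
    rw [hg2, he2, inner_neg_left, hγ i hi, neg_neg]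
  have h3 := hγ j hj
  rw [hνj, inner_add_left, inner_smul_left, inner_smul_left] at h3
  simp only [conj_trivial] at h3
  change -Real.sin om * g1 + Real.cos om * g2 = -1 at h3
  have h4 := hγ k hk
  rw [← hab, inner_add_left, inner_smul_left, inner_smul_left] at h4
  simp only [conj_trivial] at h4
  change a * g1 + b * g2 = -1 at h4
  have h5 : a ^ 2 + b ^ 2 = 1 := by
    have := P.inner_ν_self k
    rw [← hab, inner_add_left, inner_add_right, inner_add_right, inner_smul_left,
      inner_smul_right, inner_smul_left, inner_smul_right, inner_smul_left, inner_smul_right,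
      inner_smul_left, inner_smul_right, i11, i22, i21, orth] at this
    simp only [conj_trivial] at this
    linarith
  rw [hg2', mul_one] at h3 h4
  -- a * (a * (1 + g1^2) + 2 * g1) = 0
  have h6 : a * (a * (1 + g1 ^ 2) + 2 * g1) = 0 := by
    have hb : b = -1 - a * g1 := by linarith
    rw [hb] at h5
    nlinarith
  rcases mul_eq_zero.1 h6 with h7 | h7
  · left
    have hb : b = -1 := by rw [h7] at h4; linarith
    apply P.active_inj hk hi
    rw [← hab, h7, hb, he2]
    simp
  · right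
    have hs2 := Real.sin_sq_add_cos_sq om
    have hg : Real.sin om * g1 = 1 + Real.cos om := by linarith
    have hcpos : 0 < 1 + Real.cos om := by rw [hcos]; linarith
    -- a = - sin om
    have hsa : a = -Real.sin om := by
      have e1 : Real.sin om ^ 2 * (1 + g1 ^ 2) = 2 * (1 + Real.cos om) := by
        have : Real.sin om ^ 2 * g1 ^ 2 = (1 + Real.cos om) ^ 2 := by rw [← mul_pow, hg]
        nlinarith
      have e2 : Real.sin om ^ 2 * (a * (1 + g1 ^ 2) + 2 * g1) = 0 := by rw [h7, mul_zero]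
      have e3 : a * (2 * (1 + Real.cos om)) + 2 * Real.sin om * (1 + Real.cos om) = 0 := by
        have : Real.sin om ^ 2 * (a * (1 + g1 ^ 2) + 2 * g1) =
          a * (Real.sin om ^ 2 * (1 + g1 ^ 2)) + 2 * Real.sin om * (Real.sin om * g1) := by ring
        rw [this, e1, hg] at e2
        exact e2
      have e4 : (a + Real.sin om) * (2 * (1 + Real.cos om)) = 0 := by linarith
      rcases mul_eq_zero.1 e4 with h | h
      · linarith
      · linarith
    have hb : b = Real.cos om := by
      have : b = -1 - a * g1 := by linarith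
      rw [this, hsa]; linarith
    apply P.active_inj hk hj
    rw [← hab, hνj, hsa, hb]

theorem _root_.Pool.Agent.Lib_helper13.Robin.Frame.N_eq {q : E d} {i j : Fin m} {e1 e2 : E d}
    {om : ℝ} {P : PD d m} (h : Frame P q i j e1 e2 om) : P.N q = Submodule.span ℝ {e1, e2} := by
  have hspos : 0 < Real.sin om := Real.sin_pos_of_pos_of_lt_pi h.om0 h.omπ
  have himg : P.ν '' P.A q = {P.ν i, P.ν j} := by rw [h.hA, image_pair]
  unfold N
  rw [himg]
  apply le_antisymm
  · rw [Submodule.span_le]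
    rintro x (rfl | rfl)
    · rw [h.νi]
      exact Submodule.neg_mem _ (Submodule.subset_span (by simp))
    · rw [h.νj]
      exact Submodule.add_mem _ (Submodule.smul_mem _ _ (Submodule.subset_span (by simp)))
        (Submodule.smul_mem _ _ (Submodule.subset_span (by simp)))
  · rw [Submodule.span_le]
    have hi : P.ν i ∈ Submodule.span ℝ {P.ν i, P.ν j} := Submodule.subset_span (by simp)
    have hj : P.ν j ∈ Submodule.span ℝ {P.ν i, P.ν j} := Submodule.subset_span (by simp)
    have h2 : e2 ∈ Submodule.span ℝ {P.ν i, P.ν j} := by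
      have : e2 = -P.ν i := by rw [h.νi, neg_neg]
      rw [this]; exact Submodule.neg_mem _ hi
    rintro x (rfl | rfl)
    · have : x = (-(Real.sin om)⁻¹) • (P.ν j - Real.cos om • e2) := by
        rw [h.νj, add_sub_cancel_right, smul_smul, neg_mul_neg, inv_mul_cancel₀ hspos.ne',
          one_smul]
      rw [this]
      exact Submodule.smul_mem _ _ (Submodule.sub_mem _ hj (Submodule.smul_mem _ _ h2))
    · exact h2

end PD

end

end Pool.Agent.Lib_helper13.Robin
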