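import Pool.Agent.Lib_helper13.Robin.Basic
import Pool.Agent.Lib_helper13.Robin.All

/-!
# Robin project: assembly
-/

namespace Pool.Agent.Lib_helper13.Robin

open MeasureTheory Set Metric Filter Topology
open scoped RealInnerProductSpace ContDiff

noncomputable section

variable {d m : ℕ} (P : PD d m)

section
variable {ι : Type} [Fintype ι] {T : ι → E d → ℝ}

theorem continuous_rho (q : E d) : Continuous (P.rho q) := by
  unfold PD.rho; fun_prop

theorem isOpen_punct (q : E d) (r : ℝ) : IsOpen (ball q r \ {x | P.rho q x = 0}) :=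
  isOpen_ball.sdiff (isClosed_eq (continuous_rho P q) continuous_const)

/-- The induction over the strata. -/
theorem ind {V : Set (E d)} (hV : IsOpen V) (hEF : EF P T V)
    (h2 : ∀ q ∈ V, q ∈ P.cl → P.rk q = 2 → ∃ r > 0, ∃ C, ∀ x ∈ P.Om ∩ ball q r, sq T x ≤ C)
    (h3 : ∀ q ∈ V, q ∈ P.cl → 3 ≤ P.rk q →
      ∃ r > 0, IntegrableOn (fun x => (P.rho q x)⁻¹ * sq T x) (P.Om ∩ ball q r)) :
    PP P T V := by
  have key : ∀ n : ℕ, ∀ q ∈ V, q ∈ P.cl → P.rk q = n → ∃ r > 0, PP P T (ball q r) := by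
    intro n
    induction n using Nat.strong_induction_on with
    | _ n ih =>
    intro q hq hqc hn
    rcases Nat.lt_or_ge n 2 with h | h
    · exact pp_base P hV hEF hq hqc (by omega)
    -- common: choose a small conical ball
    obtain ⟨R0, hR0⟩ := P.exists_con hqc
    obtain ⟨R1, hR1, hR1V⟩ := Metric.isOpen_iff.1 hV q hq
    have punct : ∀ R, 0 < R → R ≤ R0 → R ≤ R1 →
        PP P T (ball q R \ {x | P.rho q x = 0}) := by
      intro R hR h0 h1
      have hC : P.Con q R := hR0.mono hR h0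
      apply pp_of_local P (isOpen_punct P q R)
      intro x hx hxc
      have hxV : x ∈ V := hR1V (ball_subset_ball h1 hx.1)
      exact ih (P.rk x) (hn ▸ hC.rk_lt hx.1 hx.2) x hxV hxc rfl
    rcases h.eq_or_lt with h' | h'
    · obtain ⟨r, hr, C, hb⟩ := h2 q hq hqc (by omega)
      have hR : 0 < min (min R0 R1) r := lt_min (lt_min hR0.1 hR1) hr
      refine ⟨min (min R0 R1) r, hR, ?_⟩
      apply pp_edge P (hR0.mono hR (le_trans (min_le_left _ _) (min_le_left _ _))) (by omega)
      · exact punct _ hR (le_trans (min_le_left _ _) (min_le_left _ _))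
          (le_trans (min_le_left _ _) (min_le_right _ _))
      · exact ⟨C, fun x hx => hb x ⟨hx.1, ball_subset_ball (min_le_right _ _) hx.2⟩⟩
    · obtain ⟨r, hr, hb⟩ := h3 q hq hqc (by omega)
      have hR : 0 < min (min R0 R1) r := lt_min (lt_min hR0.1 hR1) hr
      refine ⟨min (min R0 R1) r, hR, ?_⟩
      apply pp_corner P (hR0.mono hR (le_trans (min_le_left _ _) (min_le_left _ _))) (by omega)
      · exact punct _ hR (le_trans (min_le_left _ _) (min_le_left _ _))
          (le_trans (min_le_left _ _) (min_le_right _ _))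
      · exact hb.mono_set (inter_subset_inter_right _ (ball_subset_ball (min_le_right _ _)))
  exact pp_of_local P hV fun q hq hqc => key _ q hq hqc rfl

end

/-! ### derivatives of `wp` -/

theorem hasFDerivAt_inner_sub (γ p x : E d) :
    HasFDerivAt (fun x => ⟪γ, x - p⟫) (innerSL ℝ γ) x := by
  have := ((innerSL ℝ γ).hasFDerivAt (x := x - p)).comp x ((hasFDerivAt_id x).sub_const p)
  rw [ContinuousLinearMap.comp_id] at this
  exact this

theorem pd_wp {v : E d → ℝ} {p γ : E d} {x e : E d} (hv : DifferentiableAt ℝ v x) :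
    pd e (wp P v p γ) x = pd e v x - ⟪γ, e⟫ + P.mu / d * ⟪x - p, e⟫ := by
  have h1 : HasFDerivAt (fun x => ⟪γ, x - p⟫) (innerSL ℝ γ) x := hasFDerivAt_inner_sub γ p x
  have h2 : HasFDerivAt (fun x => ‖x - p‖ ^ 2) ((2 : ℝ) • innerSL ℝ (x - p)) x := by
    have := ((hasStrictFDerivAt_norm_sq (x - p)).hasFDerivAt).comp x
      ((hasFDerivAt_id x).sub_const p)
    rw [ContinuousLinearMap.comp_id] at this
    rw [show ((2 : ℝ) • innerSL ℝ (x - p)) = ((2 : ℕ) • innerSL ℝ (x - p)) by
      rw [← Nat.cast_smul_eq_nsmul ℝ]; norm_num]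
    exact this
  have h3 := (hv.hasFDerivAt.sub h1).add (h2.const_mul (P.mu / (2 * d)))
  have h4 : wp P v p γ = (fun y => v y - ⟪γ, y - p⟫ + P.mu / (2 * d) * ‖y - p‖ ^ 2) := rfl
  unfold pd
  rw [h4]
  have h5 := h3.fderiv
  have h6 : (fun y => v y - ⟪γ, y - p⟫ + P.mu / (2 * d) * ‖y - p‖ ^ 2) =
    ((v - fun y => ⟪γ, y - p⟫) + fun y => P.mu / (2 * d) * ‖y - p‖ ^ 2) := rfl
  rw [h6, h5]
  simp only [ContinuousLinearMap.add_apply, ContinuousLinearMap.sub_apply,
    ContinuousLinearMap.smul_apply, innerSL_apply_apply, smul_eq_mul]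
  have hd : (d : ℝ) ≠ 0 := by have := P.dim; positivity
  field_simp

/-- the global Hessian field -/
def HH (P : PD d m) (v : E d → ℝ) (jk : Fin d × Fin d) (x : E d) : ℝ :=
  pd (bv jk.2) (pd (bv jk.1) v) x + P.mu / d * ⟪(bv jk.2 : E d), bv jk.1⟫

theorem T2_wp {v : E d → ℝ} (hv : ContDiffOn ℝ ∞ v P.Om) {p γ : E d} (jk : Fin d × Fin d)
    {x : E d} (hx : x ∈ P.Om) : T2 (wp P v p γ) jk x = HH P v jk x := by
  have hsm : ∀ y ∈ P.Om, ContDiffAt ℝ ∞ v y := fun y hy =>
    (hv y hy).contDiffAt (P.isOpen_Om.mem_nhds hy)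
  have h1 : pd (bv jk.1) (wp P v p γ) =ᶠ[𝓝 x]
      fun y => pd (bv jk.1) v y - ⟪γ, bv jk.1⟫ + P.mu / d * ⟪y - p, bv jk.1⟫ := by
    filter_upwards [P.isOpen_Om.mem_nhds hx] with y hy
    exact pd_wp P ((hsm y hy).differentiableAt (by simp))
  have h2 : DifferentiableAt ℝ (pd (bv jk.1) v) x := by
    have : ContDiffAt ℝ 1 (fderiv ℝ v) x := (hsm x hx).fderiv_right (by norm_cast)
    exact (this.differentiableAt (by simp)).clm_apply (differentiableAt_const _)
  unfold T2 HH
  have h3 : HasFDerivAt (fun y : E d => ⟪y - p, bv jk.1⟫) (innerSL ℝ (bv jk.1 : E d)) x := by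
    have h4 : (fun y : E d => ⟪y - p, bv jk.1⟫) = (fun y : E d => ⟪bv jk.1, y - p⟫) := by
      ext y; rw [real_inner_comm]
    rw [h4]
    exact hasFDerivAt_inner_sub _ _ _
  have h5 := (h2.hasFDerivAt.sub_const ⟪γ, bv jk.1⟫).add (h3.const_mul (P.mu / d))
  unfold pd at h1 ⊢
  rw [h1.fderiv_eq]
  have h6 : (fun y => (fderiv ℝ v y) (bv jk.1) - ⟪γ, bv jk.1⟫ + P.mu / d * ⟪y - p, bv jk.1⟫) =
    ((fun y => pd (bv jk.1) v y - ⟪γ, bv jk.1⟫) + fun y => P.mu / d * ⟪y - p, bv jk.1⟫) := rfl
  rw [h6, h5.fderiv]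
  simp only [ContinuousLinearMap.add_apply, ContinuousLinearMap.smul_apply, innerSL_apply_apply,
    smul_eq_mul]
  rw [real_inner_comm]
  rfl

/-- All third derivatives of `v` vanish. -/
theorem third_zero {v : E d → ℝ} (hv : LV P v) (hq : QC P v) :
    ∀ x ∈ P.Om, ∀ j k, gradient (pd (bv k) (pd (bv j) v)) x = 0 := by
  -- the property 𝒫 for HH near every point
  have hloc : ∀ p ∈ P.cl, ∃ r > 0, PP P (HH P v) (ball p r) := by
    intro p hp
    obtain ⟨R, hC⟩ := P.exists_con hp
    obtain ⟨γ, hγ⟩ := P.exists_gamma hp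
    have hN := nh_of_lv P hv hC hγ
    set w := wp P v p γ with hw
    have hsm : ∀ y ∈ P.Om, ContDiffAt ℝ ∞ v y := fun y hy =>
      (hv.sm y hy).contDiffAt (P.isOpen_Om.mem_nhds hy)
    have hdif : ∀ y ∈ P.Om, DifferentiableAt ℝ v y := fun y hy =>
      (hsm y hy).differentiableAt (by simp)
    -- level 0
    have P0 : PP P (fun _ : Unit => w) (ball p R) := nh_pp P isOpen_ball hN
    -- level 1
    have P1 : PP P (T1 w) (ball p R) := by
      apply ind P isOpen_ball (ef_T1 P isOpen_ball hN)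
      · intro q hq1 hqc hr
        obtain ⟨r, hr0, C, hb⟩ := edge_bound P hv hq hqc hr
        refine ⟨r, hr0, ∑ j : Fin d, (|C| + ‖γ‖ + |P.mu / d| * (r + ‖q - p‖)) ^ 2, ?_⟩
        intro x hx
        apply Finset.sum_le_sum
        intro j _
        rw [← sq_abs (T1 w j x)]
        apply pow_le_pow_left₀ (abs_nonneg _)
        have e1 : T1 w j x = pd (bv j) v x - ⟪γ, bv j⟫ + P.mu / d * ⟪x - p, bv j⟫ :=
          pd_wp P (hdif x hx.1)
        have e2 : |⟪γ, (bv j : E d)⟫| ≤ ‖γ‖ := by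
          calc _ ≤ ‖γ‖ * ‖(bv j : E d)‖ := abs_real_inner_le_norm _ _
            _ = ‖γ‖ := by simp [bv]
        have e3 : |⟪x - p, (bv j : E d)⟫| ≤ r + ‖q - p‖ := by
          calc _ ≤ ‖x - p‖ * ‖(bv j : E d)‖ := abs_real_inner_le_norm _ _
            _ = ‖x - p‖ := by simp [bv]
            _ ≤ ‖x - q‖ + ‖q - p‖ := by
              have := norm_sub_le_norm_sub_add_norm_sub x q p; simpa using this
            _ ≤ r + ‖q - p‖ := by
              have : ‖x - q‖ < r := by simpa [mem_ball, dist_eq_norm] using hx.2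
              linarith
        rw [e1]
        calc |pd (bv j) v x - ⟪γ, bv j⟫ + P.mu / d * ⟪x - p, bv j⟫|
            ≤ |pd (bv j) v x| + |⟪γ, (bv j : E d)⟫| + |P.mu / d * ⟪x - p, bv j⟫| := by
              refine (abs_add_le _ _).trans (add_le_add_left ?_ _)
              rw [sub_eq_add_neg]
              exact (abs_add_le _ _).trans (by rw [abs_neg])
          _ ≤ |C| + ‖γ‖ + |P.mu / d| * (r + ‖q - p‖) := by
              rw [abs_mul]
              have e4 := ((hb x hx).1 j).trans (le_abs_self C)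
              have e5 : |P.mu / d| * |⟪x - p, (bv j : E d)⟫| ≤ |P.mu / d| * (r + ‖q - p‖) := by
                gcongr
              linarith
      · intro q hq1 hqc hr
        obtain ⟨R1, hR1⟩ := P.exists_con hqc
        obtain ⟨R2, hR2, hR2V⟩ := Metric.isOpen_iff.1 isOpen_ball q hq1
        have hR : 0 < min R1 R2 := lt_min hR1.1 hR2
        have := weight P (hR1.mono hR (min_le_left _ _)) hr
          (P0.mono ((ball_subset_ball (min_le_right _ _)).trans hR2V))
        rw [gsq_unit] at this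
        exact this
    -- level 2
    have P2 : PP P (T2 w) (ball p R) := by
      apply ind P isOpen_ball (ef_T2 P isOpen_ball hN)
      · intro q hq1 hqc hr
        obtain ⟨r, hr0, C, hb⟩ := edge_bound P hv hq hqc hr
        refine ⟨r, hr0, ∑ j : Fin d × Fin d, (|C| + |P.mu / d|) ^ 2, ?_⟩
        intro x hx
        apply Finset.sum_le_sum
        intro j _
        rw [← sq_abs (T2 w j x), hw, T2_wp P hv.sm j hx.1]
        apply pow_le_pow_left₀ (abs_nonneg _)
        unfold HH
        have e1 : |⟪(bv j.2 : E d), bv j.1⟫| ≤ 1 := by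
          calc _ ≤ ‖(bv j.2 : E d)‖ * ‖(bv j.1 : E d)‖ := abs_real_inner_le_norm _ _
            _ = 1 := by simp [bv]
        refine (abs_add_le _ _).trans ?_
        rw [abs_mul]
        have e2 := ((hb x hx).2 j.1 j.2).trans (le_abs_self C)
        have e3 : |P.mu / d| * |⟪(bv j.2 : E d), bv j.1⟫| ≤ |P.mu / d| * 1 := by gcongr
        linarith
      · intro q hq1 hqc hr
        obtain ⟨R1, hR1⟩ := P.exists_con hqc
        obtain ⟨R2, hR2, hR2V⟩ := Metric.isOpen_iff.1 isOpen_ball q hq1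
        have hR : 0 < min R1 R2 := lt_min hR1.1 hR2
        have := weight P (hR1.mono hR (min_le_left _ _)) hr
          (P1.mono ((ball_subset_ball (min_le_right _ _)).trans hR2V))
        rw [gsq_T1] at this
        exact this
    refine ⟨R, hC.1, P2.congr isOpen_ball ?_⟩
    intro jk x hx
    rw [hw, T2_wp P hv.sm jk hx.1]
  have hglob : PP P (HH P v) univ := pp_of_local P isOpen_univ fun q _ hqc => hloc q hqc
  -- test with ψ = 1 on cl
  obtain ⟨ρ, hρ⟩ := P.isCompact_cl.isBounded.subset_closedBall (0 : E d)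
  have hρ1 : 0 < |ρ| + 1 := by positivity
  let ψ : ContDiffBump (0 : E d) := ⟨|ρ| + 1, |ρ| + 2, hρ1, by linarith⟩
  have hψ1 : ∀ x ∈ P.Om, (ψ : E d → ℝ) =ᶠ[𝓝 x] fun _ => 1 := by
    intro x hx
    have h1 : x ∈ ball (0 : E d) (|ρ| + 1) := by
      have := hρ (P.Om_sub_cl hx)
      rw [mem_closedBall] at this
      rw [mem_ball]
      linarith [le_abs_self ρ]
    filter_upwards [isOpen_ball.mem_nhds h1] with y hy
    exact ψ.one_of_mem_closedBall (ball_subset_closedBall hy)
  have hI := pp_I P isOpen_univ hglob (ψ.contDiff (n := 1)) ψ.hasCompactSupport (subset_univ _)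
  have hL : ∫ x in P.Om, ⟪tg (HH P v) x, gradient ψ x⟫ = 0 := by
    rw [← integral_zero (E d) ℝ (μ := volume.restrict P.Om)]
    apply setIntegral_congr_fun P.measurableSet_Om
    intro x hx
    have : gradient ψ x = 0 := by
      unfold gradient
      rw [(hψ1 x hx).fderiv_eq]
      simp
    simp only [this, inner_zero_right]
  have hR : ∫ x in P.Om, ψ x * gsq (HH P v) x = ∫ x in P.Om, gsq (HH P v) x := by
    apply setIntegral_congr_fun P.measurableSet_Om
    intro x hx
    simp only [(hψ1 x hx).eq_of_nhds, one_mul]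
  rw [hL, hR] at hI
  have hI0 : ∫ x in P.Om, gsq (HH P v) x = 0 := by linarith
  have hsmH : ∀ jk, ContDiffOn ℝ ∞ (HH P v jk) P.Om := by
    intro jk
    have := hglob.sm jk
    rwa [inter_univ] at this
  have hcont : ContinuousOn (gsq (HH P v)) P.Om := by
    unfold gsq
    apply continuousOn_finset_sum
    intro jk _
    apply ContinuousOn.pow
    apply ContinuousOn.norm
    have h1 : ContinuousOn (fderiv ℝ (HH P v jk)) P.Om :=
      (hsmH jk).continuousOn_fderiv_of_isOpen P.isOpen_Om (by simp)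
    unfold gradient
    exact (LinearIsometryEquiv.continuous _).comp_continuousOn h1
  have hint : IntegrableOn (gsq (HH P v)) P.Om := by
    have := hglob.int2 P.cl (subset_univ _) P.isCompact_cl
    rwa [inter_eq_left.2 P.Om_sub_cl] at this
  have hnn : ∀ x, 0 ≤ gsq (HH P v) x := fun x => Finset.sum_nonneg fun _ _ => by positivity
  have hae : gsq (HH P v) =ᵐ[volume.restrict P.Om] 0 :=
    (setIntegral_eq_zero_iff_of_nonneg_ae (Eventually.of_forall hnn) hint).1 hI0
  have hz : EqOn (gsq (HH P v)) 0 P.Om :=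
    Measure.eqOn_of_ae_eq hae hcont continuousOn_const (by
      rw [P.isOpen_Om.interior_eq]; exact subset_closure)
  intro x hx j k
  have h1 := hz hx
  simp only [gsq, Pi.zero_apply] at h1
  have h2 := (Finset.sum_eq_zero_iff_of_nonneg (fun jk _ => by positivity)).1 h1 (j, k)
    (Finset.mem_univ _)
  have h3 : gradient (HH P v (j, k)) x = 0 := by
    rw [← norm_eq_zero]; exact pow_eq_zero_iff (two_ne_zero) |>.1 h2
  have h4 : HH P v (j, k) = fun y => pd (bv k) (pd (bv j) v) y +
    P.mu / d * ⟪(bv k : E d), bv j⟫ := rfl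
  rw [h4] at h3
  unfold gradient at h3 ⊢
  rw [fderiv_add_const] at h3
  exact h3

/-! ### scaling of ground states -/

theorem RGS.smul {Ω : Set (E d)} (hΩ : IsOpen Ω) {α lam : ℝ} {u : E d → ℝ} (h : RGS Ω α lam u)
    {c : ℝ} (hc : 0 < c) : RGS Ω α lam (fun x => c * u x) := by
  have hgr : ∀ x ∈ Ω, gradient (fun x => c * u x) x = c • gradient u x := by
    intro x hx
    have h1 : DifferentiableAt ℝ u x :=
      ((h.smooth x hx).contDiffAt (hΩ.mem_nhds hx)).differentiableAt (by simp)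
    unfold gradient
    rw [fderiv_const_mul h1]
    simp
  refine ⟨continuousOn_const.mul h.cont, contDiffOn_const.mul h.smooth,
    fun x hx => mul_pos hc (h.pos x hx), ?_, ?_⟩
  · have h0 : IntegrableOn (fun x => c ^ 2 * ‖gradient u x‖ ^ 2) Ω := h.energy.const_mul (c ^ 2)
    refine h0.congr_fun ?_ hΩ.measurableSet
    intro x hx
    simp only [hgr x hx, norm_smul, mul_pow, Real.norm_eq_abs, sq_abs]
  · intro φ h1 h2 h3
    have := h.weak φ h1 h2 h3
    have e1 : ∫ x in Ω, ⟪gradient (fun x => c * u x) x, gradient φ x⟫ =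
        c * ∫ x in Ω, ⟪gradient u x, gradient φ x⟫ := by
      rw [← integral_const_mul]
      apply setIntegral_congr_fun hΩ.measurableSet
      intro x hx
      simp only [hgr x hx, inner_smul_left]
      simp
    have e2 : ∫ x in frontier Ω, c * u x * φ x ∂(μHE[d - 1]) =
        c * ∫ x in frontier Ω, u x * φ x ∂(μHE[d - 1]) := by
      rw [← integral_const_mul]
      simp only [mul_assoc]
    have e3 : ∫ x in Ω, c * u x * φ x = c * ∫ x in Ω, u x * φ x := by
      rw [← integral_const_mul]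
      simp only [mul_assoc]
    rw [e1, e2, e3, ← mul_assoc α, mul_comm α c, mul_assoc, ← mul_add, this]
    ring

/-- Existence of the limit function. -/
theorem limit_exists (α lam : ℕ → ℝ) (u : ℕ → E d → ℝ) (hα : ∀ n, 0 < α n)
    (hα0 : Tendsto α atTop (𝓝 0)) (hu : ∀ n, RGS P.Om (α n) (lam n) (u n))
    (hc : ∀ n t, Convex ℝ {x | x ∈ P.Om ∧ t ≤ u n x}) : ∃ v, LV P v ∧ QC P v := by
  have hI : ∀ n, 0 < ∫ x in P.Om, u n x := by
    intro n
    rw [setIntegral_pos_iff_support_of_nonneg_ae]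
    · have : Function.support (u n) ∩ P.Om = P.Om := by
        apply inter_eq_right.2
        intro x hx
        exact ((hu n).pos x hx).ne'
      rw [this]
      exact P.isOpen_Om.measure_pos _ P.nonempty_Om
    · filter_upwards [self_mem_ae_restrict P.measurableSet_Om] with x hx
      exact ((hu n).pos x hx).le
    · have h1 : ContinuousOn (u n) P.cl := by rw [← P.closure_Om]; exact (hu n).cont
      exact (h1.integrableOn_compact P.isCompact_cl).mono_set P.Om_sub_cl
  set c : ℕ → ℝ := fun n => P.vol / ∫ x in P.Om, u n x with hcdef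
  have hcpos : ∀ n, 0 < c n := fun n => div_pos P.vol_pos (hI n)
  have hu' : ∀ n, RGS P.Om (α n) (lam n) (fun x => c n * u n x) := fun n =>
    (hu n).smul P.isOpen_Om (hcpos n)
  have hn' : ∀ n, ∫ x in P.Om, c n * u n x = P.vol := by
    intro n
    rw [integral_const_mul, hcdef]
    exact div_mul_cancel₀ _ (hI n).ne'
  obtain ⟨V, D, k, hk, hV, hD, hae, hw, hg⟩ := limit_pair P α lam _ hα hα0 hu' hn'
  obtain ⟨v, hv, hvV⟩ := smooth_limit P V D hV hD hw hg
  refine ⟨v, hv, ?_⟩
  apply qc_limit P v hv.sm.continuousOn (fun n x => (c (k n) * u (k n) x - 1) / α (k n))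
  · intro n t
    have := hc (k n) ((t * α (k n) + 1) / c (k n))
    convert this using 1
    ext x
    constructor
    · rintro ⟨h1, h2⟩
      refine ⟨h1, ?_⟩
      rw [le_div_iff₀ (hα _)] at h2
      rw [div_le_iff₀ (hcpos _)]
      linarith
    · rintro ⟨h1, h2⟩
      refine ⟨h1, ?_⟩
      rw [div_le_iff₀ (hcpos _)] at h2
      rw [le_div_iff₀ (hα _)]
      linarith
  · filter_upwards [hae, hvV] with x h1 h2
    rw [h2]; exact h1

/-- The theorem for irredundant data. -/
theorem main_pd (hnp : ¬ IsProdCirc P.Om) : ∃ α0 > 0, ∀ α ∈ Ioo 0 α0, ∀ (lam : ℝ) (u : E d → ℝ),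
    RGS P.Om α lam u → ∃ t : ℝ, ¬ Convex ℝ {x | x ∈ P.Om ∧ t ≤ u x} := by
  by_contra hcon
  push Not at hcon
  have hseq : ∀ n : ℕ, ∃ α ∈ Ioo (0 : ℝ) (1 / ((n : ℝ) + 1)), ∃ (lam : ℝ) (u : E d → ℝ),
      RGS P.Om α lam u ∧ ∀ t : ℝ, Convex ℝ {x | x ∈ P.Om ∧ t ≤ u x} := by
    intro n
    obtain ⟨α, h1, lam, u, h2, h3⟩ := hcon (1 / ((n : ℝ) + 1)) (by positivity)
    exact ⟨α, h1, lam, u, h2, h3⟩
  choose α hα lam u hu hc using hseq
  obtain ⟨v, hv, hq⟩ := limit_exists P α lam u (fun n => (hα n).1)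
    (squeeze_zero (fun n => (hα n).1.le) (fun n => (hα n).2.le)
      tendsto_one_div_add_atTop_nhds_zero_nat) hu hc
  obtain ⟨c, g, M, hM, hvq⟩ := quad_of_third P hv.sm (third_zero P hv hq)
  exact hnp (prod_of_quad P hM fun i q hqc hA => facet_normal P hv hM hvq hqc hA)

end

end Pool.Agent.Lib_helper13.Robin
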